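import Mathlib

/-!
# Lifting interval cyclic colourings of `K_{m,n}`
-/

/-- sorted periodic lift of finitely many residues -/
theorem kmn_sorted (m t : ℕ) (hm : 1 ≤ m) [NeZero t] (a : Fin m → ZMod t) :
    ∃ (R : ℤ → Fin m) (p : ℤ → ℤ), Monotone p ∧
      (∀ k z : ℤ, p (k + z * m) = p k + z * t) ∧
      (∀ k z : ℤ, R (k + z * m) = R k) ∧
      (∀ k, ((p k : ℤ) : ZMod t) = a (R k)) ∧
      (∀ (x : ℤ) (i : Fin m), (x : ZMod t) = a i → ∃ k, R k = i ∧ p k = x) ∧
      (∀ k k' : ℤ, R k = R k' → ∃ z : ℤ, k' = k + z * m) := by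
  have ht : 0 < t := Nat.pos_of_ne_zero (NeZero.ne t)
  have hm0 : (0 : ℤ) < m := by exact_mod_cast hm
  have ht0 : (0 : ℤ) < t := by exact_mod_cast ht
  let v : Fin m → ℕ := fun i => (a i).val
  have hv : ∀ i, v i < t := fun i => ZMod.val_lt (a i)
  let σ : Equiv.Perm (Fin m) := Tuple.sort v
  have hσ : Monotone (v ∘ σ) := Tuple.monotone_sort v
  have hlt : ∀ k : ℤ, (k % (m : ℤ)).toNat < m := by
    intro k
    have h1 := Int.emod_lt_of_pos k hm0
    have h2 := Int.emod_nonneg k hm0.ne'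
    omega
  let R : ℤ → Fin m := fun k => σ ⟨(k % (m : ℤ)).toNat, hlt k⟩
  let p : ℤ → ℤ := fun k => (v (R k) : ℤ) + t * (k / (m : ℤ))
  have hmodz : ∀ k z : ℤ, (k + z * m) % (m : ℤ) = k % m := fun k z =>
    Int.add_mul_emod_self_right k z m
  have hdivz : ∀ k z : ℤ, (k + z * m) / (m : ℤ) = k / m + z := fun k z =>
    Int.add_mul_ediv_right k z hm0.ne'
  have hRz : ∀ k z : ℤ, R (k + z * m) = R k := by
    intro k z
    simp only [R, hmodz]
  have hpz : ∀ k z : ℤ, p (k + z * m) = p k + z * t := by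
    intro k z
    simp only [p, hRz, hdivz]
    ring
  refine ⟨R, p, ?_, hpz, hRz, ?_, ?_, ?_⟩
  · refine monotone_int_of_le_succ fun k => ?_
    have h1 := Int.emod_lt_of_pos k hm0
    have h2 := Int.emod_nonneg k hm0.ne'
    have h3 := Int.mul_ediv_add_emod k m
    have h4 := Int.emod_lt_of_pos (k + 1) hm0
    have h5 := Int.emod_nonneg (k + 1) hm0.ne'
    have h6 := Int.mul_ediv_add_emod (k + 1) m
    by_cases hc : k % (m : ℤ) + 1 < m
    · have hd : (k + 1) / (m : ℤ) = k / m := by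
        have : k + 1 = (k % m + 1) + (k / m) * m := by linarith
        rw [this, Int.add_mul_ediv_right _ _ hm0.ne', Int.ediv_eq_zero_of_lt (by omega) hc]
        ring
      have he : (k + 1) % (m : ℤ) = k % m + 1 := by
        rw [hd] at h6
        linarith
      have hle : v (R k) ≤ v (R (k + 1)) := by
        have : (⟨(k % (m : ℤ)).toNat, hlt k⟩ : Fin m) ≤ ⟨((k + 1) % (m : ℤ)).toNat, hlt (k + 1)⟩ := by
          rw [Fin.mk_le_mk, he]
          omega
        exact hσ this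
      have hle' : (v (R k) : ℤ) ≤ v (R (k + 1)) := by exact_mod_cast hle
      change (v (R k) : ℤ) + t * (k / (m : ℤ)) ≤ (v (R (k + 1)) : ℤ) + t * ((k + 1) / (m : ℤ))
      rw [hd]
      linarith
    · have he0 : k % (m : ℤ) + 1 = m := by omega
      have hd : (k + 1) / (m : ℤ) = k / m + 1 := by
        have : k + 1 = 0 + (k / m + 1) * m := by linarith
        rw [this, Int.add_mul_ediv_right _ _ hm0.ne', Int.zero_ediv, zero_add]
      have hlt1 : (v (R k) : ℤ) < t := by exact_mod_cast hv (R k)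
      have hnn : (0 : ℤ) ≤ v (R (k + 1)) := by positivity
      change (v (R k) : ℤ) + t * (k / (m : ℤ)) ≤ (v (R (k + 1)) : ℤ) + t * ((k + 1) / (m : ℤ))
      rw [hd]
      nlinarith
  · intro k
    simp only [p]
    push_cast
    simp [v]
  · intro x i hx
    have hr : ((σ.symm i : Fin m) : ℕ) < m := (σ.symm i).2
    have hdvd : (t : ℤ) ∣ x - v i := by
      rw [← ZMod.intCast_zmod_eq_zero_iff_dvd]
      push_cast
      rw [hx]
      simp [v]
    obtain ⟨z, hz⟩ := hdvd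
    have hmod : (((σ.symm i : Fin m) : ℕ) : ℤ) % (m : ℤ) = ((σ.symm i : Fin m) : ℕ) :=
      Int.emod_eq_of_lt (by positivity) (by exact_mod_cast hr)
    have hdiv : (((σ.symm i : Fin m) : ℕ) : ℤ) / (m : ℤ) = 0 :=
      Int.ediv_eq_zero_of_lt (by positivity) (by exact_mod_cast hr)
    have hR0 : R (((σ.symm i : Fin m) : ℕ) : ℤ) = i := by
      have : (⟨((((σ.symm i : Fin m) : ℕ) : ℤ) % (m : ℤ)).toNat,
          hlt (((σ.symm i : Fin m) : ℕ) : ℤ)⟩ : Fin m) = σ.symm i := by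
        apply Fin.ext
        change ((((σ.symm i : Fin m) : ℕ) : ℤ) % (m : ℤ)).toNat = _
        rw [hmod]
        simp
      change σ _ = i
      rw [this]
      simp
    refine ⟨(((σ.symm i : Fin m) : ℕ) : ℤ) + z * m, ?_, ?_⟩
    · rw [hRz, hR0]
    · rw [hpz]
      change (v (R (((σ.symm i : Fin m) : ℕ) : ℤ)) : ℤ)
        + t * ((((σ.symm i : Fin m) : ℕ) : ℤ) / (m : ℤ)) + z * t = x
      rw [hR0, hdiv]
      linarith
  · intro k k' h
    have h1 : (⟨(k % (m : ℤ)).toNat, hlt k⟩ : Fin m) = ⟨(k' % (m : ℤ)).toNat, hlt k'⟩ :=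
      σ.injective h
    have h2 : (k % (m : ℤ)).toNat = (k' % (m : ℤ)).toNat := by simpa using h1
    have h3 : k % (m : ℤ) = k' % (m : ℤ) := by
      have e1 := Int.emod_nonneg k hm0.ne'
      have e2 := Int.emod_nonneg k' hm0.ne'
      omega
    have h4 : (m : ℤ) ∣ k' - k := Int.ModEq.dvd h3
    obtain ⟨z, hz⟩ := h4
    exact ⟨z, by linarith⟩

theorem kmn_small {t z : ℤ} (ht : 0 < t) (h1 : -t < t * z) (h2 : t * z < t) : z = 0 := by
  have h3 : -1 < z := by
    by_contra h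
    have : z ≤ -1 := by omega
    nlinarith
  have h4 : z < 1 := by
    by_contra h
    have : 1 ≤ z := by omega
    nlinarith
  omega

theorem kmn_lift (m n t : ℕ) (hm : 1 ≤ m) (hn : 1 ≤ n) (ht : m + n + 1 ≤ t)
    (χ : Fin m → Fin n → ZMod t) (a : Fin m → ZMod t) (b : Fin n → ZMod t)
    (hrow : ∀ i j j', χ i j = χ i j' → j = j') (hcol : ∀ i i' j, χ i j = χ i' j → i = i')
    (harow : ∀ i j, ∃ e : ℕ, e < n ∧ χ i j = a i + (e : ZMod t))
    (hacol : ∀ i j, ∃ e : ℕ, e < m ∧ χ i j = b j + (e : ZMod t))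
    (hsurj : ∀ c, ∃ i j, χ i j = c) :
    ∃ (p q : ℤ → ℤ) (c : ℤ → ℤ → ℤ), Monotone p ∧ Monotone q ∧
      (∀ k, p (k + m) = p k + t) ∧ (∀ l, q (l + n) = q l + t) ∧
      (∀ k l, ∃ z : ℤ, -(m - 1 : ℤ) ≤ q (l + z * n) - p k ∧ q (l + z * n) - p k ≤ n - 1) ∧
      (∀ k l, -(m - 1 : ℤ) ≤ q l - p k → q l - p k ≤ n - 1 →
        p k ≤ c k l ∧ q l ≤ c k l ∧ c k l ≤ p k + n - 1 ∧ c k l ≤ q l + m - 1) ∧
      (∀ k l l', -(m - 1 : ℤ) ≤ q l - p k → q l - p k ≤ n - 1 → -(m - 1 : ℤ) ≤ q l' - p k →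
        q l' - p k ≤ n - 1 → c k l = c k l' → l = l') ∧
      (∀ k k' l, -(m - 1 : ℤ) ≤ q l - p k → q l - p k ≤ n - 1 → -(m - 1 : ℤ) ≤ q l - p k' →
        q l - p k' ≤ n - 1 → c k l = c k' l → k = k') ∧
      (∀ x : ℤ, ∃ k l, -(m - 1 : ℤ) ≤ q l - p k ∧ q l - p k ≤ n - 1 ∧ c k l = x) := by
  have : NeZero t := ⟨by omega⟩
  have htI : (m : ℤ) + n + 1 ≤ t := by exact_mod_cast ht
  have ht0 : (0 : ℤ) < t := by omega
  obtain ⟨R, p, hp, hpz, hRz, hpa, hpx, hpR⟩ := kmn_sorted m t hm a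
  obtain ⟨S, q, hq, hqz, hSz, hqb, hqx, hqS⟩ := kmn_sorted n t hn b
  choose er hern her using harow
  choose ec hecm hec using hacol
  let c : ℤ → ℤ → ℤ := fun k l => p k + (er (R k) (S l) : ℤ)
  have hcast : ∀ k l, ((c k l : ℤ) : ZMod t) = χ (R k) (S l) := by
    intro k l
    simp only [c]
    push_cast
    rw [hpa, her (R k) (S l)]
  have hz0 : ∀ k l, ∃ z : ℤ, p k + (er (R k) (S l) : ℤ) - (q l + (ec (R k) (S l) : ℤ)) = t * z := by
    intro k l
    have : ((p k + (er (R k) (S l) : ℤ) - (q l + (ec (R k) (S l) : ℤ)) : ℤ) : ZMod t) = 0 := by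
      push_cast
      rw [hpa, hqb, ← her (R k) (S l), ← hec (R k) (S l), sub_self]
    rw [ZMod.intCast_zmod_eq_zero_iff_dvd] at this
    exact this
  have hernI : ∀ i j, (er i j : ℤ) ≤ n - 1 := fun i j => by have := hern i j; omega
  have hecmI : ∀ i j, (ec i j : ℤ) ≤ m - 1 := fun i j => by have := hecm i j; omega
  have hthird : ∀ k l, ∃ z : ℤ, -(m - 1 : ℤ) ≤ q (l + z * n) - p k ∧
      q (l + z * n) - p k ≤ n - 1 := by
    intro k l
    obtain ⟨z, hz⟩ := hz0 k l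
    refine ⟨z, ?_, ?_⟩
    · rw [hqz]
      have h1 := hecmI (R k) (S l)
      have h2 : (0 : ℤ) ≤ er (R k) (S l) := by positivity
      nlinarith
    · rw [hqz]
      have h1 := hernI (R k) (S l)
      have h2 : (0 : ℤ) ≤ ec (R k) (S l) := by positivity
      nlinarith
  have hnear : ∀ k l, -(m - 1 : ℤ) ≤ q l - p k → q l - p k ≤ n - 1 →
      c k l = q l + (ec (R k) (S l) : ℤ) := by
    intro k l h1 h2
    obtain ⟨z, hz⟩ := hz0 k l
    have h3 := hernI (R k) (S l)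
    have h4 := hecmI (R k) (S l)
    have h5 : (0 : ℤ) ≤ er (R k) (S l) := by positivity
    have h6 : (0 : ℤ) ≤ ec (R k) (S l) := by positivity
    have hz' : z = 0 := kmn_small ht0 (by rw [← hz]; omega) (by rw [← hz]; omega)
    rw [hz', mul_zero] at hz
    change p k + (er (R k) (S l) : ℤ) = _
    linarith
  refine ⟨p, q, c, hp, hq, ?_, ?_, hthird, ?_, ?_, ?_, ?_⟩
  · intro k
    have := hpz k 1
    simpa using this
  · intro l
    have := hqz l 1
    simpa using this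
  · intro k l h1 h2
    have h3 := hernI (R k) (S l)
    have h4 := hecmI (R k) (S l)
    have h5 : (0 : ℤ) ≤ er (R k) (S l) := by positivity
    have h6 : (0 : ℤ) ≤ ec (R k) (S l) := by positivity
    have h7 := hnear k l h1 h2
    have h8 : c k l = p k + (er (R k) (S l) : ℤ) := rfl
    refine ⟨by omega, by omega, by omega, by omega⟩
  · intro k l l' h1 h2 h3 h4 hc
    have hχ : χ (R k) (S l) = χ (R k) (S l') := by
      rw [← hcast, ← hcast, hc]
    obtain ⟨z, hz⟩ := hqS l l' (hrow _ _ _ hχ)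
    have hqq : q l' = q l + z * t := by rw [hz, hqz]
    have hz' : z = 0 := kmn_small ht0 (by nlinarith) (by nlinarith)
    rw [hz, hz']
    ring
  · intro k k' l h1 h2 h3 h4 hc
    have hχ : χ (R k) (S l) = χ (R k') (S l) := by
      rw [← hcast, ← hcast, hc]
    obtain ⟨z, hz⟩ := hpR k k' (hcol _ _ _ hχ)
    have hpp : p k' = p k + z * t := by rw [hz, hpz]
    have hz' : z = 0 := kmn_small ht0 (by nlinarith) (by nlinarith)
    rw [hz, hz']
    ring
  · intro x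
    obtain ⟨i, j, hij⟩ := hsurj (x : ZMod t)
    have hxa : ((x - er i j : ℤ) : ZMod t) = a i := by
      push_cast
      rw [← hij, her i j]
      ring
    obtain ⟨k, hk, hkx⟩ := hpx _ i hxa
    have hbj : (((b j).val : ℤ) : ZMod t) = b j := by
      simp
    obtain ⟨l₀, hl₀, -⟩ := hqx _ j hbj
    obtain ⟨z, hz1, hz2⟩ := hthird k l₀
    refine ⟨k, l₀ + z * n, hz1, hz2, ?_⟩
    change p k + (er (R k) (S (l₀ + z * n)) : ℤ) = x
    rw [hSz, hk, hl₀, hkx]
    ring
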