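import Mathlib

/-!
# No interval cyclic colouring of `K_{m,n}` with more than `m + n` colours
-/

theorem kmn_no_shift (n t : ℤ) (q : ℤ → ℤ) (hqp : ∀ l, q (l + n) = q l + t) (l j : ℤ) :
    q (l + j * n) = q l + j * t := by
  induction j using Int.induction_on with
  | zero => simp
  | succ j ih =>
    have h := hqp (l + j * n)
    have e : l + ((j : ℤ) + 1) * n = l + j * n + n := by ring
    rw [e, h, ih]; ring
  | pred j ih =>
    have h := hqp (l + (-(j : ℤ) - 1) * n)
    have e : l + (-(j : ℤ) - 1) * n + n = l + -(j : ℤ) * n := by ring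
    rw [e, ih] at h
    linarith

theorem kmn_no_great (n t : ℤ) (hn : 1 ≤ n) (ht : 1 ≤ t) (q : ℤ → ℤ) (hq : Monotone q)
    (hqp : ∀ l, q (l + n) = q l + t) (x : ℤ) : ∃ r : ℤ, ∀ l, q l ≤ x ↔ l ≤ r := by
  classical
  have hs := kmn_no_shift n t q hqp
  have hb : ∃ b : ℤ, ∀ z : ℤ, q z ≤ x → z ≤ b := by
    refine ⟨(|x| + |q 0| + 1) * n, fun z hz => ?_⟩
    by_contra hc
    push Not at hc
    have h1 := hq hc.le
    have h2 := hs 0 (|x| + |q 0| + 1)
    rw [zero_add] at h2
    have h3 : |x| + |q 0| + 1 ≤ (|x| + |q 0| + 1) * t := by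
      have : 0 ≤ |x| + |q 0| + 1 := by positivity
      nlinarith
    have h4 := le_abs_self x
    have h5 := neg_abs_le (q 0)
    linarith
  have hi : ∃ z : ℤ, q z ≤ x := by
    refine ⟨(-(|x| + |q 0| + 1)) * n, ?_⟩
    have h2 := hs 0 (-(|x| + |q 0| + 1))
    rw [zero_add] at h2
    have h3 : |x| + |q 0| + 1 ≤ (|x| + |q 0| + 1) * t := by
      have : 0 ≤ |x| + |q 0| + 1 := by positivity
      nlinarith
    have h4 := neg_abs_le x
    have h5 := le_abs_self (q 0)
    rw [h2]
    linarith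
  obtain ⟨r, h1, h2⟩ := Int.exists_greatest_of_bdd hb hi
  exact ⟨r, fun l => ⟨fun h => h2 l h, fun h => (hq h).trans h1⟩⟩

theorem kmn_no_count (a b a' b' : ℤ) (f : ℤ → ℤ) (hab : a ≤ b + 1)
    (hf : ∀ k, a ≤ k → k ≤ b → a' ≤ f k ∧ f k ≤ b') (hne : a ≤ b)
    (hinj : ∀ k k', a ≤ k → k ≤ b → a ≤ k' → k' ≤ b → f k = f k' → k = k') :
    b + 1 - a ≤ b' + 1 - a' := by
  have h1 : (Finset.Icc a b).card ≤ (Finset.Icc a' b').card := by
    apply Finset.card_le_card_of_injOn f
    · intro k hk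
      simp only [Finset.coe_Icc, Set.mem_Icc] at hk ⊢
      exact hf k hk.1 hk.2
    · intro k hk k' hk' h
      simp only [Finset.coe_Icc, Set.mem_Icc] at hk hk'
      exact hinj k k' hk.1 hk.2 hk'.1 hk'.2 h
  rw [Int.card_Icc, Int.card_Icc] at h1
  have h2 := hf a le_rfl hne
  omega

theorem kmn_no (m n t : ℕ) (hm : 1 ≤ m) (hn : 1 ≤ n) (ht : m + n + 1 ≤ t)
    (p q : ℤ → ℤ) (c : ℤ → ℤ → ℤ) (hp : Monotone p) (hq : Monotone q)
    (hpp : ∀ k, p (k + m) = p k + t) (hqp : ∀ l, q (l + n) = q l + t)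
    (hex : ∀ k l, ∃ z : ℤ, -(m - 1 : ℤ) ≤ q (l + z * n) - p k ∧ q (l + z * n) - p k ≤ n - 1)
    (hrange : ∀ k l, -(m - 1 : ℤ) ≤ q l - p k → q l - p k ≤ n - 1 →
        p k ≤ c k l ∧ q l ≤ c k l ∧ c k l ≤ p k + n - 1 ∧ c k l ≤ q l + m - 1)
    (hinjl : ∀ k l l', -(m - 1 : ℤ) ≤ q l - p k → q l - p k ≤ n - 1 → -(m - 1 : ℤ) ≤ q l' - p k →
        q l' - p k ≤ n - 1 → c k l = c k l' → l = l')
    (hinjk : ∀ k k' l, -(m - 1 : ℤ) ≤ q l - p k → q l - p k ≤ n - 1 → -(m - 1 : ℤ) ≤ q l - p k' →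
        q l - p k' ≤ n - 1 → c k l = c k' l → k = k')
    (hcov : ∀ x : ℤ, ∃ k l, -(m - 1 : ℤ) ≤ q l - p k ∧ q l - p k ≤ n - 1 ∧ c k l = x) :
    False := by
  have hmZ : (1 : ℤ) ≤ m := by exact_mod_cast hm
  have hnZ : (1 : ℤ) ≤ n := by exact_mod_cast hn
  have htZ : (m : ℤ) + n + 1 ≤ t := by exact_mod_cast ht
  have ht1 : (1 : ℤ) ≤ t := by linarith
  have hsq := kmn_no_shift n t q hqp
  have hsp := kmn_no_shift m t p hpp
  have hr0 : ∀ k, ∃ r : ℤ, ∀ l, q l ≤ p k + n - 1 ↔ l ≤ r := fun k =>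
    kmn_no_great n t hnZ ht1 q hq hqp _
  have hs0 : ∀ l, ∃ r : ℤ, ∀ k, p k ≤ q l + m - 1 ↔ k ≤ r := fun l =>
    kmn_no_great m t hmZ ht1 p hp hpp _
  choose r hr using hr0
  choose s hs using hs0
  have hexR : ∀ k l, ∃ z : ℤ, -(m - 1 : ℤ) ≤ q l + z * t - p k ∧ q l + z * t - p k ≤ n - 1 := by
    intro k l
    obtain ⟨z, h1, h2⟩ := hex k l
    rw [hsq] at h1 h2
    exact ⟨z, h1, h2⟩
  have n1 : ∀ k l, r k - n + 1 ≤ l → l ≤ r k →
      -(m - 1 : ℤ) ≤ q l - p k ∧ q l - p k ≤ n - 1 := by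
    intro k l h1 h2
    have h3 := (hr k l).2 h2
    refine ⟨?_, by linarith⟩
    by_contra hc
    push Not at hc
    obtain ⟨z, h4, h5⟩ := hexR k l
    have hz : 1 ≤ z := by
      by_contra hz
      push Not at hz
      have : z ≤ 0 := by omega
      have : z * t ≤ 0 := by nlinarith
      linarith
    have h6 : q (l + z * n) ≤ p k + n - 1 := by rw [hsq]; linarith
    have h7 := (hr k _).1 h6
    nlinarith
  have n2 : ∀ k l, s l - m + 1 ≤ k → k ≤ s l →
      -(m - 1 : ℤ) ≤ q l - p k ∧ q l - p k ≤ n - 1 := by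
    intro k l h1 h2
    have h3 := (hs l k).2 h2
    refine ⟨by linarith, ?_⟩
    by_contra hc
    push Not at hc
    obtain ⟨z, h4, h5⟩ := hexR k l
    have hz : z ≤ -1 := by
      by_contra hz
      push Not at hz
      have : 0 ≤ z := by omega
      have : 0 ≤ z * t := by positivity
      linarith
    have h6 : p (k + (-z) * m) ≤ q l + m - 1 := by rw [hsp]; linarith
    have h7 := (hs l _).1 h6
    nlinarith
  have m1 : ∀ k l, -(m - 1 : ℤ) ≤ q l - p k → q l - p k ≤ n - 1 → r k - n + 1 ≤ l ∧ l ≤ r k := by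
    intro k l h1 h2
    refine ⟨?_, (hr k l).1 (by linarith)⟩
    by_contra hc
    push Not at hc
    have h3 : l + n ≤ r k := by linarith
    have h4 := (hr k _).2 h3
    rw [hqp] at h4
    linarith
  have m2 : ∀ k l, -(m - 1 : ℤ) ≤ q l - p k → q l - p k ≤ n - 1 → s l - m + 1 ≤ k ∧ k ≤ s l := by
    intro k l h1 h2
    refine ⟨?_, (hs l k).1 (by linarith)⟩
    by_contra hc
    push Not at hc
    have h3 : k + m ≤ s l := by linarith
    have h4 := (hs l _).2 h3
    rw [hpp] at h4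
    linarith
  have hA : ∀ k, k - s (r k) + m ≤ p k + n - q (r k) := by
    intro k
    have h0 := n1 k (r k) (by linarith) le_rfl
    have h1 := m2 k (r k) h0.1 h0.2
    have key := kmn_no_count (s (r k) - m + 1) k (q (r k)) (p k + n - 1) (fun k' => c k' (r k))
      (by linarith [h1.1]) (fun k' h2 h3 => by
        have h4 := n2 k' (r k) h2 (h3.trans h1.2)
        have h5 := hrange k' (r k) h4.1 h4.2
        have h6 := hp h3
        exact ⟨h5.2.1, by linarith [h5.2.2.1]⟩) h1.1 (fun k' k'' h2 h3 h4 h5 h6 => by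
        have a1 := n2 k' (r k) h2 (h3.trans h1.2)
        have a2 := n2 k'' (r k) h4 (h5.trans h1.2)
        exact hinjk k' k'' (r k) a1.1 a1.2 a2.1 a2.2 h6)
    linarith
  have hB : ∀ l, l - r (s l) + n ≤ q l + m - p (s l) := by
    intro l
    have h0 := n2 (s l) l (by linarith) le_rfl
    have h1 := m1 (s l) l h0.1 h0.2
    have key := kmn_no_count (r (s l) - n + 1) l (p (s l)) (q l + m - 1) (fun l' => c (s l) l')
      (by linarith [h1.1]) (fun l' h2 h3 => by
        have h4 := n1 (s l) l' h2 (h3.trans h1.2)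
        have h5 := hrange (s l) l' h4.1 h4.2
        have h6 := hq h3
        exact ⟨h5.1, by linarith [h5.2.2.2]⟩) h1.1 (fun l' l'' h2 h3 h4 h5 h6 => by
        have a1 := n1 (s l) l' h2 (h3.trans h1.2)
        have a2 := n1 (s l) l'' h4 (h5.trans h1.2)
        exact hinjl (s l) l' l'' a1.1 a1.2 a2.1 a2.2 h6)
    linarith
  have h3a : ∀ k, p k + n + 1 ≤ q (r k) + m := by
    intro k
    obtain ⟨k1, l1, a1, a2, a3⟩ := hcov (p k + n)
    have a4 := hrange k1 l1 a1 a2
    obtain ⟨z, h4, h5⟩ := hexR k l1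
    have hz1 : z < 1 := by
      by_contra hz
      push Not at hz
      have : (t : ℤ) ≤ z * t := by nlinarith
      linarith [a4.2.1, a4.2.2.2]
    have hz2 : -1 < z := by
      by_contra hz
      push Not at hz
      have : z * t ≤ -t := by nlinarith
      linarith [a4.2.1, a4.2.2.2]
    have hz : z = 0 := by omega
    subst hz
    have h6 := (hr k l1).1 (by linarith)
    have h7 := hq h6
    linarith [a4.2.2.2]
  have h3b : ∀ l, q l + m + 1 ≤ p (s l) + n := by
    intro l
    obtain ⟨k1, l1, a1, a2, a3⟩ := hcov (q l + m)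
    have a4 := hrange k1 l1 a1 a2
    obtain ⟨z, h4, h5⟩ := hexR k1 l
    have hz1 : z < 1 := by
      by_contra hz
      push Not at hz
      have : (t : ℤ) ≤ z * t := by nlinarith
      linarith [a4.1, a4.2.2.1]
    have hz2 : -1 < z := by
      by_contra hz
      push Not at hz
      have : z * t ≤ -t := by nlinarith
      linarith [a4.1, a4.2.2.1]
    have hz : z = 0 := by omega
    subst hz
    have h6 := (hs l k1).1 (by linarith)
    have h7 := hp h6
    linarith [a4.2.2.1]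
  have h3 : ∀ k, p k + 2 ≤ p (s (r k)) := fun k => by linarith [h3a k, h3b (r k)]
  have hrm : Monotone r := by
    intro k k' h
    apply (hr k' _).1
    have := (hr k (r k)).2 le_rfl
    linarith [hp h]
  have hrs : ∀ k, r (k + m) = r k + n := by
    intro k
    apply le_antisymm
    · have h1 := (hr (k + m) (r (k + m))).2 le_rfl
      rw [hpp] at h1
      have h2 := hqp (r (k + m) - n)
      rw [sub_add_cancel] at h2
      have h4 := (hr k (r (k + m) - n)).1 (by linarith)
      linarith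
    · apply (hr (k + m) _).1
      rw [hpp, hqp]
      linarith [(hr k (r k)).2 le_rfl]
  have hrS := kmn_no_shift m n r hrs
  set x : ℕ → ℤ := fun i => (fun k => s (r k))^[i] 0 with hx
  have hx0 : x 0 = 0 := rfl
  have hxs : ∀ i, x (i + 1) = s (r (x i)) := fun i => by
    simp only [hx, Function.iterate_succ_apply']
  have hC : ∀ K : ℕ, p (x K) - p (x 0) ≤ (x K - x 0) + (r (x K) - r (x 0)) := by
    intro K
    induction K with
    | zero => simp
    | succ K ih =>
      have h1 := hA (x K)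
      have h2 := hB (r (x K))
      rw [← hxs] at h1 h2
      linarith
  have hK : ∀ K : ℕ, (K : ℤ) ≤ x K := by
    intro K
    induction K with
    | zero => simp [hx0]
    | succ K ih =>
      have h1 := h3 (x K)
      rw [← hxs] at h1
      have h2 : x K < x (K + 1) := by
        by_contra hc
        push Not at hc
        linarith [hp hc]
      push_cast
      linarith
  have c1 := hC ((m + n + 1) * m)
  have c2 := hK ((m + n + 1) * m)
  rw [hx0] at c1
  set d := x ((m + n + 1) * m) with hd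
  push_cast at c2
  have hmpos : (0 : ℤ) < m := by linarith
  have c3 := Int.emod_add_mul_ediv d m
  have c4 := Int.emod_nonneg d hmpos.ne'
  have c5 := Int.emod_lt_of_pos d hmpos
  set A := d / (m : ℤ) with hAd
  have c6 : A * m ≤ d := by linarith
  have c7 : d ≤ (A + 1) * m := by linarith
  have c8 := hp c6
  have c9 := hsp 0 A
  rw [zero_add] at c9
  have c10 := hrm c7
  have c11 := hrS 0 (A + 1)
  rw [zero_add] at c11
  have c12 : A * t ≤ (A + 1) * (m + n) := by
    rw [c9] at c8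
    rw [c11] at c10
    nlinarith
  have hd0 : 0 ≤ d := le_trans (by positivity) c2
  have hA0 : 0 ≤ A := Int.ediv_nonneg hd0 hmpos.le
  have c13 : A ≤ m + n := by nlinarith
  have c14 : d < (A + 1) * m := by linarith
  nlinarith
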