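import Mathlib

/-!
# Interval cyclic edge-colourings in residue form

Working definitions: the colours are residues modulo `t`, `s v` (`a i`, `b j`) is the first colour of the
arc of colours at the vertex.
-/

namespace ICC670

/-- the complete graph on `Fin N` has an interval cyclic `t`-colouring -/
def KFeas (N t : ℕ) : Prop := ∃ (χ : Fin N → Fin N → ZMod t) (s : Fin N → ZMod t),
  (∀ u v, u ≠ v → χ u v = χ v u) ∧
  (∀ v u w, v ≠ u → v ≠ w → χ v u = χ v w → u = w) ∧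
  (∀ v u, v ≠ u → ∃ i : ℕ, i < N - 1 ∧ χ v u = s v + (i : ZMod t)) ∧
  (∀ c : ZMod t, ∃ u v, u ≠ v ∧ χ u v = c)

/-- the complete bipartite graph `K_{m,n}` has an interval cyclic `t`-colouring -/
def BFeas (m n t : ℕ) : Prop := ∃ (χ : Fin m → Fin n → ZMod t) (a : Fin m → ZMod t)
    (b : Fin n → ZMod t),
  (∀ i j j', χ i j = χ i j' → j = j') ∧ (∀ i i' j, χ i j = χ i' j → i = i') ∧
  (∀ i j, ∃ e : ℕ, e < n ∧ χ i j = a i + (e : ZMod t)) ∧
  (∀ i j, ∃ e : ℕ, e < m ∧ χ i j = b j + (e : ZMod t)) ∧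
  (∀ c, ∃ i j, χ i j = c)

/-- the cube `Q_n` has an interval cyclic `t`-colouring; `χ v k` is the colour of the edge at `v` in
direction `k` -/
def QFeas (n t : ℕ) : Prop := ∃ (χ : (Fin n → Bool) → Fin n → ZMod t) (s : (Fin n → Bool) → ZMod t),
  (∀ v k, χ (Function.update v k (!v k)) k = χ v k) ∧
  (∀ v k l, χ v k = χ v l → k = l) ∧
  (∀ v k, ∃ e : ℕ, e < n ∧ χ v k = s v + (e : ZMod t)) ∧
  (∀ c : ZMod t, ∃ v k, χ v k = c)

end ICC670
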