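import Mathlib
import Pool.Agent.H670.Icc.Defs

/-!
# Interval cyclic colourings of `K_{m,n}` with `max(m,n), ..., m + n - 1` colours
-/

namespace ICC670

theorem bfeas_con (m n t : ℕ) (hm : 1 ≤ m) (hn : 1 ≤ n) (h1 : m ≤ t) (h2 : n ≤ t)
    (h3 : t + 1 ≤ m + n) : BFeas m n t := by
  haveI : NeZero t := ⟨by omega⟩
  refine ⟨fun i j => ((i : ℕ) + (j : ℕ) : ℕ), fun i => ((i : ℕ) : ZMod t), fun j => ((j : ℕ) : ZMod t),
    ?_, ?_, ?_, ?_, ?_⟩
  · intro i j j' h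
    rw [ZMod.natCast_eq_natCast_iff'] at h
    have h' : (j : ℕ) % t = (j' : ℕ) % t := by
      have : ((i : ℕ) + j) ≡ (i : ℕ) + j' [MOD t] := h
      exact Nat.ModEq.add_left_cancel' _ this
    rw [Nat.mod_eq_of_lt (lt_of_lt_of_le j.2 h2), Nat.mod_eq_of_lt (lt_of_lt_of_le j'.2 h2)] at h'
    exact Fin.ext h'
  · intro i i' j h
    rw [ZMod.natCast_eq_natCast_iff'] at h
    have h' : (i : ℕ) % t = (i' : ℕ) % t := by
      have : (i : ℕ) + j ≡ (i' : ℕ) + j [MOD t] := h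
      exact Nat.ModEq.add_right_cancel' _ this
    rw [Nat.mod_eq_of_lt (lt_of_lt_of_le i.2 h1), Nat.mod_eq_of_lt (lt_of_lt_of_le i'.2 h1)] at h'
    exact Fin.ext h'
  · intro i j
    exact ⟨j, j.2, by push_cast; ring⟩
  · intro i j
    exact ⟨i, i.2, by push_cast; ring⟩
  · intro c
    have hc : c.val < t := ZMod.val_lt c
    have hcc : ((c.val : ℕ) : ZMod t) = c := ZMod.natCast_zmod_val c
    by_cases h : c.val < m
    · refine ⟨⟨c.val, h⟩, ⟨0, by omega⟩, ?_⟩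
      simp [hcc]
    · refine ⟨⟨m - 1, by omega⟩, ⟨c.val - (m - 1), by omega⟩, ?_⟩
      show (((m - 1) + (c.val - (m - 1)) : ℕ) : ZMod t) = c
      rw [show (m - 1) + (c.val - (m - 1)) = c.val by omega, hcc]

theorem bfeas_lower (m n t : ℕ) (hm : 1 ≤ m) (hn : 1 ≤ n) (ht : 1 ≤ t) (h : BFeas m n t) :
    m ≤ t ∧ n ≤ t := by
  haveI : NeZero t := ⟨by omega⟩
  obtain ⟨χ, a, b, h1, h2, h3, h4, h5⟩ := h
  constructor
  · have := Fintype.card_le_of_injective (fun i : Fin m => χ i ⟨0, by omega⟩)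
      (fun i i' hi => h2 i i' _ hi)
    simpa [ZMod.card] using this
  · have := Fintype.card_le_of_injective (fun j : Fin n => χ ⟨0, by omega⟩ j)
      (fun j j' hj => h1 _ j j' hj)
    simpa [ZMod.card] using this

/-- the bound `t ≤ m + n` suffices for gap-freeness -/
theorem bfeas_gap (hup : ∀ m n t : ℕ, 1 ≤ m → 1 ≤ n → BFeas m n t → t ≤ m + n) (m n a b c : ℕ)
    (hm : 1 ≤ m) (hn : 1 ≤ n) (hab : a < b) (hbc : b < c) (ha1 : 1 ≤ a) (ha : BFeas m n a)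
    (hc : BFeas m n c) : BFeas m n b := by
  obtain ⟨h1, h2⟩ := bfeas_lower m n a hm hn ha1 ha
  have h3 := hup m n c hm hn hc
  exact bfeas_con m n b hm hn (by omega) (by omega) (by omega)

end ICC670
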