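import Mathlib

/-!
# Selection by the theorem of Hall
-/

theorem select {C ι : Type} [Fintype C] [DecidableEq C] [Fintype ι] [DecidableEq ι] [Nonempty ι]
    (A : Finset C) (m : C → ι → ℕ) (h : ι → ℕ) (s : ℕ) (hs : 0 < s)
    (hrow : ∀ c ∈ A, ∑ j, m c j = s) (hcol : ∀ j, ∑ c ∈ A, m c j = s * h j) :
    ∃ f : C → ι, (∀ c ∈ A, 1 ≤ m c (f c)) ∧ ∀ j, (A.filter (fun c => f c = j)).card = h j := by
  classical
  let T := Σ j : ι, Fin (h j)
  let N : {c // c ∈ A} → Finset T := fun c => Finset.univ.filter (fun x => 1 ≤ m c.1 x.1)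
  -- cardinality of the set of slots over J
  have hcardJ : ∀ J : Finset ι, (Finset.univ.filter (fun x : T => x.1 ∈ J)).card = ∑ j ∈ J, h j := by
    intro J
    have h1 : (Finset.univ.filter (fun x : T => x.1 ∈ J)) = J.sigma (fun j => (Finset.univ : Finset (Fin (h j)))) := by
      ext ⟨j, x⟩
      rw [Finset.mem_sigma]
      simp
    rw [h1]
    refine (Finset.card_sigma _ _).trans ?_
    simp
  have hall : ∀ B : Finset {c // c ∈ A}, B.card ≤ (B.biUnion N).card := by
    intro B
    let J : Finset ι := Finset.univ.filter (fun j => ∃ c ∈ B, 1 ≤ m c.1 j)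
    have h1 : B.biUnion N = Finset.univ.filter (fun x : T => x.1 ∈ J) := by
      ext ⟨j, x⟩
      simp only [N, J, Finset.mem_biUnion, Finset.mem_filter, Finset.mem_univ, true_and]
    rw [h1, hcardJ]
    have h2 : s * B.card ≤ s * ∑ j ∈ J, h j := by
      calc s * B.card = ∑ c ∈ B, ∑ j, m c.1 j := by
            rw [Finset.sum_congr rfl (fun c _ => hrow c.1 c.2), Finset.sum_const, smul_eq_mul, mul_comm]
        _ = ∑ c ∈ B, ∑ j ∈ J, m c.1 j := by
            refine Finset.sum_congr rfl (fun c hc => ?_)
            refine (Finset.sum_subset (Finset.subset_univ J) ?_).symm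
            intro j _ hj
            by_contra h0
            apply hj
            simp only [J, Finset.mem_filter, Finset.mem_univ, true_and]
            exact ⟨c, hc, Nat.one_le_iff_ne_zero.2 h0⟩
        _ = ∑ j ∈ J, ∑ c ∈ B, m c.1 j := Finset.sum_comm
        _ ≤ ∑ j ∈ J, ∑ c ∈ A, m c j := by
            refine Finset.sum_le_sum (fun j _ => ?_)
            calc ∑ c ∈ B, m c.1 j ≤ ∑ c : {c // c ∈ A}, m c.1 j :=
                  Finset.sum_le_sum_of_subset (Finset.subset_univ B)
              _ = ∑ c ∈ A, m c j := Finset.sum_coe_sort A (fun c => m c j)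
        _ = ∑ j ∈ J, s * h j := Finset.sum_congr rfl (fun j _ => hcol j)
        _ = s * ∑ j ∈ J, h j := by rw [Finset.mul_sum]
    exact Nat.le_of_mul_le_mul_left h2 hs
  obtain ⟨F, hF, hFN⟩ := (Finset.all_card_le_biUnion_card_iff_exists_injective N).1 hall
  have hcardA : A.card = ∑ j, h j := by
    have h1 : s * A.card = s * ∑ j, h j := by
      calc s * A.card = ∑ c ∈ A, ∑ j, m c j := by
            rw [Finset.sum_congr rfl (fun c hc => hrow c hc), Finset.sum_const, smul_eq_mul, mul_comm]
        _ = ∑ j, ∑ c ∈ A, m c j := Finset.sum_comm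
        _ = ∑ j, s * h j := Finset.sum_congr rfl (fun j _ => hcol j)
        _ = s * ∑ j, h j := by rw [Finset.mul_sum]
    exact Nat.eq_of_mul_eq_mul_left hs h1
  have hbij : Function.Bijective F := by
    rw [Fintype.bijective_iff_injective_and_card]
    refine ⟨hF, ?_⟩
    simp only [T, Fintype.card_coe, Fintype.card_sigma, Fintype.card_fin]
    exact hcardA
  refine ⟨fun c => if hc : c ∈ A then (F ⟨c, hc⟩).1 else Classical.arbitrary ι, ?_, ?_⟩
  · intro c hc
    simp only [dif_pos hc]
    have := hFN ⟨c, hc⟩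
    simpa [N] using this
  · intro j
    have h1 : (Finset.univ.filter (fun x : T => x.1 = j)).card = h j := by
      have := hcardJ {j}
      simpa using this
    rw [← h1]
    refine Finset.card_bij (fun c hc => F ⟨c, (Finset.mem_filter.1 hc).1⟩) ?_ ?_ ?_
    · intro c hc
      obtain ⟨hcA, hcj⟩ := Finset.mem_filter.1 hc
      simp only [dif_pos hcA] at hcj
      simp only [Finset.mem_filter, Finset.mem_univ, true_and]
      exact hcj
    · intro c hc c' hc' hcc
      have := hF hcc
      exact congrArg Subtype.val this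
    · intro x hx
      obtain ⟨c, hc⟩ := hbij.2 x
      refine ⟨c.1, ?_, ?_⟩
      · rw [Finset.mem_filter]
        refine ⟨c.2, ?_⟩
        simp only [dif_pos c.2]
        rw [show (⟨c.1, c.2⟩ : {c // c ∈ A}) = c from rfl, hc]
        exact (Finset.mem_filter.1 hx).2
      · exact hc
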