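import Mathlib
import Pool.Agent.H670.Icc.D1

/-!
# Detachments of outline colourings of complete graphs
-/

namespace ICC670

/-- outline colouring data, see above -/
structure Outline {ι C : Type} [Fintype ι] [Fintype C] (g : ι → ℕ) (act : C → ι → Prop)
    (M : C → ι → ι → ℕ) : Prop where
  pos : ∀ i, 1 ≤ g i
  symm : ∀ c i j, M c i j = M c j i
  even : ∀ c i, Even (M c i i)
  row : ∀ c i, act c i → ∑ j, M c i j = g i
  row0 : ∀ c i, ¬ act c i → ∑ j, M c i j = 0
  tot : ∀ i j, i ≠ j → ∑ c, M c i j = g i * g j
  totd : ∀ i, ∑ c, M c i i = g i * (g i - 1)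

open Classical in
/-- the number which is subtracted from an entry in the splitting step -/
noncomputable def dd {ι C : Type} [DecidableEq ι] (act : C → ι → Prop) (i0 : ι) (f : C → ι) (c : C) (i j : ι) : ℕ :=
  if act c i0 then (if i = i0 ∧ j = f c then 1 else 0) + (if j = i0 ∧ i = f c then 1 else 0) else 0

/-- the sizes after the splitting step -/
def gg {ι : Type} [DecidableEq ι] (g : ι → ℕ) (i0 : ι) : Option ι → ℕ
  | none => 1
  | some j => if j = i0 then g i0 - 1 else g j

/-- the active colours after the splitting step -/
def aa {ι C : Type} (act : C → ι → Prop) (i0 : ι) (c : C) : Option ι → Prop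
  | none => act c i0
  | some j => act c j

open Classical in
/-- the matrix after the splitting step -/
noncomputable def mm {ι C : Type} [DecidableEq ι] (act : C → ι → Prop) (M : C → ι → ι → ℕ) (i0 : ι) (f : C → ι)
    (c : C) : Option ι → Option ι → ℕ
  | none, none => 0
  | none, some j => if act c i0 ∧ f c = j then 1 else 0
  | some j, none => if act c i0 ∧ f c = j then 1 else 0
  | some i, some j => M c i j - dd act i0 f c i j

section step

set_option linter.unusedSectionVars false

variable {ι C : Type} [Fintype ι] [DecidableEq ι] [Fintype C] [DecidableEq C]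
  {g : ι → ℕ} {act : C → ι → Prop} {M : C → ι → ι → ℕ}

theorem dd_le (hM : Outline g act M) {i0 : ι} {f : C → ι}
    (hf : ∀ c, act c i0 → 1 ≤ M c i0 (f c)) (c : C) (i j : ι) :
    dd act i0 f c i j ≤ M c i j := by
  classical
  unfold dd
  by_cases hc : act c i0
  · rw [if_pos hc]
    have h1 := hf c hc
    by_cases h2 : i = i0 ∧ j = f c
    · by_cases h3 : j = i0 ∧ i = f c
      · rw [if_pos h2, if_pos h3]
        have h4 : i = i0 := h2.1
        have h5 : j = i0 := h3.1
        have h6 : f c = i0 := h2.2 ▸ h5
        rw [h6] at h1
        have h7 := hM.even c i0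
        rw [h4, h5]
        obtain ⟨r, hr⟩ := h7
        omega
      · rw [if_pos h2, if_neg h3, h2.1, h2.2]
        exact h1
    · by_cases h3 : j = i0 ∧ i = f c
      · rw [if_neg h2, if_pos h3, h3.1, h3.2, hM.symm]
        omega
      · rw [if_neg h2, if_neg h3]
        omega
  · rw [if_neg hc]
    exact Nat.zero_le _

theorem dd_symm (i0 : ι) (f : C → ι) (c : C) (i j : ι) :
    dd act i0 f c i j = dd act i0 f c j i := by
  classical
  unfold dd
  by_cases hc : act c i0
  · rw [if_pos hc, if_pos hc, add_comm]
  · rw [if_neg hc, if_neg hc]

theorem dd_row (i0 : ι) (f : C → ι) (c : C) (i : ι) :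
    ∑ j, dd act i0 f c i j =
      (open Classical in if act c i0 then (if i = i0 then 1 else 0) + (if f c = i then 1 else 0)
        else 0) := by
  classical
  unfold dd
  by_cases hc : act c i0
  · simp only [if_pos hc]
    rw [Finset.sum_add_distrib]
    congr 1
    · by_cases hi : i = i0
      · simp [hi]
      · simp [hi]
    · by_cases hi : f c = i
      · simp [hi]
      · have : ∀ j, ¬ (j = i0 ∧ i = f c) := fun j h => hi h.2.symm
        simp [this, hi]
  · simp [if_neg hc]

open Classical in
theorem col_card {i0 : ι} {f : C → ι} {h : ι → ℕ}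
    (hh : ∀ j, ((Finset.univ.filter (fun c => act c i0)).filter (fun c => f c = j)).card = h j)
    (j : ι) : ∑ c, (if act c i0 ∧ f c = j then 1 else 0) = h j := by
  rw [← hh j, Finset.filter_filter, Finset.card_filter]

theorem step (hM : Outline g act M) {i0 : ι} (hs : 2 ≤ g i0) {f : C → ι}
    (hf : ∀ c, act c i0 → 1 ≤ M c i0 (f c))
    (hcard : ∀ j, (open Classical in
      ((Finset.univ.filter (fun c => act c i0)).filter (fun c => f c = j)).card) =
        if j = i0 then g i0 - 1 else g j) :
    Outline (gg g i0) (aa act i0) (mm act M i0 f) := by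
  classical
  have hcol : ∀ j, ∑ c, (if act c i0 ∧ f c = j then 1 else 0) =
      if j = i0 then g i0 - 1 else g j := fun j => by
    rw [← hcard j, Finset.filter_filter, Finset.card_filter]
  have hle := dd_le hM hf
  have hrow0 : ∀ c i, ¬ act c i → ∀ j, M c i j = 0 := fun c i h j => by
    have h1 := hM.row0 c i h
    exact (Finset.sum_eq_zero_iff.1 h1) j (Finset.mem_univ j)
  have hsub : ∀ c i, ∑ j, (M c i j - dd act i0 f c i j) + ∑ j, dd act i0 f c i j =
      ∑ j, M c i j := fun c i => by
    rw [← Finset.sum_add_distrib]
    exact Finset.sum_congr rfl fun j _ => Nat.sub_add_cancel (hle c i j)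
  have hsubc : ∀ i j, ∑ c, (M c i j - dd act i0 f c i j) + ∑ c, dd act i0 f c i j =
      ∑ c, M c i j := fun i j => by
    rw [← Finset.sum_add_distrib]
    exact Finset.sum_congr rfl fun c _ => Nat.sub_add_cancel (hle c i j)
  -- column sums of `dd`
  have hddc : ∀ i j, ∑ c, dd act i0 f c i j =
      (if i = i0 then (if j = i0 then g i0 - 1 else g j) else 0) +
      (if j = i0 then (if i = i0 then g i0 - 1 else g i) else 0) := fun i j => by
    have h1 : ∀ c, dd act i0 f c i j =
        (if i = i0 then (if act c i0 ∧ f c = j then 1 else 0) else 0) +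
        (if j = i0 then (if act c i0 ∧ f c = i then 1 else 0) else 0) := fun c => by
      unfold dd
      by_cases hc : act c i0
      · by_cases hi : i = i0 <;> by_cases hj : j = i0 <;> by_cases h2 : f c = j <;>
          by_cases h3 : f c = i <;> simp_all [eq_comm]
      · simp [hc]
    rw [Finset.sum_congr rfl fun c _ => h1 c, Finset.sum_add_distrib]
    congr 1
    · by_cases hi : i = i0
      · simp only [if_pos hi]
        exact hcol j
      · simp [hi]
    · by_cases hj : j = i0
      · simp only [if_pos hj]
        exact hcol i
      · simp [hj]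
  refine ⟨?_, ?_, ?_, ?_, ?_, ?_, ?_⟩
  · -- pos
    intro i
    cases i with
    | none => exact le_refl 1
    | some j =>
      show 1 ≤ if j = i0 then g i0 - 1 else g j
      by_cases hj : j = i0
      · rw [if_pos hj]; omega
      · rw [if_neg hj]; exact hM.pos j
  · -- symm
    intro c i j
    cases i with
    | none =>
      cases j with
      | none => rfl
      | some j => rfl
    | some i =>
      cases j with
      | none => rfl
      | some j =>
        show M c i j - dd act i0 f c i j = M c j i - dd act i0 f c j i
        rw [hM.symm, dd_symm]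
  · -- even
    intro c i
    cases i with
    | none => exact ⟨0, rfl⟩
    | some i =>
      show Even (M c i i - dd act i0 f c i i)
      have h1 : Even (dd act i0 f c i i) := by
        unfold dd
        by_cases hc : act c i0
        · rw [if_pos hc]
          exact ⟨_, rfl⟩
        · rw [if_neg hc]
          exact ⟨0, rfl⟩
      exact (Nat.even_sub (hle c i i)).2 ⟨fun _ => h1, fun _ => hM.even c i⟩
  · -- row
    intro c i hc
    rw [Fintype.sum_option]
    cases i with
    | none =>
      have hc' : act c i0 := hc
      show 0 + ∑ j, (if act c i0 ∧ f c = j then 1 else 0) = 1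
      simp [hc']
    | some i =>
      have hc' : act c i := hc
      show (if act c i0 ∧ f c = i then 1 else 0) + ∑ j, (M c i j - dd act i0 f c i j) =
        if i = i0 then g i0 - 1 else g i
      have h1 := hsub c i
      rw [dd_row, hM.row c i hc'] at h1
      have hp := hM.pos i
      by_cases hca : act c i0
      · by_cases hi : i = i0
        · by_cases h3 : f c = i
          · rw [if_pos hca, if_pos hi, if_pos h3] at h1
            rw [if_pos ⟨hca, h3⟩, if_pos hi]
            rw [hi] at h1 ⊢
            omega
          · rw [if_pos hca, if_pos hi, if_neg h3] at h1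
            rw [if_neg (fun h => h3 h.2), if_pos hi]
            rw [hi] at h1 ⊢
            omega
        · by_cases h3 : f c = i
          · rw [if_pos hca, if_neg hi, if_pos h3] at h1
            rw [if_pos ⟨hca, h3⟩, if_neg hi]
            omega
          · rw [if_pos hca, if_neg hi, if_neg h3] at h1
            rw [if_neg (fun h => h3 h.2), if_neg hi]
            omega
      · have hi : i ≠ i0 := fun h => hca (h ▸ hc')
        rw [if_neg hca] at h1
        rw [if_neg (fun h => hca h.1), if_neg hi]
        omega
  · -- row0
    intro c i hc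
    rw [Fintype.sum_option]
    cases i with
    | none =>
      have hc' : ¬ act c i0 := hc
      show 0 + ∑ j, (if act c i0 ∧ f c = j then 1 else 0) = 0
      simp [hc']
    | some i =>
      have hc' : ¬ act c i := hc
      show (if act c i0 ∧ f c = i then 1 else 0) + ∑ j, (M c i j - dd act i0 f c i j) = 0
      have h1 : ¬ (act c i0 ∧ f c = i) := by
        rintro ⟨h2, h3⟩
        have h4 := hf c h2
        rw [h3, hM.symm, hrow0 c i hc' i0] at h4
        omega
      rw [if_neg h1, zero_add]
      refine Finset.sum_eq_zero fun j _ => ?_
      rw [hrow0 c i hc' j]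
      exact Nat.zero_sub _
  · -- tot
    intro i j hij
    cases i with
    | none =>
      cases j with
      | none => exact absurd rfl hij
      | some j =>
        show ∑ c, (if act c i0 ∧ f c = j then 1 else 0) = 1 * (if j = i0 then g i0 - 1 else g j)
        rw [hcol j, one_mul]
    | some i =>
      cases j with
      | none =>
        show ∑ c, (if act c i0 ∧ f c = i then 1 else 0) = (if i = i0 then g i0 - 1 else g i) * 1
        rw [hcol i, mul_one]
      | some j =>
        have hne : i ≠ j := fun h => hij (by rw [h])
        show ∑ c, (M c i j - dd act i0 f c i j) =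
          (if i = i0 then g i0 - 1 else g i) * (if j = i0 then g i0 - 1 else g j)
        have h1 := hsubc i j
        rw [hddc, hM.tot i j hne] at h1
        by_cases hi : i = i0
        · have hj : j ≠ i0 := fun h => hne (hi.trans h.symm)
          rw [if_pos hi, if_neg hj, if_neg hj, add_zero] at h1
          rw [if_pos hi, if_neg hj]
          rw [hi] at h1
          rw [hi]
          have h2 : (g i0 - 1) * g j + g j = g i0 * g j := by
            have : g i0 = (g i0 - 1) + 1 := by omega
            conv_rhs => rw [this]
            ring
          omega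
        · by_cases hj : j = i0
          · rw [if_neg hi, if_pos hj, if_neg hi, zero_add] at h1
            rw [if_neg hi, if_pos hj]
            rw [hj] at h1
            rw [hj]
            have h2 : g i * (g i0 - 1) + g i = g i * g i0 := by
              have : g i0 = (g i0 - 1) + 1 := by omega
              conv_rhs => rw [this]
              ring
            omega
          · rw [if_neg hi, if_neg hj, add_zero] at h1
            rw [if_neg hi, if_neg hj]
            omega
  · -- totd
    intro i
    cases i with
    | none =>
      show ∑ _c : C, 0 = 1 * (1 - 1)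
      simp
    | some i =>
      show ∑ c, (M c i i - dd act i0 f c i i) =
        (if i = i0 then g i0 - 1 else g i) * ((if i = i0 then g i0 - 1 else g i) - 1)
      have h1 := hsubc i i
      rw [hddc, hM.totd i] at h1
      by_cases hi : i = i0
      · rw [if_pos hi, if_pos hi] at h1
        rw [if_pos hi]
        rw [hi] at h1
        rw [hi]
        obtain ⟨t, ht⟩ : ∃ t, g i0 = t + 2 := ⟨g i0 - 2, by omega⟩
        rw [ht] at h1 ⊢
        have e1 : t + 2 - 1 = t + 1 := rfl
        rw [e1] at h1 ⊢
        have e2 : t + 1 - 1 = t := rfl
        rw [e2]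
        nlinarith
      · rw [if_neg hi, add_zero, add_zero] at h1
        rw [if_neg hi]
        exact h1

theorem measure_step {i0 : ι} (hs : 2 ≤ g i0) :
    ∑ o, (gg g i0 o - 1) + 1 = ∑ i, (g i - 1) := by
  classical
  rw [Fintype.sum_option]
  show (1 - 1) + ∑ j, ((if j = i0 then g i0 - 1 else g j) - 1) + 1 = _
  rw [← Finset.add_sum_erase Finset.univ _ (Finset.mem_univ i0),
    ← Finset.add_sum_erase Finset.univ (fun i => g i - 1) (Finset.mem_univ i0)]
  rw [if_pos rfl]
  have h1 : ∑ j ∈ Finset.univ.erase i0, ((if j = i0 then g i0 - 1 else g j) - 1) =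
      ∑ j ∈ Finset.univ.erase i0, (g j - 1) :=
    Finset.sum_congr rfl fun j hj => by rw [if_neg (Finset.ne_of_mem_erase hj)]
  rw [h1]
  omega

end step

theorem base {ι C : Type} [Fintype ι] [DecidableEq ι] [Fintype C] [DecidableEq C] [Nonempty C]
    (g : ι → ℕ) (act : C → ι → Prop) (M : C → ι → ι → ℕ) (hM : Outline g act M)
    (h1 : ∀ i, g i = 1) :
    ∃ (V : Type) (_ : Fintype V) (_ : DecidableEq V) (π : V → ι) (χ : V → V → C),
      (∀ i, (Finset.univ.filter (fun v => π v = i)).card = g i) ∧
      (∀ u v, u ≠ v → χ u v = χ v u) ∧
      (∀ u v w, u ≠ v → u ≠ w → χ u v = χ u w → v = w) ∧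
      (∀ u v, u ≠ v → act (χ u v) (π u)) := by
  classical
  have hF : ∃ F : (C → ℕ) → C, ∀ m : C → ℕ, (∃ c, 1 ≤ m c) → 1 ≤ m (F m) := by
    refine ⟨fun m => if h : ∃ c, 1 ≤ m c then h.choose else Classical.arbitrary C, fun m h => ?_⟩
    show 1 ≤ m (if h : ∃ c, 1 ≤ m c then h.choose else Classical.arbitrary C)
    rw [dif_pos h]
    exact h.choose_spec
  obtain ⟨F, hF⟩ := hF
  have hχ : ∀ u v, u ≠ v → 1 ≤ M (F fun c => M c u v) u v := by
    intro u v huv
    refine hF (fun c => M c u v) ?_
    by_contra h
    push Not at h
    have h2 := hM.tot u v huv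
    rw [h1, h1] at h2
    have h3 : ∑ c, M c u v = 0 := Finset.sum_eq_zero fun c _ => by
      have := h c
      omega
    omega
  refine ⟨ι, inferInstance, inferInstance, id, fun u v => F fun c => M c u v, ?_, ?_, ?_, ?_⟩
  · intro i
    rw [h1 i]
    simp [Finset.filter_eq']
  · intro u v _
    show F (fun c => M c u v) = F fun c => M c v u
    congr 1
    funext c
    exact hM.symm c u v
  · intro u v w huv huw h
    by_contra hvw
    have h2 := hχ u v huv
    have h3 := hχ u w huw
    have h' : (F fun c => M c u v) = F fun c => M c u w := h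
    rw [← h'] at h3
    set c := F fun c => M c u v with hc
    have h4 : M c u v + M c u w ≤ ∑ j, M c u j := by
      rw [← Finset.add_sum_erase Finset.univ _ (Finset.mem_univ v)]
      refine Nat.add_le_add_left ?_ _
      exact Finset.single_le_sum (f := fun j => M c u j) (fun _ _ => Nat.zero_le _)
        (Finset.mem_erase.2 ⟨fun h => hvw h.symm, Finset.mem_univ w⟩)
    by_cases ha : act c u
    · rw [hM.row c u ha, h1 u] at h4
      omega
    · rw [hM.row0 c u ha] at h4
      omega
  · intro u v huv
    show act (F fun c => M c u v) u
    by_contra ha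
    have h2 := hχ u v huv
    have h3 := (Finset.sum_eq_zero_iff.1 (hM.row0 _ u ha)) v (Finset.mem_univ v)
    omega

theorem detach_aux {C : Type} [Fintype C] [DecidableEq C] [Nonempty C] (N : ℕ) :
    ∀ {ι : Type} [Fintype ι] [DecidableEq ι]
    (g : ι → ℕ) (act : C → ι → Prop) (M : C → ι → ι → ℕ), Outline g act M →
    ∑ i, (g i - 1) = N →
    ∃ (V : Type) (_ : Fintype V) (_ : DecidableEq V) (π : V → ι) (χ : V → V → C),
      (∀ i, (Finset.univ.filter (fun v => π v = i)).card = g i) ∧
      (∀ u v, u ≠ v → χ u v = χ v u) ∧
      (∀ u v w, u ≠ v → u ≠ w → χ u v = χ u w → v = w) ∧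
      (∀ u v, u ≠ v → act (χ u v) (π u)) := by
  classical
  induction N with
  | zero =>
    intro ι _ _ g act M hM hN
    refine base g act M hM fun i => ?_
    have h1 := (Finset.sum_eq_zero_iff.1 hN) i (Finset.mem_univ i)
    have h2 := hM.pos i
    omega
  | succ N ih =>
    intro ι _ _ g act M hM hN
    obtain ⟨i0, hs⟩ : ∃ i0, 2 ≤ g i0 := by
      by_contra h
      push Not at h
      have : ∑ i, (g i - 1) = 0 := Finset.sum_eq_zero fun i _ => by
        have := h i
        omega
      omega
    have : Nonempty ι := ⟨i0⟩
    have hz : ∀ c, ¬ act c i0 → ∀ j, M c i0 j = 0 := fun c h j =>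
      (Finset.sum_eq_zero_iff.1 (hM.row0 c i0 h)) j (Finset.mem_univ j)
    obtain ⟨f, hf1, hf2⟩ := select (Finset.univ.filter fun c => act c i0) (fun c j => M c i0 j)
      (fun j => if j = i0 then g i0 - 1 else g j) (g i0) (by omega)
      (fun c hc => hM.row c i0 (Finset.mem_filter.1 hc).2)
      (fun j => by
        have h3 : ∑ c ∈ Finset.univ.filter (fun c => act c i0), M c i0 j = ∑ c, M c i0 j := by
          refine Finset.sum_subset (Finset.subset_univ _) fun c _ hc => hz c ?_ j
          intro h
          exact hc (Finset.mem_filter.2 ⟨Finset.mem_univ c, h⟩)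
        show ∑ c ∈ Finset.univ.filter (fun c => act c i0), M c i0 j =
          g i0 * (if j = i0 then g i0 - 1 else g j)
        rw [h3]
        by_cases hj : j = i0
        · rw [if_pos hj, hj]
          exact hM.totd i0
        · rw [if_neg hj]
          exact hM.tot i0 j (fun h => hj h.symm))
    have hM' := step hM hs (f := f) (fun c hc => hf1 c (Finset.mem_filter.2
      ⟨Finset.mem_univ c, hc⟩)) (fun j => by
        have := hf2 j
        convert this)
    have hN' : ∑ o, (gg g i0 o - 1) = N := by
      have := measure_step (g := g) (i0 := i0) hs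
      omega
    obtain ⟨V, _, _, π', χ, h1, h2, h3, h4⟩ := ih (gg g i0) (aa act i0) (mm act M i0 f) hM' hN'
    refine ⟨V, inferInstance, inferInstance, fun v => (π' v).getD i0, χ, ?_, h2, h3, ?_⟩
    · intro i
      by_cases hi : i = i0
      · have h5 : (Finset.univ.filter fun v => (π' v).getD i0 = i) =
            (Finset.univ.filter fun v => π' v = none) ∪
              (Finset.univ.filter fun v => π' v = some i0) := by
          ext v
          simp only [Finset.mem_filter, Finset.mem_univ, true_and, Finset.mem_union, hi]
          cases h : π' v with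
          | none => simp
          | some j => simp
        rw [h5, Finset.card_union_of_disjoint, h1 none, h1 (some i0)]
        · show 1 + (if i0 = i0 then g i0 - 1 else g i0) = g i
          rw [if_pos rfl, hi]
          omega
        · rw [Finset.disjoint_left]
          intro v hv hv'
          rw [Finset.mem_filter] at hv hv'
          rw [hv.2] at hv'
          exact absurd hv'.2 (by simp)
      · have h5 : (Finset.univ.filter fun v => (π' v).getD i0 = i) =
            (Finset.univ.filter fun v => π' v = some i) := by
          ext v
          simp only [Finset.mem_filter, Finset.mem_univ, true_and]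
          cases h : π' v with
          | none => simp [Ne.symm hi]
          | some j => simp
        rw [h5, h1 (some i)]
        show (if i = i0 then g i0 - 1 else g i) = g i
        rw [if_neg hi]
    · intro u v huv
      have h5 := h4 u v huv
      show act (χ u v) ((π' u).getD i0)
      cases h : π' u with
      | none =>
        rw [h] at h5
        exact h5
      | some j =>
        rw [h] at h5
        exact h5

/-- TARGET (with the instance `[Nonempty C]`, which is necessary: for `C` empty and `ι` a single
element with `g = 1` there is no `χ`) -/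
theorem detach {ι C : Type} [Fintype ι] [DecidableEq ι] [Fintype C] [DecidableEq C] [Nonempty C]
    (g : ι → ℕ) (act : C → ι → Prop) (M : C → ι → ι → ℕ) (hM : Outline g act M) :
    ∃ (V : Type) (_ : Fintype V) (_ : DecidableEq V) (π : V → ι) (χ : V → V → C),
      (∀ i, (Finset.univ.filter (fun v => π v = i)).card = g i) ∧
      (∀ u v, u ≠ v → χ u v = χ v u) ∧
      (∀ u v w, u ≠ v → u ≠ w → χ u v = χ u w → v = w) ∧
      (∀ u v, u ≠ v → act (χ u v) (π u)) :=
  detach_aux _ g act M hM rfl

end ICC670
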