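import Mathlib
import Pool.Agent.H670.Icc.D2

/-!
# Colourings of complete graphs from the numbers of cross games
-/

namespace ICC670

theorem crossX {ι C : Type} [Fintype ι] [DecidableEq ι] [Fintype C] [DecidableEq C] [Nonempty C]
    (g : ι → ℕ) (act : C → ι → Prop) [∀ c i, Decidable (act c i)] (X : C → ι → ι → ℕ) (N : ℕ)
    (hg : ∀ i, 1 ≤ g i) (hge : ∀ i, Even (g i)) (hX0 : ∀ c i, X c i i = 0)
    (hXs : ∀ c i j, X c i j = X c j i) (hXe : ∀ c i j, Even (X c i j))
    (hrow : ∀ c i, ∑ j, X c i j ≤ if act c i then g i else 0)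
    (htot : ∀ i j, i ≠ j → ∑ c, X c i j = g i * g j)
    (hN : ∑ j, g j = N)
    (hact : ∀ i, (Finset.univ.filter (fun c => act c i)).card + 1 = N) :
    ∃ (π : Fin N → ι) (χ : Fin N → Fin N → C),
      (∀ i, (Finset.univ.filter (fun v => π v = i)).card = g i) ∧
      (∀ u v, u ≠ v → χ u v = χ v u) ∧
      (∀ u v w, u ≠ v → u ≠ w → χ u v = χ u w → v = w) ∧
      (∀ u v, u ≠ v → act (χ u v) (π u)) := by
  classical
  set M : C → ι → ι → ℕ := fun c i j =>
    if i = j then (if act c i then g i - ∑ k, X c i k else 0) else X c i j with hM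
  have hrowa : ∀ c i, act c i → ∑ j, X c i j ≤ g i := by
    intro c i h
    have := hrow c i
    rwa [if_pos h] at this
  have hrown : ∀ c i, ¬ act c i → ∑ j, X c i j = 0 := by
    intro c i h
    have := hrow c i
    rw [if_neg h] at this
    omega
  have hMd : ∀ c i, M c i i = if act c i then g i - ∑ k, X c i k else 0 := by
    intro c i
    simp [hM]
  have hMo : ∀ c i j, i ≠ j → M c i j = X c i j := by
    intro c i j h
    simp [hM, h]
  have hsum : ∀ c i, ∑ j, M c i j = M c i i + ∑ j, X c i j := by
    intro c i
    rw [← Finset.add_sum_erase Finset.univ (fun j => M c i j) (Finset.mem_univ i),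
      ← Finset.add_sum_erase Finset.univ (fun j => X c i j) (Finset.mem_univ i)]
    rw [hX0 c i, zero_add]
    congr 1
    apply Finset.sum_congr rfl
    intro j hj
    exact hMo c i j (Finset.ne_of_mem_erase hj).symm
  have hOut : Outline g act M := by
    refine ⟨hg, ?_, ?_, ?_, ?_, ?_, ?_⟩
    · intro c i j
      by_cases h : i = j
      · rw [h]
      · rw [hMo c i j h, hMo c j i (Ne.symm h), hXs]
    · intro c i
      rw [hMd]
      by_cases h : act c i
      · rw [if_pos h, Nat.even_sub (hrowa c i h)]
        have h1 : Even (∑ k, X c i k) := Finset.even_sum _ (fun k _ => hXe c i k)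
        exact ⟨fun _ => h1, fun _ => hge i⟩
      · rw [if_neg h]
        exact Even.zero
    · intro c i h
      rw [hsum, hMd, if_pos h]
      have := hrowa c i h
      omega
    · intro c i h
      rw [hsum, hMd, if_neg h, hrown c i h]
    · intro i j h
      rw [← htot i j h]
      exact Finset.sum_congr rfl (fun c _ => hMo c i j h)
    · intro i
      have h1 : ∑ c, M c i i + ∑ c, ∑ j, X c i j = ∑ c, if act c i then g i else 0 := by
        rw [← Finset.sum_add_distrib]
        apply Finset.sum_congr rfl
        intro c _
        rw [hMd]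
        by_cases h : act c i
        · rw [if_pos h, if_pos h]
          have := hrowa c i h
          omega
        · rw [if_neg h, if_neg h, hrown c i h]
      have h2 : (∑ c, if act c i then g i else 0) =
          (Finset.univ.filter (fun c => act c i)).card * g i := by
        rw [← Finset.sum_filter, Finset.sum_const, smul_eq_mul]
      have h3 : ∑ c, ∑ j, X c i j = g i * ∑ j ∈ Finset.univ.erase i, g j := by
        rw [Finset.sum_comm, ← Finset.add_sum_erase Finset.univ _ (Finset.mem_univ i)]
        have h4 : ∑ c, X c i i = 0 := Finset.sum_eq_zero (fun c _ => hX0 c i)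
        rw [h4, zero_add, Finset.mul_sum]
        apply Finset.sum_congr rfl
        intro j hj
        exact htot i j (Finset.ne_of_mem_erase hj).symm
      have h5 := hact i
      rw [← hN, ← Finset.add_sum_erase Finset.univ g (Finset.mem_univ i)] at h5
      rw [h2, h3] at h1
      obtain ⟨t, ht⟩ : ∃ t, g i = t + 1 := ⟨g i - 1, by have := hg i; omega⟩
      generalize ∑ j ∈ Finset.univ.erase i, g j = S at h1 h5
      generalize (Finset.univ.filter (fun c => act c i)).card = A at h1 h5
      generalize ∑ c, M c i i = T at h1 ⊢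
      rw [ht] at h1 h5 ⊢
      have hA : A = t + S := by omega
      subst hA
      have h6 : t + 1 - 1 = t := by omega
      rw [h6]
      nlinarith [h1]
  obtain ⟨V, iF, iD, π, χ, p1, p2, p3, p4⟩ := detach g act M hOut
  have hcard : Fintype.card V = N := by
    have h1 : (Finset.univ : Finset V).card = ∑ i, (Finset.univ.filter (fun v => π v = i)).card :=
      Finset.card_eq_sum_card_fiberwise (fun v _ => Finset.mem_univ (π v))
    rw [← Finset.card_univ, h1, ← hN]
    exact Finset.sum_congr rfl (fun i _ => p1 i)
  let e : V ≃ Fin N := Fintype.equivFinOfCardEq hcard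
  refine ⟨fun v => π (e.symm v), fun u v => χ (e.symm u) (e.symm v), ?_, ?_, ?_, ?_⟩
  · intro i
    rw [← p1 i]
    refine Finset.card_bij (fun v _ => e.symm v) ?_ ?_ ?_
    · intro v hv
      rw [Finset.mem_filter] at hv ⊢
      exact ⟨Finset.mem_univ _, hv.2⟩
    · intro a _ b _ hab
      exact e.symm.injective hab
    · intro b hb
      refine ⟨e b, ?_, by simp⟩
      rw [Finset.mem_filter] at hb ⊢
      exact ⟨Finset.mem_univ _, by simpa using hb.2⟩
  · intro u v huv
    exact p2 _ _ (fun h => huv (e.symm.injective h))
  · intro u v w huv huw h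
    exact e.symm.injective (p3 _ _ _ (fun h => huv (e.symm.injective h))
      (fun h => huw (e.symm.injective h)) h)
  · intro u v huv
    exact p4 _ _ (fun h => huv (e.symm.injective h))

end ICC670
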