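import Mathlib
import Pool.Agent.H670.Icc.Defs
import Pool.Agent.H670.Icc.D3

/-!
# Interval cyclic colourings of complete graphs from three classes
-/

namespace ICC670

theorem kfeas_of_cross {ι : Type} [Fintype ι] [DecidableEq ι] (N t : ℕ) (hN : 2 ≤ N) (ht : N - 1 ≤ t)
    (g : ι → ℕ) (x : ι → ZMod t) (X : ZMod t → ι → ι → ℕ)
    (hg : ∀ i, 1 ≤ g i) (hge : ∀ i, Even (g i)) (hX0 : ∀ c i, X c i i = 0)
    (hXs : ∀ c i j, X c i j = X c j i) (hXe : ∀ c i j, Even (X c i j))
    (hrow : ∀ c i, ∑ j, X c i j ≤ if (c - x i).val < N - 1 then g i else 0)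
    (htot : ∀ i j, i ≠ j → ∑ c ∈ (Finset.range t).image (fun a : ℕ => (a : ZMod t)), X c i j = g i * g j)
    (hsum : ∑ j, g j = N)
    (hcov : ∀ c : ZMod t, ∃ i, (c - x i).val < N - 1) : KFeas N t := by
  have htpos : 0 < t := by omega
  have : NeZero t := ⟨by omega⟩
  have himg : (Finset.range t).image (fun a : ℕ => (a : ZMod t)) = Finset.univ := by
    ext c
    simp only [Finset.mem_image, Finset.mem_range, Finset.mem_univ, iff_true]
    exact ⟨c.val, ZMod.val_lt c, ZMod.natCast_zmod_val c⟩
  have hcard : ∀ i, (Finset.univ.filter (fun c : ZMod t => (c - x i).val < N - 1)).card = N - 1 := by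
    intro i
    have : (Finset.univ.filter (fun c : ZMod t => (c - x i).val < N - 1)).card = (Finset.range (N - 1)).card := by
      apply Finset.card_bij' (i := fun c _ => (c - x i).val) (j := fun a _ => (a : ZMod t) + x i)
      · intro c hc
        simpa using hc
      · intro a ha
        simp only [Finset.mem_range] at ha
        simp only [Finset.mem_filter, Finset.mem_univ, true_and, add_sub_cancel_right]
        rw [ZMod.val_natCast_of_lt (by omega)]
        exact ha
      · intro c hc
        simp
      · intro a ha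
        simp only [Finset.mem_range] at ha
        simp only [add_sub_cancel_right]
        rw [ZMod.val_natCast_of_lt (by omega)]
    rw [this, Finset.card_range]
  obtain ⟨π, χ, hπ, hs, hinj, hact⟩ := crossX (ι := ι) (C := ZMod t) g (fun c i => (c - x i).val < N - 1) X N
    hg hge hX0 hXs hXe hrow (by
      intro i j hij
      have := htot i j hij
      rwa [himg] at this) hsum (by
      intro i
      rw [hcard i]; omega)
  refine ⟨χ, fun v => x (π v), hs, fun v u w h1 h2 h3 => hinj v u w h1 h2 h3, ?_, ?_⟩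
  · intro v u hvu
    refine ⟨(χ v u - x (π v)).val, hact v u hvu, ?_⟩
    rw [ZMod.natCast_zmod_val]; ring
  · intro c
    obtain ⟨i, hi⟩ := hcov c
    have h1 : 0 < (Finset.univ.filter (fun v => π v = i)).card := by rw [hπ i]; exact hg i
    obtain ⟨v, hv⟩ := Finset.card_pos.mp h1
    simp only [Finset.mem_filter, Finset.mem_univ, true_and] at hv
    have hsub : (Finset.univ.erase v).image (fun u => χ v u) ⊆
        Finset.univ.filter (fun c : ZMod t => (c - x i).val < N - 1) := by
      intro c' hc'
      simp only [Finset.mem_image, Finset.mem_erase, Finset.mem_univ, and_true] at hc'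
      obtain ⟨u, hu, rfl⟩ := hc'
      simp only [Finset.mem_filter, Finset.mem_univ, true_and]
      rw [← hv]
      exact hact v u (Ne.symm hu)
    have hc2 : ((Finset.univ.erase v).image (fun u => χ v u)).card = N - 1 := by
      rw [Finset.card_image_of_injOn, Finset.card_erase_of_mem (Finset.mem_univ _), Finset.card_univ, Fintype.card_fin]
      intro a ha b hb hab
      simp only [Finset.coe_erase, Set.mem_diff, Set.mem_singleton_iff] at ha hb
      exact hinj v a b (Ne.symm ha.2) (Ne.symm hb.2) hab
    have heq := Finset.eq_of_subset_of_card_le hsub (by rw [hcard i, hc2])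
    have hcm : c ∈ Finset.univ.filter (fun c : ZMod t => (c - x i).val < N - 1) := by
      simp only [Finset.mem_filter, Finset.mem_univ, true_and]; exact hi
    rw [← heq] at hcm
    simp only [Finset.mem_image, Finset.mem_erase, Finset.mem_univ, and_true] at hcm
    obtain ⟨u, hu, huc⟩ := hcm
    exact ⟨v, u, Ne.symm hu, huc⟩

lemma val_sub_nat (t : ℕ) [NeZero t] (c : ZMod t) (a : ℕ) (h : a ≤ c.val) :
    (c - (a : ZMod t)).val = c.val - a := by
  have hlt := ZMod.val_lt c
  have h1 : ((a : ℕ) : ZMod t).val = a := ZMod.val_natCast_of_lt (by omega)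
  rw [ZMod.val_sub (by rw [h1]; exact h), h1]

lemma val_sub_nat' (t : ℕ) [NeZero t] (c : ZMod t) (a : ℕ) (ha : a ≤ t) (h : c.val < a) :
    (c - (a : ZMod t)).val = c.val + (t - a) := by
  have h0 : 0 < a := by omega
  have e : c - (a : ZMod t) = c + ((t - a : ℕ) : ZMod t) := by
    rw [Nat.cast_sub ha]; simp [sub_eq_add_neg]
  have h1 : ((t - a : ℕ) : ZMod t).val = t - a := ZMod.val_natCast_of_lt (by have := Nat.pos_of_neZero t; omega)
  rw [e, ZMod.val_add_of_lt (by rw [h1]; omega), h1]

lemma sum_img (t : ℕ) [NeZero t] (f : ℕ → ℕ) :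
    ∑ c ∈ (Finset.range t).image (fun a : ℕ => (a : ZMod t)), f c.val = ∑ a ∈ Finset.range t, f a := by
  rw [Finset.sum_image]
  · apply Finset.sum_congr rfl
    intro a ha
    rw [ZMod.val_natCast_of_lt (Finset.mem_range.mp ha)]
  · intro a ha b hb hab
    simp only [Finset.coe_range, Set.mem_Iio] at ha hb
    have := congrArg ZMod.val hab
    simp only at this
    rwa [ZMod.val_natCast_of_lt ha, ZMod.val_natCast_of_lt hb] at this

lemma sum_itv (t p l m : ℕ) (h : p + l ≤ t) :
    ∑ a ∈ Finset.range t, (if p ≤ a ∧ a < p + l then m else 0) = l * m := by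
  rw [← Finset.sum_filter, Finset.sum_const, smul_eq_mul]
  congr 1
  have : (Finset.range t).filter (fun a => p ≤ a ∧ a < p + l) = Finset.Ico p (p + l) := by
    ext a
    simp only [Finset.mem_filter, Finset.mem_range, Finset.mem_Ico]
    omega
  rw [this]; simp

theorem three_groups (g1 g2 g3 u v w N t : ℕ) (h1 : Even g1) (h2 : Even g2) (h3 : Even g3)
    (hpos : 2 ≤ g1) (h12 : g1 ≤ g2) (h23 : g2 ≤ g3) (hN : N = g1 + g2 + g3) (ht : t = u + v + w)
    (hu1 : g3 ≤ u) (hu2 : u + g2 + 1 ≤ N) (hv1 : g2 ≤ v) (hv2 : v + g3 + 1 ≤ N)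
    (hw1 : g3 ≤ w) (hw2 : w + g3 + 1 ≤ N) : KFeas N t := by
  have : NeZero t := ⟨by omega⟩
  set A : ℕ → ℕ := fun a => if u ≤ a ∧ a < u + g2 then g1 else 0 with hA
  set B : ℕ → ℕ := fun a => if u + v ≤ a ∧ a < u + v + g3 then g2 else 0 with hB
  set D : ℕ → ℕ := fun a => if 0 ≤ a ∧ a < 0 + g3 then g1 else 0 with hD
  have sA : ∑ c ∈ (Finset.range t).image (fun a : ℕ => (a : ZMod t)), A c.val = g2 * g1 := by
    rw [sum_img t A]; exact sum_itv t u g2 g1 (by omega)
  have sB : ∑ c ∈ (Finset.range t).image (fun a : ℕ => (a : ZMod t)), B c.val = g3 * g2 := by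
    rw [sum_img t B]; exact sum_itv t (u + v) g3 g2 (by omega)
  have sD : ∑ c ∈ (Finset.range t).image (fun a : ℕ => (a : ZMod t)), D c.val = g3 * g1 := by
    rw [sum_img t D]; exact sum_itv t 0 g3 g1 (by omega)
  have eA : ∀ a, Even (A a) := by intro a; simp only [hA]; split_ifs <;> simp [h1]
  have eB : ∀ a, Even (B a) := by intro a; simp only [hB]; split_ifs <;> simp [h2]
  have eD : ∀ a, Even (D a) := by intro a; simp only [hD]; split_ifs <;> simp [h1]
  apply kfeas_of_cross (ι := Fin 3) N t (by omega) (by omega) (![g1, g2, g3])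
    (![((0 : ℕ) : ZMod t), ((u : ℕ) : ZMod t), ((u + v : ℕ) : ZMod t)])
    (fun c => ![![0, A c.val, D c.val], ![A c.val, 0, B c.val], ![D c.val, B c.val, 0]])
  · intro i; fin_cases i <;> simp <;> omega
  · intro i; fin_cases i <;> simp [h1, h2, h3]
  · intro c i; fin_cases i <;> simp
  · intro c i j; fin_cases i <;> fin_cases j <;> simp
  · intro c i j
    fin_cases i <;> fin_cases j <;> simp [eA, eB, eD]
  · intro c i
    have hlt := ZMod.val_lt c
    rw [Fin.sum_univ_three]
    fin_cases i
    · have e0 : (c - ((0 : ℕ) : ZMod t)).val = c.val := by simp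
      show 0 + A c.val + D c.val ≤ if (c - ((0 : ℕ) : ZMod t)).val < N - 1 then g1 else 0
      simp only [hA, hD, e0]
      split_ifs <;> omega
    · show A c.val + 0 + B c.val ≤ if (c - ((u : ℕ) : ZMod t)).val < N - 1 then g2 else 0
      by_cases hc : u ≤ c.val
      · have e1 := val_sub_nat t c u hc
        simp only [hA, hB, e1]
        split_ifs <;> omega
      · have a0 : A c.val = 0 := by simp only [hA]; rw [if_neg]; omega
        have b0 : B c.val = 0 := by simp only [hB]; rw [if_neg]; omega
        rw [a0, b0]; simp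
    · show D c.val + B c.val + 0 ≤ if (c - ((u + v : ℕ) : ZMod t)).val < N - 1 then g3 else 0
      by_cases hc : u + v ≤ c.val
      · have e1 := val_sub_nat t c (u + v) hc
        simp only [hD, hB, e1]
        split_ifs <;> omega
      · have e1 := val_sub_nat' t c (u + v) (by omega) (by omega)
        simp only [hD, hB, e1]
        split_ifs <;> omega
  · intro i j hij
    fin_cases i <;> fin_cases j <;> simp [sA, sB, sD] at hij ⊢ <;> ring
  · simp [Fin.sum_univ_three]; omega
  · intro c
    have hlt := ZMod.val_lt c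
    by_cases hc1 : c.val < u
    · refine ⟨0, ?_⟩
      have e0 : (c - ((0 : ℕ) : ZMod t)).val = c.val := by simp
      show (c - ((0 : ℕ) : ZMod t)).val < N - 1
      rw [e0]; omega
    · by_cases hc2 : c.val < u + v
      · refine ⟨1, ?_⟩
        show (c - ((u : ℕ) : ZMod t)).val < N - 1
        rw [val_sub_nat t c u (by omega)]; omega
      · refine ⟨2, ?_⟩
        show (c - ((u + v : ℕ) : ZMod t)).val < N - 1
        rw [val_sub_nat t c (u + v) (by omega)]; omega

end ICC670
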