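import Mathlib
import Pool.Agent.H670.Icc.Defs
import Pool.Agent.H670.Icc.G3

/-!
# Interval cyclic colourings of complete graphs from two classes, and `K_8`
-/

namespace ICC670

theorem two_val_sub (t u : ℕ) [NeZero t] (hu : u < t) (c : ZMod t) (h : u ≤ c.val) :
    (c - (u : ZMod t)).val = c.val - u := by
  have h1 : (u : ZMod t).val = u := ZMod.val_natCast_of_lt hu
  rw [ZMod.val_sub (by rw [h1]; exact h), h1]

theorem two_groups (g1 g2 u N t : ℕ) (h1 : Even g1) (h2 : Even g2) (hpos : 2 ≤ g1) (h12 : g1 ≤ g2)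
    (hN : N = g1 + g2) (ht : t = N - 1 + u) (hu : u + g2 + 1 ≤ N) : KFeas N t := by
  classical
  have ht0 : 0 < t := by omega
  have : NeZero t := ⟨ht0.ne'⟩
  have hut : u < t := by omega
  have hval : ∀ c : ZMod t, c.val < t := fun c => ZMod.val_lt c
  refine kfeas_of_cross (ι := Fin 2) N t (by omega) (by omega) ![g1, g2] ![0, (u : ZMod t)]
    (fun c i j => if i ≠ j ∧ u ≤ c.val ∧ c.val < u + g2 then g1 else 0) ?_ ?_ ?_ ?_ ?_ ?_ ?_ ?_ ?_
  · intro i
    fin_cases i
    · change 1 ≤ g1; omega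
    · change 1 ≤ g2; omega
  · intro i
    fin_cases i
    · exact h1
    · exact h2
  · intro c i
    simp
  · intro c i j
    simp only [ne_comm]
  · intro c i j
    split_ifs
    · exact h1
    · exact Even.zero
  · intro c i
    have hc := hval c
    by_cases hact : u ≤ c.val ∧ c.val < u + g2
    · fin_cases i
      · have h3 : (c - (![0, (u : ZMod t)] : Fin 2 → ZMod t) 0).val < N - 1 := by
          change (c - 0).val < N - 1
          rw [sub_zero]
          omega
        simp only [Fin.zero_eta] at *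
        rw [if_pos h3, Fin.sum_univ_two]
        simp [hact]
      · have h3 : (c - (![0, (u : ZMod t)] : Fin 2 → ZMod t) 1).val < N - 1 := by
          change (c - (u : ZMod t)).val < N - 1
          rw [two_val_sub t u hut c hact.1]
          omega
        simp only [Fin.mk_one] at *
        rw [if_pos h3, Fin.sum_univ_two]
        simp [hact, h12]
    · have h3 : ∀ j, (if i ≠ j ∧ u ≤ c.val ∧ c.val < u + g2 then g1 else 0) = 0 := by
        intro j
        exact if_neg fun h => hact h.2
      rw [Finset.sum_congr rfl fun j _ => h3 j]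
      simp
  · intro i j hij
    have hinj : Set.InjOn (fun a : ℕ => (a : ZMod t)) ((Finset.range t : Finset ℕ) : Set ℕ) := by
      intro a ha b hb hab
      rw [Finset.mem_coe, Finset.mem_range] at ha hb
      have h3 : (a : ZMod t).val = (b : ZMod t).val := congrArg ZMod.val hab
      rwa [ZMod.val_natCast_of_lt ha, ZMod.val_natCast_of_lt hb] at h3
    rw [Finset.sum_image hinj]
    have h3 : ∑ a ∈ Finset.range t, (if i ≠ j ∧ u ≤ (a : ZMod t).val ∧ (a : ZMod t).val < u + g2
        then g1 else 0) = ∑ a ∈ Finset.range t, if u ≤ a ∧ a < u + g2 then g1 else 0 := by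
      refine Finset.sum_congr rfl fun a ha => ?_
      rw [ZMod.val_natCast_of_lt (Finset.mem_range.1 ha)]
      simp [hij]
    have h4 : ∑ a ∈ Finset.range t, (if u ≤ a ∧ a < u + g2 then g1 else 0) = g2 * g1 := by
      rw [← Finset.sum_filter, Finset.sum_const, smul_eq_mul]
      congr 1
      have h5 : (Finset.range t).filter (fun a => u ≤ a ∧ a < u + g2) = Finset.Ico u (u + g2) := by
        ext a
        simp only [Finset.mem_filter, Finset.mem_range, Finset.mem_Ico]
        constructor
        · rintro ⟨_, h⟩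
          exact h
        · intro h
          exact ⟨by omega, h⟩
      rw [h5, Nat.card_Ico]
      omega
    rw [h3, h4]
    fin_cases i <;> fin_cases j
    · exact absurd rfl hij
    · change g2 * g1 = g1 * g2; ring
    · rfl
    · exact absurd rfl hij
  · rw [Fin.sum_univ_two]
    exact hN.symm
  · intro c
    have hc := hval c
    by_cases h3 : c.val < N - 1
    · refine ⟨0, ?_⟩
      change (c - 0).val < N - 1
      rwa [sub_zero]
    · refine ⟨1, ?_⟩
      change (c - (u : ZMod t)).val < N - 1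
      rw [two_val_sub t u hut c (by omega)]
      omega

/-- the games of the three classes of `K_8` -/
def X8 (c : Fin 11) (i j : Fin 3) : ℕ :=
  if ((i = 0 ∧ j = 1) ∨ (i = 1 ∧ j = 0)) ∧ (c = 5 ∨ c = 6) then 2
  else if ((i = 1 ∧ j = 2) ∨ (i = 2 ∧ j = 1)) ∧ (c = 8 ∨ c = 9 ∨ c = 10 ∨ c = 0) then 2
  else if ((i = 2 ∧ j = 0) ∨ (i = 0 ∧ j = 2)) ∧ (c = 0 ∨ c = 1 ∨ c = 2 ∨ c = 3) then 2
  else 0

theorem k8_11 : KFeas 8 11 := by
  refine kfeas_of_cross (ι := Fin 3) 8 11 (by norm_num) (by norm_num) ![2, 2, 4]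
    (![0, 5, 8] : Fin 3 → Fin 11) X8 ?_ ?_ ?_ ?_ ?_ ?_ ?_ ?_ ?_
  · decide
  · decide
  · change ∀ (c : Fin 11) (i : Fin 3), X8 c i i = 0
    decide
  · change ∀ (c : Fin 11) (i j : Fin 3), X8 c i j = X8 c j i
    decide
  · change ∀ (c : Fin 11) (i j : Fin 3), Even (X8 c i j)
    decide
  · change ∀ (c : Fin 11) (i : Fin 3), ∑ j, X8 c i j ≤
      if ((c - (![0, 5, 8] : Fin 3 → Fin 11) i : Fin 11) : ℕ) < 8 - 1 then
        (![2, 2, 4] : Fin 3 → ℕ) i else 0
    decide
  · intro i j hij
    have h1 : (Finset.range 11).image (fun a : ℕ => (a : ZMod 11)) =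
        (Finset.univ : Finset (ZMod 11)) := by
      ext c
      simp only [Finset.mem_image, Finset.mem_range, Finset.mem_univ, iff_true]
      exact ⟨c.val, ZMod.val_lt c, ZMod.natCast_zmod_val c⟩
    rw [h1]
    have h2 : ∀ i j : Fin 3, i ≠ j → ∑ c : Fin 11, X8 c i j =
        (![2, 2, 4] : Fin 3 → ℕ) i * (![2, 2, 4] : Fin 3 → ℕ) j := by
      decide
    exact h2 i j hij
  · decide
  · change ∀ c : Fin 11, ∃ i : Fin 3, ((c - (![0, 5, 8] : Fin 3 → Fin 11) i : Fin 11) : ℕ) < 8 - 1
    decide

end ICC670
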