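import Mathlib

/-!
# Lifting interval cyclic colourings of `K_N`
-/

/-- version with integers `k l` in the third claim -/
theorem kn_lift_int (N t : ℕ) (hN : 3 ≤ N) (ht : 2 * N ≤ t + 3)
    (χ : Fin N → Fin N → ZMod t) (s : Fin N → ZMod t)
    (hsymm : ∀ u v, u ≠ v → χ u v = χ v u)
    (hinj : ∀ v u w, v ≠ u → v ≠ w → χ v u = χ v w → u = w)
    (harc : ∀ v u, v ≠ u → ∃ i : ℕ, i < N - 1 ∧ χ v u = s v + (i : ZMod t))
    (hsurj : ∀ c : ZMod t, ∃ u v, u ≠ v ∧ χ u v = c) :
    ∃ (p : ℤ → ℤ) (c : ℤ → ℤ → ℤ), Monotone p ∧ (∀ k, p (k + N) = p k + t) ∧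
      (∀ k l : ℤ, k < l → l < k + N → p l - p k ≤ N - 2 ∨ p (k + N) - p l ≤ N - 2) ∧
      (∀ k l, k < l → p l - p k ≤ N - 2 → p l ≤ c k l ∧ c k l ≤ p k + N - 2) ∧
      (∀ k l l', k < l → k < l' → p l - p k ≤ N - 2 → p l' - p k ≤ N - 2 →
        c k l = c k l' → l = l') ∧
      (∀ k k' l, k < l → k' < l → p l - p k ≤ N - 2 → p l - p k' ≤ N - 2 →
        c k l = c k' l → k = k') ∧
      (∀ x : ℤ, ∃ k, p k ≤ x ∧ x ≤ p k + N - 2) := by
  have ht0 : 0 < t := by omega
  have : NeZero t := ⟨ht0.ne'⟩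
  have hNpos : (0 : ℤ) < N := by exact_mod_cast (by omega : 0 < N)
  have hN3 : (3 : ℤ) ≤ N := by exact_mod_cast hN
  have htZ : 2 * (N : ℤ) ≤ t + 3 := by exact_mod_cast ht
  set a : Fin N → ℕ := fun u => (s u).val with ha
  have ha_lt : ∀ u, a u < t := fun u => ZMod.val_lt _
  have ha_cast : ∀ u, ((a u : ℤ) : ZMod t) = s u := by
    intro u
    rw [Int.cast_natCast]
    exact ZMod.natCast_zmod_val _
  set σ := Tuple.sort a with hσ
  have hmono : Monotone (a ∘ σ) := Tuple.monotone_sort a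
  -- decomposition
  have hdec : ∀ k : ℤ, ∃ (q : ℤ) (r : Fin N), k = N * q + (r : ℕ) := by
    intro k
    have h1 := Int.emod_nonneg k hNpos.ne'
    have h2 := Int.emod_lt_of_pos k hNpos
    refine ⟨k / N, ⟨(k % N).toNat, by omega⟩, ?_⟩
    have h3 := Int.mul_ediv_add_emod k N
    simp only
    rw [Int.toNat_of_nonneg h1]
    exact h3.symm
  let v : ℤ → Fin N := fun k => σ ⟨(k % N).toNat, by
    have h1 := Int.emod_nonneg k hNpos.ne'
    have h2 := Int.emod_lt_of_pos k hNpos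
    omega⟩
  let p : ℤ → ℤ := fun k => (a (v k) : ℤ) + t * (k / N)
  have hv : ∀ (q : ℤ) (r : Fin N), v (N * q + (r : ℕ)) = σ r := by
    intro q r
    change σ _ = σ r
    congr 1
    apply Fin.ext
    simp only
    rw [Int.mul_add_emod_self_left, Int.emod_eq_of_lt (by omega) (by exact_mod_cast r.2)]
    simp
  have hp : ∀ (q : ℤ) (r : Fin N), p (N * q + (r : ℕ)) = a (σ r) + t * q := by
    intro q r
    change (a (v (N * q + (r : ℕ))) : ℤ) + t * ((N * q + (r : ℕ)) / N) = _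
    rw [hv, Int.mul_add_ediv_left _ _ hNpos.ne', Int.ediv_eq_zero_of_lt (by omega)
      (by exact_mod_cast r.2), add_zero]
  have hqle : ∀ (q q' : ℤ) (r r' : Fin N), (N : ℤ) * q + (r : ℕ) ≤ N * q' + (r' : ℕ) → q ≤ q' := by
    intro q q' r r' h
    by_contra hcon
    push Not at hcon
    have h1 : (N : ℤ) * (q' + 1) ≤ N * q := mul_le_mul_of_nonneg_left (by omega) hNpos.le
    have h2 : ((r' : ℕ) : ℤ) < N := by exact_mod_cast r'.2
    have h3 : (0 : ℤ) ≤ ((r : ℕ) : ℤ) := by positivity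
    rw [mul_add, mul_one] at h1
    linarith
  have hpm : Monotone p := by
    intro k l hkl
    obtain ⟨q, r, rfl⟩ := hdec k
    obtain ⟨q', r', rfl⟩ := hdec l
    rw [hp, hp]
    have hq := hqle q q' r r' hkl
    rcases hq.eq_or_lt with h | h
    · subst h
      have hr : r ≤ r' := by
        have : ((r : ℕ) : ℤ) ≤ (r' : ℕ) := by linarith
        exact_mod_cast this
      have : a (σ r) ≤ a (σ r') := hmono hr
      have h2 : (a (σ r) : ℤ) ≤ a (σ r') := by exact_mod_cast this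
      linarith
    · have h1 : (t : ℤ) * (q + 1) ≤ t * q' := mul_le_mul_of_nonneg_left (by omega) (by positivity)
      have h2 : (a (σ r) : ℤ) < t := by exact_mod_cast ha_lt _
      have h3 : (0 : ℤ) ≤ a (σ r') := by positivity
      rw [mul_add, mul_one] at h1
      linarith
  have hper : ∀ k, p (k + N) = p k + t := by
    intro k
    obtain ⟨q, r, rfl⟩ := hdec k
    have : (N : ℤ) * q + (r : ℕ) + N = N * (q + 1) + (r : ℕ) := by ring
    rw [this, hp, hp]
    ring
  have hpc : ∀ k, ((p k : ℤ) : ZMod t) = s (v k) := by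
    intro k
    change (((a (v k) : ℤ) + t * (k / N) : ℤ) : ZMod t) = s (v k)
    rw [Int.cast_add, ha_cast, Int.cast_mul, Int.cast_natCast, ZMod.natCast_self, zero_mul,
      add_zero]
  have hveq : ∀ k l : ℤ, v k = v l → (N : ℤ) ∣ l - k := by
    intro k l h
    obtain ⟨q, r, rfl⟩ := hdec k
    obtain ⟨q', r', rfl⟩ := hdec l
    rw [hv, hv] at h
    have hr := σ.injective h
    subst hr
    exact ⟨q' - q, by ring⟩
  have hvne : ∀ k l : ℤ, k < l → l < k + N → v k ≠ v l := by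
    intro k l h1 h2 h
    have h3 := Int.le_of_dvd (by linarith) (hveq k l h)
    linarith
  have hlt : ∀ k l : ℤ, k < l → p l - p k ≤ N - 2 → l < k + N := by
    intro k l h1 h2
    by_contra hcon
    push Not at hcon
    have h3 := hpm hcon
    rw [hper] at h3
    linarith
  let c : ℤ → ℤ → ℤ := fun k l => p k + ((χ (v k) (v l) - s (v k)).val : ℤ)
  have hcc : ∀ k l, ((c k l : ℤ) : ZMod t) = χ (v k) (v l) := by
    intro k l
    change ((p k + ((χ (v k) (v l) - s (v k)).val : ℤ) : ℤ) : ZMod t) = _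
    rw [Int.cast_add, hpc, Int.cast_natCast, ZMod.natCast_zmod_val]
    ring
  have hcl : ∀ k l, v k ≠ v l → p k ≤ c k l ∧ c k l ≤ p k + N - 2 := by
    intro k l h
    obtain ⟨i, hi, he⟩ := harc _ _ h
    have h1 : χ (v k) (v l) - s (v k) = (i : ZMod t) := by
      rw [he]; ring
    have h2 : (χ (v k) (v l) - s (v k)).val = i := by
      rw [h1]
      exact ZMod.val_cast_of_lt (by omega)
    change p k ≤ p k + ((χ (v k) (v l) - s (v k)).val : ℤ) ∧
      p k + ((χ (v k) (v l) - s (v k)).val : ℤ) ≤ p k + N - 2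
    rw [h2]
    omega
  -- the comparison
  have hcmp : ∀ k l : ℤ, k < l → l < k + N → ∃ m : ℤ, c k l - c l k = t * m ∧ -1 ≤ m ∧ m ≤ 0 := by
    intro k l h1 h2
    have hne := hvne k l h1 h2
    have e1 : ((c k l : ℤ) : ZMod t) = ((c l k : ℤ) : ZMod t) := by
      rw [hcc, hcc]
      exact hsymm _ _ hne
    have e2 : (t : ℤ) ∣ c k l - c l k := by
      have := (ZMod.intCast_eq_intCast_iff_dvd_sub (c l k) (c k l) t).1 e1.symm
      exact this
    obtain ⟨m, hm⟩ := e2
    have b1 := hcl k l hne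
    have b2 := hcl l k hne.symm
    have b3 : p k ≤ p l := hpm h1.le
    have b4 : p l ≤ p k + t := by
      rw [← hper]
      exact hpm h2.le
    have htp : (0 : ℤ) < t := by exact_mod_cast ht0
    refine ⟨m, hm, ?_, ?_⟩
    · by_contra hcon
      push Not at hcon
      have : (t : ℤ) * m ≤ t * (-2) := mul_le_mul_of_nonneg_left (by omega) htp.le
      linarith
    · by_contra hcon
      push Not at hcon
      have : (t : ℤ) * 1 ≤ t * m := mul_le_mul_of_nonneg_left (by omega) htp.le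
      linarith
  refine ⟨p, c, hpm, hper, ?_, ?_, ?_, ?_, ?_⟩
  · intro k l h1 h2
    obtain ⟨m, hm, hm1, hm2⟩ := hcmp k l h1 h2
    have hne := hvne k l h1 h2
    have b1 := hcl k l hne
    have b2 := hcl l k hne.symm
    have : m = 0 ∨ m = -1 := by omega
    rcases this with rfl | rfl
    · left
      rw [mul_zero] at hm
      linarith
    · right
      rw [hper]
      rw [mul_neg, mul_one] at hm
      linarith
  · intro k l h1 h2
    have h3 := hlt k l h1 h2
    obtain ⟨m, hm, hm1, hm2⟩ := hcmp k l h1 h3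
    have hne := hvne k l h1 h3
    have b1 := hcl k l hne
    have b2 := hcl l k hne.symm
    have : m = 0 ∨ m = -1 := by omega
    rcases this with rfl | rfl
    · rw [mul_zero] at hm
      constructor
      · linarith
      · linarith
    · exfalso
      rw [mul_neg, mul_one] at hm
      linarith
  · intro k l l' h1 h1' h2 h2' he
    have h3 := hlt k l h1 h2
    have h3' := hlt k l' h1' h2'
    have e1 : χ (v k) (v l) = χ (v k) (v l') := by
      rw [← hcc, ← hcc, he]
    have e2 := hinj _ _ _ (hvne k l h1 h3) (hvne k l' h1' h3') e1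
    have e3 := hveq _ _ e2
    have e4 := Int.eq_zero_of_abs_lt_dvd e3 (by rw [abs_lt]; constructor <;> linarith)
    linarith
  · intro k k' l h1 h1' h2 h2' he
    have h3 := hlt k l h1 h2
    have h3' := hlt k' l h1' h2'
    have e1 : χ (v l) (v k) = χ (v l) (v k') := by
      rw [hsymm _ _ (hvne k l h1 h3).symm, hsymm _ _ (hvne k' l h1' h3').symm, ← hcc, ← hcc, he]
    have e2 := hinj _ _ _ (hvne k l h1 h3).symm (hvne k' l h1' h3').symm e1
    have e3 := hveq _ _ e2
    have e4 := Int.eq_zero_of_abs_lt_dvd e3 (by rw [abs_lt]; constructor <;> linarith)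
    linarith
  · intro x
    obtain ⟨u, w, huw, hx⟩ := hsurj (x : ZMod t)
    obtain ⟨i, hi, he⟩ := harc _ _ huw
    have e1 : ((a u : ℤ) : ZMod t) = ((x - i : ℤ) : ZMod t) := by
      rw [ha_cast]
      push_cast
      rw [← hx, he]
      ring
    obtain ⟨q, hq⟩ := (ZMod.intCast_eq_intCast_iff_dvd_sub _ _ _).1 e1
    refine ⟨N * q + ((σ.symm u : Fin N) : ℕ), ?_⟩
    rw [hp, Equiv.apply_symm_apply]
    omega

theorem kn_lift (N t : ℕ) (hN : 3 ≤ N) (ht : 2 * N ≤ t + 3)
    (χ : Fin N → Fin N → ZMod t) (s : Fin N → ZMod t)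
    (hsymm : ∀ u v, u ≠ v → χ u v = χ v u)
    (hinj : ∀ v u w, v ≠ u → v ≠ w → χ v u = χ v w → u = w)
    (harc : ∀ v u, v ≠ u → ∃ i : ℕ, i < N - 1 ∧ χ v u = s v + (i : ZMod t))
    (hsurj : ∀ c : ZMod t, ∃ u v, u ≠ v ∧ χ u v = c) :
    ∃ (p : ℤ → ℤ) (c : ℤ → ℤ → ℤ), Monotone p ∧ (∀ k, p (k + N) = p k + t) ∧
      (∀ k l, k < l → l < k + N → p l - p k ≤ N - 2 ∨ p (k + N) - p l ≤ N - 2) ∧
      (∀ k l, k < l → p l - p k ≤ N - 2 → p l ≤ c k l ∧ c k l ≤ p k + N - 2) ∧
      (∀ k l l', k < l → k < l' → p l - p k ≤ N - 2 → p l' - p k ≤ N - 2 →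
        c k l = c k l' → l = l') ∧
      (∀ k k' l, k < l → k' < l → p l - p k ≤ N - 2 → p l - p k' ≤ N - 2 →
        c k l = c k' l → k = k') ∧
      (∀ x : ℤ, ∃ k, p k ≤ x ∧ x ≤ p k + N - 2) := by
  obtain ⟨p, c, h1, h2, h3, h4, h5, h6, h7⟩ := kn_lift_int N t hN ht χ s hsymm hinj harc hsurj
  refine ⟨p, c, h1, h2, fun k l hk hl => ?_, h4, h5, h6, h7⟩
  exact h3 k l (by exact_mod_cast hk) (by exact_mod_cast hl)
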