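import Mathlib

/-!
# Counting the games across a cut
-/

theorem kn_near (N : ℕ) (p r : ℤ → ℤ) (hp : Monotone p)
    (hr1 : ∀ k, p (r k) ≤ p k + N - 2) (hr2 : ∀ k, p k + N - 2 < p (r k + 1)) (k l : ℤ) :
    p l - p k ≤ N - 2 ↔ l ≤ r k := by
  constructor
  · intro h
    by_contra h'
    have h1 : r k + 1 ≤ l := by omega
    have h2 := hp h1
    have h3 := hr2 k
    omega
  · intro h
    have h2 := hp h
    have h3 := hr1 k
    omega

theorem kn_near' (N t : ℕ) (hN : 3 ≤ N) (p r : ℤ → ℤ)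
    (hp : Monotone p)
    (h1 : ∀ k l : ℤ, k < l → l < k + N → p l - p k ≤ N - 2 ∨ p (k + N) - p l ≤ N - 2)
    (hr2 : ∀ k, p k + N - 2 < p (r k + 1))
    (k l : ℤ) (hkl : k < l) (h : r l - N + 1 ≤ k) : p l - p k ≤ N - 2 := by
  have a1 : r l + 1 ≤ k + N := by omega
  have a2 := hp a1
  have a3 := hr2 l
  have a4 : l ≤ r l := by
    by_contra h'
    have b1 : r l + 1 ≤ l := by omega
    have b2 := hp b1
    have b3 := hr2 l
    omega
  rcases h1 k l hkl (by omega) with h5 | h5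
  · exact h5
  · omega

theorem kn_shift (N t : ℕ) (p : ℤ → ℤ) (hper : ∀ k, p (k + N) = p k + t) (m : ℕ) (k : ℤ) :
    p (k + m * N) = p k + m * t := by
  induction m with
  | zero => simp
  | succ m ih =>
    have e : k + ((m + 1 : ℕ) : ℤ) * N = k + m * N + N := by push_cast; ring
    rw [e, hper, ih]
    push_cast
    ring

/-- `h1` in `kn_count` is read by Lean for natural numbers `k l`; periodicity gives all integers -/
theorem kn_h1 (N t : ℕ) (hN : 3 ≤ N) (p : ℤ → ℤ) (hper : ∀ k, p (k + N) = p k + t)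
    (h1 : ∀ k l : ℕ, k < l → l < k + N → p l - p k ≤ N - 2 ∨ p (k + N) - p l ≤ N - 2)
    (k l : ℤ) (hkl : k < l) (hlk : l < k + N) :
    p l - p k ≤ N - 2 ∨ p (k + N) - p l ≤ N - 2 := by
  have hk : 0 ≤ k + (k.natAbs : ℤ) * N := by
    have h5 : (k.natAbs : ℤ) * 1 ≤ (k.natAbs : ℤ) * N :=
      mul_le_mul_of_nonneg_left (by omega) (by omega)
    omega
  have hl : 0 ≤ l + (k.natAbs : ℤ) * N := by omega
  have key := h1 (k + (k.natAbs : ℤ) * N).toNat (l + (k.natAbs : ℤ) * N).toNat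
    (by omega) (by omega)
  rw [Int.toNat_of_nonneg hk, Int.toNat_of_nonneg hl] at key
  have e1 : k + (k.natAbs : ℤ) * N + N = (k + N) + (k.natAbs : ℤ) * N := by ring
  rw [e1, kn_shift N t p hper, kn_shift N t p hper, kn_shift N t p hper] at key
  rcases key with h | h
  · left; omega
  · right; omega

theorem kn_sumU (F : ℤ → ℤ) (i : ℤ) (θ : ℕ) :
    ∑ j ∈ Finset.range θ, F (i - j) = ∑ k ∈ Finset.Ioc (i - θ) i, F k := by
  refine Finset.sum_nbij' (fun j : ℕ => i - j) (fun k => (i - k).toNat) ?_ ?_ ?_ ?_ ?_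
  · intro j hj
    rw [Finset.mem_range] at hj
    rw [Finset.mem_Ioc]
    omega
  · intro k hk
    rw [Finset.mem_Ioc] at hk
    rw [Finset.mem_range]
    omega
  · intro j hj
    simp
  · intro k hk
    rw [Finset.mem_Ioc] at hk
    show i - ((i - k).toNat : ℤ) = k
    omega
  · intro j hj
    rfl

theorem kn_sumV (F : ℤ → ℤ) (i : ℤ) (θ : ℕ) :
    ∑ j ∈ Finset.range θ, F (i + 1 + j) = ∑ k ∈ Finset.Ioc i (i + θ), F k := by
  refine Finset.sum_nbij' (fun j : ℕ => i + 1 + j) (fun k => (k - i - 1).toNat) ?_ ?_ ?_ ?_ ?_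
  · intro j hj
    rw [Finset.mem_range] at hj
    rw [Finset.mem_Ioc]
    omega
  · intro k hk
    rw [Finset.mem_Ioc] at hk
    rw [Finset.mem_range]
    omega
  · intro j hj
    show (i + 1 + (j : ℤ) - i - 1).toNat = j
    omega
  · intro k hk
    rw [Finset.mem_Ioc] at hk
    show i + 1 + ((k - i - 1).toNat : ℤ) = k
    omega
  · intro j hj
    rfl

theorem kn_count (N t : ℕ) (hN : 3 ≤ N) (ht : 2 * N ≤ t + 3) (p r : ℤ → ℤ) (c : ℤ → ℤ → ℤ)
    (hp : Monotone p) (hper : ∀ k, p (k + N) = p k + t)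
    (h1 : ∀ k l, k < l → l < k + N → p l - p k ≤ N - 2 ∨ p (k + N) - p l ≤ N - 2)
    (h2 : ∀ k l, k < l → p l - p k ≤ N - 2 → p l ≤ c k l ∧ c k l ≤ p k + N - 2)
    (h3 : ∀ k l l', k < l → k < l' → p l - p k ≤ N - 2 → p l' - p k ≤ N - 2 →
        c k l = c k l' → l = l')
    (h4 : ∀ k k' l, k < l → k' < l → p l - p k ≤ N - 2 → p l - p k' ≤ N - 2 →
        c k l = c k' l → k = k')
    (hr1 : ∀ k, p (r k) ≤ p k + N - 2) (hr2 : ∀ k, p k + N - 2 < p (r k + 1))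
    (i : ℤ) (θ : ℕ) (hθ1 : θ = 0 ∨ p (i + θ) - p (i - θ + 1) ≤ N - 2)
    (hθ2 : (N : ℤ) - 1 ≤ p (i + θ + 1) - p (i - θ)) :
    (θ : ℤ) - (θ : ℤ) ^ 2 ≤
      ∑ j ∈ Finset.range θ, ((r (i + 1 + j) - p (i + 1 + j)) - (r (i - j) - p (i - j))) := by
  replace h1 := kn_h1 N t hN p hper h1
  rcases Nat.eq_zero_or_pos θ with hθ0 | hθpos
  · subst hθ0
    simp
  have hθ1' : p (i + θ) - p (i - θ + 1) ≤ N - 2 := by
    rcases hθ1 with h | h
    · omega
    · exact h
  set C : ℤ := max (p (i + θ) - 1) (p (i - θ) + N - 2) with hC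
  have hC1 : p (i + θ) - 1 ≤ C := le_max_left _ _
  have hC2 : p (i - θ) + N - 2 ≤ C := le_max_right _ _
  have hC3 : C + 1 ≤ p (i + θ + 1) := by
    have : C ≤ p (i + θ + 1) - 1 := by
      refine max_le ?_ ?_
      · have := hp (show i + (θ : ℤ) ≤ i + θ + 1 by omega)
        omega
      · omega
    omega
  have hC4 : C ≤ p (i - θ + 1) + N - 2 := by
    refine max_le ?_ ?_
    · omega
    · have := hp (show i - (θ : ℤ) ≤ i - θ + 1 by omega)
      omega
  -- the sets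
  let S1 : Finset (Σ _ : ℤ, ℤ) := (Finset.Ioc (i - θ) i).sigma (fun k => Finset.Ioc i (r k))
  let S2 : Finset (Σ _ : ℤ, ℤ) :=
    (Finset.Ioc i (i + θ)).sigma (fun l => Finset.Icc (r l - N + 1) (i - θ))
  let T1 : Finset (Σ _ : ℤ, ℤ) := (Finset.Ioc i (i + θ)).sigma (fun l => Finset.Icc (p l) C)
  let T2 : Finset (Σ _ : ℤ, ℤ) :=
    (Finset.Ioc (i - θ) i).sigma (fun k => Finset.Ioc C (p k + N - 2))
  let q : (Σ _ : ℤ, ℤ) ⊕ (Σ _ : ℤ, ℤ) → ℤ × ℤ :=
    Sum.elim (fun x => (x.1, x.2)) (fun x => (x.2, x.1))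
  let g : ℤ × ℤ → (Σ _ : ℤ, ℤ) ⊕ (Σ _ : ℤ, ℤ) := fun x =>
    if c x.1 x.2 ≤ C then Sum.inl ⟨x.2, c x.1 x.2⟩ else Sum.inr ⟨x.1, c x.1 x.2⟩
  have hgood : ∀ x ∈ S1.disjSum S2, (q x).1 ≤ i ∧ i < (q x).2 ∧
      p (q x).2 - p (q x).1 ≤ N - 2 := by
    intro x hx
    rcases x with ⟨k, l⟩ | ⟨l, k⟩
    · rw [Finset.inl_mem_disjSum, Finset.mem_sigma, Finset.mem_Ioc, Finset.mem_Ioc] at hx
      refine ⟨hx.1.2, hx.2.1, ?_⟩
      exact (kn_near N p r hp hr1 hr2 k l).2 hx.2.2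
    · rw [Finset.inr_mem_disjSum, Finset.mem_sigma, Finset.mem_Ioc, Finset.mem_Icc] at hx
      have hk : k ≤ i - θ := hx.2.2
      have hl : i < l := hx.1.1
      refine ⟨?_, hl, ?_⟩
      · show k ≤ i
        omega
      · exact kn_near' N t hN p r hp h1 hr2 k l (by omega) hx.2.1
  have hqinj : ∀ x ∈ S1.disjSum S2, ∀ y ∈ S1.disjSum S2, q x = q y → x = y := by
    intro x hx y hy hxy
    rcases x with ⟨k, l⟩ | ⟨l, k⟩ <;> rcases y with ⟨k', l'⟩ | ⟨l', k'⟩
    · have h5 : k = k' := congrArg Prod.fst hxy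
      have h6 : l = l' := congrArg Prod.snd hxy
      subst h5; subst h6; rfl
    · exfalso
      have h5 : k = k' := congrArg Prod.fst hxy
      rw [Finset.inl_mem_disjSum, Finset.mem_sigma, Finset.mem_Ioc, Finset.mem_Ioc] at hx
      rw [Finset.inr_mem_disjSum, Finset.mem_sigma, Finset.mem_Ioc, Finset.mem_Icc] at hy
      have hx1 : i - (θ : ℤ) < k := hx.1.1
      have hy1 : k' ≤ i - (θ : ℤ) := hy.2.2
      omega
    · exfalso
      have h5 : k = k' := congrArg Prod.fst hxy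
      rw [Finset.inl_mem_disjSum, Finset.mem_sigma, Finset.mem_Ioc, Finset.mem_Ioc] at hy
      rw [Finset.inr_mem_disjSum, Finset.mem_sigma, Finset.mem_Ioc, Finset.mem_Icc] at hx
      have hx1 : i - (θ : ℤ) < k' := hy.1.1
      have hy1 : k ≤ i - (θ : ℤ) := hx.2.2
      omega
    · have h5 : k = k' := congrArg Prod.fst hxy
      have h6 : l = l' := congrArg Prod.snd hxy
      subst h5; subst h6; rfl
  have hginj : ∀ x y : ℤ × ℤ, (x.1 ≤ i ∧ i < x.2 ∧ p x.2 - p x.1 ≤ N - 2) →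
      (y.1 ≤ i ∧ i < y.2 ∧ p y.2 - p y.1 ≤ N - 2) → g x = g y → x = y := by
    rintro ⟨k, l⟩ ⟨k', l'⟩ ⟨a1, a2, a3⟩ ⟨b1, b2, b3⟩ hxy
    simp only at a1 a2 a3 b1 b2 b3
    simp only [g] at hxy
    by_cases hc : c k l ≤ C <;> by_cases hc' : c k' l' ≤ C
    · rw [if_pos hc, if_pos hc'] at hxy
      have e0 := Sum.inl.inj hxy
      have e1 : l = l' := congrArg Sigma.fst e0
      subst e1
      have e2 : c k l = c k' l := congrArg (fun z : (Σ _ : ℤ, ℤ) => z.2) e0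
      have e3 := h4 k k' l (by omega) (by omega) a3 b3 e2
      rw [e3]
    · rw [if_pos hc, if_neg hc'] at hxy
      exact absurd hxy (by simp)
    · rw [if_neg hc, if_pos hc'] at hxy
      exact absurd hxy (by simp)
    · rw [if_neg hc, if_neg hc'] at hxy
      have e0 := Sum.inr.inj hxy
      have e1 : k = k' := congrArg Sigma.fst e0
      subst e1
      have e2 : c k l = c k l' := congrArg (fun z : (Σ _ : ℤ, ℤ) => z.2) e0
      have e3 := h3 k l l' (by omega) (by omega) a3 b3 e2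
      rw [e3]
  have hmaps : ∀ x ∈ S1.disjSum S2, g (q x) ∈ T1.disjSum T2 := by
    intro x hx
    obtain ⟨a1, a2, a3⟩ := hgood x hx
    generalize q x = y at a1 a2 a3
    obtain ⟨k, l⟩ := y
    simp only at a1 a2 a3
    obtain ⟨b1, b2⟩ := h2 k l (by omega) a3
    simp only [g]
    by_cases hc : c k l ≤ C
    · rw [if_pos hc, Finset.inl_mem_disjSum, Finset.mem_sigma, Finset.mem_Ioc, Finset.mem_Icc]
      refine ⟨⟨a2, ?_⟩, b1, hc⟩
      show l ≤ i + θ
      by_contra h'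
      have := hp (show i + (θ : ℤ) + 1 ≤ l by omega)
      omega
    · rw [if_neg hc, Finset.inr_mem_disjSum, Finset.mem_sigma, Finset.mem_Ioc, Finset.mem_Ioc]
      refine ⟨⟨?_, a1⟩, not_le.1 hc, b2⟩
      show i - (θ : ℤ) < k
      by_contra h'
      have := hp (show k ≤ i - (θ : ℤ) by omega)
      omega
  have hcard : (S1.disjSum S2).card ≤ (T1.disjSum T2).card := by
    refine Finset.card_le_card_of_injOn (fun x => g (q x)) hmaps ?_
    intro x hx y hy hxy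
    exact hqinj x hx y hy (hginj _ _ (hgood x hx) (hgood y hy) hxy)
  rw [Finset.card_disjSum, Finset.card_disjSum, Finset.card_sigma, Finset.card_sigma,
    Finset.card_sigma, Finset.card_sigma] at hcard
  have hcard' : (∑ k ∈ Finset.Ioc (i - θ) i, ((Finset.Ioc i (r k)).card : ℤ)) +
      (∑ l ∈ Finset.Ioc i (i + θ), ((Finset.Icc (r l - N + 1) (i - θ)).card : ℤ)) ≤
      (∑ l ∈ Finset.Ioc i (i + θ), ((Finset.Icc (p l) C).card : ℤ)) +
      (∑ k ∈ Finset.Ioc (i - θ) i, ((Finset.Ioc C (p k + N - 2)).card : ℤ)) := by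
    exact_mod_cast hcard
  have l1 : ∑ k ∈ Finset.Ioc (i - θ) i, (r k - i) ≤
      ∑ k ∈ Finset.Ioc (i - θ) i, ((Finset.Ioc i (r k)).card : ℤ) := by
    refine Finset.sum_le_sum fun k _ => ?_
    rw [Int.card_Ioc]
    omega
  have l2 : ∑ l ∈ Finset.Ioc i (i + θ), (i - θ - r l + N) ≤
      ∑ l ∈ Finset.Ioc i (i + θ), ((Finset.Icc (r l - N + 1) (i - θ)).card : ℤ) := by
    refine Finset.sum_le_sum fun l _ => ?_
    rw [Int.card_Icc]
    omega
  have l3 : ∑ l ∈ Finset.Ioc i (i + θ), ((Finset.Icc (p l) C).card : ℤ) =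
      ∑ l ∈ Finset.Ioc i (i + θ), (C + 1 - p l) := by
    refine Finset.sum_congr rfl fun l hl => ?_
    rw [Finset.mem_Ioc] at hl
    have := hp hl.2
    rw [Int.card_Icc]
    omega
  have l4 : ∑ k ∈ Finset.Ioc (i - θ) i, ((Finset.Ioc C (p k + N - 2)).card : ℤ) =
      ∑ k ∈ Finset.Ioc (i - θ) i, (p k + N - 2 - C) := by
    refine Finset.sum_congr rfl fun k hk => ?_
    rw [Finset.mem_Ioc] at hk
    have := hp (show i - (θ : ℤ) + 1 ≤ k by omega)
    rw [Int.card_Ioc]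
    omega
  rw [l3, l4] at hcard'
  have hmain := (add_le_add l1 l2).trans hcard'
  rw [Finset.sum_sub_distrib, kn_sumV (fun k => r k - p k), kn_sumU (fun k => r k - p k)]
  have cU : (Finset.Ioc (i - (θ : ℤ)) i).card = θ := by
    rw [Int.card_Ioc]; omega
  have cV : (Finset.Ioc i (i + (θ : ℤ))).card = θ := by
    rw [Int.card_Ioc]; omega
  simp only [Finset.sum_sub_distrib, Finset.sum_add_distrib, Finset.sum_const, cU, cV,
    nsmul_eq_mul] at hmain ⊢
  nlinarith [hmain]
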