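import Mathlib

/-!
# The numbers `θ i`
-/

/-- The same statement with `k l : ℤ` in `h1` (in the given statement `k l` elaborate to natural numbers). -/
theorem kn_theta_int (N t : ℕ) (hN : 3 ≤ N) (ht : 2 * N ≤ t + 3) (p : ℤ → ℤ)
    (hp : Monotone p) (hper : ∀ k, p (k + N) = p k + t)
    (h1 : ∀ k l : ℤ, k < l → l < k + N → p l - p k ≤ N - 2 ∨ p (k + N) - p l ≤ N - 2)
    (hcov : ∀ x : ℤ, ∃ k, p k ≤ x ∧ x ≤ p k + N - 2) :
    ∃ (r : ℤ → ℤ) (θ : ℤ → ℕ),
      (∀ k, p (r k) ≤ p k + N - 2) ∧ (∀ k, p k + N - 2 < p (r k + 1)) ∧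
      (∀ k, r (k + N) = r k + N) ∧
      (∀ i, θ (i + N) = θ i) ∧
      (∀ i, θ i = 0 ∨ p (i + θ i) - p (i - θ i + 1) ≤ N - 2) ∧
      (∀ i, (N : ℤ) - 1 ≤ p (i + θ i + 1) - p (i - θ i)) ∧
      (∀ i, θ (i + θ i) ≤ 2 * θ i ∧ θ (i + θ i) + 2 * θ i ≤ N) ∧
      (∀ i, θ (i - θ i) ≤ 2 * θ i ∧ θ (i - θ i) + 2 * θ i ≤ N) ∧
      (∀ i, θ i = 0 → t + 3 = 2 * N ∧ r (i + 1) - p (i + 1) = r i - p i + 1 ∧
        θ (i + 1) ≤ 1 ∧ θ (i - 1) ≤ 1) := by
  classical
  have hNt : (2 : ℤ) * N ≤ t + 3 := by exact_mod_cast ht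
  have hN3 : (3 : ℤ) ≤ N := by exact_mod_cast hN
  -- existence of r
  have hr : ∀ k : ℤ, ∃ l : ℤ, p l ≤ p k + N - 2 ∧ p k + N - 2 < p (l + 1) := by
    intro k
    have hex : ∃ n : ℕ, p k + N - 2 < p (k + n + 1) := by
      refine ⟨N, ?_⟩
      have h2 : p (k + N) ≤ p (k + N + 1) := hp (by omega)
      rw [hper] at h2
      omega
    have hf := Nat.find_spec hex
    refine ⟨k + (Nat.find hex : ℕ), ?_, hf⟩
    rcases Nat.eq_zero_or_pos (Nat.find hex) with h0 | h0
    · rw [h0]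
      simp only [Nat.cast_zero, add_zero]
      omega
    · have hm := Nat.find_min hex (m := Nat.find hex - 1) (by omega)
      push Not at hm
      have e : k + ((Nat.find hex - 1 : ℕ) : ℤ) + 1 = k + (Nat.find hex : ℕ) := by omega
      rw [e] at hm
      exact hm
  have huniq : ∀ k l l' : ℤ, p l ≤ p k + N - 2 → p k + N - 2 < p (l + 1) →
      p l' ≤ p k + N - 2 → p k + N - 2 < p (l' + 1) → l = l' := by
    intro k l l' a1 a2 a3 a4
    rcases lt_trichotomy l l' with h | h | h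
    · have := hp (show l + 1 ≤ l' by omega)
      omega
    · exact h
    · have := hp (show l' + 1 ≤ l by omega)
      omega
  choose r hr1 hr2 using hr
  have hrper : ∀ k, r (k + N) = r k + N := by
    intro k
    refine huniq (k + N) _ _ (hr1 _) (hr2 _) ?_ ?_
    · rw [hper, hper]
      have := hr1 k
      omega
    · have e : r k + N + 1 = (r k + 1) + N := by ring
      rw [e, hper, hper]
      have := hr2 k
      omega
  -- theta
  have hCdown : ∀ (i : ℤ) (h h' : ℕ), h ≤ h' → p (i + h') - p (i - h' + 1) ≤ N - 2 →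
      p (i + h) - p (i - h + 1) ≤ N - 2 := by
    intro i h h' hh hC
    have a1 := hp (show i + (h : ℤ) ≤ i + h' by omega)
    have a2 := hp (show i - (h' : ℤ) + 1 ≤ i - h + 1 by omega)
    omega
  have hCbd : ∀ (i : ℤ) (h : ℕ), p (i + h) - p (i - h + 1) ≤ N - 2 → 2 * h ≤ N := by
    intro i h hC
    by_contra hcon
    push Not at hcon
    have a1 := hp (show (i - (h : ℤ) + 1) + N ≤ i + h by omega)
    rw [hper] at a1
    omega
  have hC0 : ∀ i : ℤ, p (i + (0 : ℕ)) - p (i - (0 : ℕ) + 1) ≤ N - 2 := by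
    intro i
    have a1 := hp (show i + ((0 : ℕ) : ℤ) ≤ i - (0 : ℕ) + 1 by simp)
    omega
  have hth : ∀ i : ℤ, ∃ m : ℕ, ∀ h : ℕ, p (i + h) - p (i - h + 1) ≤ N - 2 ↔ h ≤ m := by
    intro i
    refine ⟨Nat.findGreatest (fun h : ℕ => p (i + h) - p (i - h + 1) ≤ N - 2) N, fun h => ⟨?_, ?_⟩⟩
    · intro hC
      exact Nat.le_findGreatest (by have := hCbd i h hC; omega) hC
    · intro hle
      refine hCdown i _ _ hle ?_
      exact Nat.findGreatest_spec (P := fun h : ℕ => p (i + h) - p (i - h + 1) ≤ N - 2)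
        (Nat.zero_le N) (hC0 i)
  choose θ hθ using hth
  have hC : ∀ i, p (i + θ i) - p (i - θ i + 1) ≤ N - 2 := fun i => (hθ i _).2 le_rfl
  have h2θ : ∀ i, 2 * θ i ≤ N := fun i => hCbd i _ (hC i)
  have h6 : ∀ i, (N : ℤ) - 1 ≤ p (i + θ i + 1) - p (i - θ i) := by
    intro i
    by_contra hcon
    have hh : p (i + ((θ i + 1 : ℕ) : ℤ)) - p (i - ((θ i + 1 : ℕ) : ℤ) + 1) ≤ N - 2 := by
      have e1 : i + ((θ i + 1 : ℕ) : ℤ) = i + θ i + 1 := by push_cast; ring
      have e2 : i - ((θ i + 1 : ℕ) : ℤ) + 1 = i - θ i := by push_cast; ring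
      rw [e1, e2]
      omega
    have := (hθ i _).1 hh
    omega
  have hCuse : ∀ (i : ℤ) (m : ℕ), m ≤ θ i → p (i + m) - p (i - m + 1) ≤ N - 2 :=
    fun i m hm => (hθ i m).2 hm
  have hθper : ∀ i, θ (i + N) = θ i := by
    intro i
    have key : ∀ h : ℕ, h ≤ θ (i + N) ↔ h ≤ θ i := by
      intro h
      rw [← hθ, ← hθ]
      have e1 : i + N + (h : ℤ) = (i + h) + N := by ring
      have e2 : i + N - (h : ℤ) + 1 = (i - h + 1) + N := by ring
      rw [e1, e2, hper, hper]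
      constructor <;> intro hh <;> omega
    exact le_antisymm ((key _).1 le_rfl) ((key _).2 le_rfl)
  refine ⟨r, θ, hr1, hr2, hrper, hθper, fun i => Or.inr (hC i), h6, ?_, ?_, ?_⟩
  · intro i
    have b6 := h6 i
    have bC := hC i
    have b2 := h2θ i
    constructor
    · by_contra hcon
      push Not at hcon
      have hc := hCuse (i + θ i) (2 * θ i + 1) (by omega)
      have e1 : i + (θ i : ℤ) - ((2 * θ i + 1 : ℕ) : ℤ) + 1 = i - θ i := by push_cast; ring
      rw [e1] at hc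
      have a1 := hp (show i + (θ i : ℤ) + 1 ≤ i + (θ i : ℤ) + ((2 * θ i + 1 : ℕ) : ℤ) by
        push_cast; omega)
      omega
    · by_contra hcon
      push Not at hcon
      have hc := hCuse (i + θ i) (N - 2 * θ i + 1) (by omega)
      have e1 : i + (θ i : ℤ) + ((N - 2 * θ i + 1 : ℕ) : ℤ) = (i - θ i + 1) + N := by omega
      rw [e1, hper] at hc
      have a1 := hp (show i + (θ i : ℤ) - ((N - 2 * θ i + 1 : ℕ) : ℤ) + 1 ≤ i + (θ i : ℤ) by omega)
      omega
  · intro i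
    have b6 := h6 i
    have bC := hC i
    have b2 := h2θ i
    constructor
    · by_contra hcon
      push Not at hcon
      have hc := hCuse (i - θ i) (2 * θ i + 1) (by omega)
      have e1 : i - (θ i : ℤ) + ((2 * θ i + 1 : ℕ) : ℤ) = i + θ i + 1 := by push_cast; ring
      rw [e1] at hc
      have a1 := hp (show i - (θ i : ℤ) - ((2 * θ i + 1 : ℕ) : ℤ) + 1 ≤ i - (θ i : ℤ) by
        push_cast; omega)
      omega
    · by_contra hcon
      push Not at hcon
      have hc := hCuse (i - θ i) (N - 2 * θ i + 1) (by omega)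
      have e1 : i + (θ i : ℤ) = (i - (θ i : ℤ) - ((N - 2 * θ i + 1 : ℕ) : ℤ) + 1) + N := by omega
      have e2 : p (i + (θ i : ℤ)) = p (i - (θ i : ℤ) - ((N - 2 * θ i + 1 : ℕ) : ℤ) + 1) + t := by
        conv_lhs => rw [e1]
        exact hper _
      have a1 := hp (show i - (θ i : ℤ) + 1 ≤ i - (θ i : ℤ) + ((N - 2 * θ i + 1 : ℕ) : ℤ) by omega)
      omega
  · intro i hi
    have b6 := h6 i
    rw [hi] at b6
    simp only [Nat.cast_zero, add_zero, sub_zero] at b6
    obtain ⟨k, hk1, hk2⟩ := hcov (p i + N - 1)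
    have hki : i < k := by
      by_contra hcon
      push Not at hcon
      have := hp hcon
      omega
    have a1 := hp (show i + 1 ≤ k by omega)
    have heq : p (i + 1) = p i + N - 1 := by omega
    have ht2 : (t : ℤ) + 3 = 2 * N := by
      rcases h1 i (i + 1) (by omega) (by omega) with h | h
      · omega
      · rw [hper] at h
        omega
    have hri : r i = i := huniq i _ _ (hr1 i) (hr2 i) (by omega) (by omega)
    have hri1 : r (i + 1) = i + N := by
      refine huniq (i + 1) _ _ (hr1 _) (hr2 _) ?_ ?_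
      · rw [hper]; omega
      · have e : i + (N : ℤ) + 1 = (i + 1) + N := by ring
        rw [e, hper]; omega
    refine ⟨by exact_mod_cast ht2, by rw [hri, hri1, heq]; ring, ?_, ?_⟩
    · by_contra hcon
      push Not at hcon
      have hc := hCuse (i + 1) 2 (by omega)
      have e2 : i + 1 - ((2 : ℕ) : ℤ) + 1 = i := by push_cast; ring
      rw [e2] at hc
      have a2 := hp (show i + 1 ≤ i + 1 + ((2 : ℕ) : ℤ) by omega)
      omega
    · by_contra hcon
      push Not at hcon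
      have hc := hCuse (i - 1) 2 (by omega)
      have e2 : i - 1 + ((2 : ℕ) : ℤ) = i + 1 := by push_cast; ring
      rw [e2] at hc
      have a2 := hp (show i - 1 - ((2 : ℕ) : ℤ) + 1 ≤ i by omega)
      omega

theorem kn_theta (N t : ℕ) (hN : 3 ≤ N) (ht : 2 * N ≤ t + 3) (p : ℤ → ℤ)
    (hp : Monotone p) (hper : ∀ k, p (k + N) = p k + t)
    (h1 : ∀ k l, k < l → l < k + N → p l - p k ≤ N - 2 ∨ p (k + N) - p l ≤ N - 2)
    (hcov : ∀ x : ℤ, ∃ k, p k ≤ x ∧ x ≤ p k + N - 2) :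
    ∃ (r : ℤ → ℤ) (θ : ℤ → ℕ),
      (∀ k, p (r k) ≤ p k + N - 2) ∧ (∀ k, p k + N - 2 < p (r k + 1)) ∧
      (∀ k, r (k + N) = r k + N) ∧
      (∀ i, θ (i + N) = θ i) ∧
      (∀ i, θ i = 0 ∨ p (i + θ i) - p (i - θ i + 1) ≤ N - 2) ∧
      (∀ i, (N : ℤ) - 1 ≤ p (i + θ i + 1) - p (i - θ i)) ∧
      (∀ i, θ (i + θ i) ≤ 2 * θ i ∧ θ (i + θ i) + 2 * θ i ≤ N) ∧
      (∀ i, θ (i - θ i) ≤ 2 * θ i ∧ θ (i - θ i) + 2 * θ i ≤ N) ∧
      (∀ i, θ i = 0 → t + 3 = 2 * N ∧ r (i + 1) - p (i + 1) = r i - p i + 1 ∧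
        θ (i + 1) ≤ 1 ∧ θ (i - 1) ≤ 1) := by
  have hN3 : (3 : ℤ) ≤ N := by exact_mod_cast hN
  have hperm : ∀ (m : ℕ) (k : ℤ), p (k + m * N) = p k + m * t := by
    intro m
    induction m with
    | zero => intro k; simp
    | succ m ih =>
      intro k
      have e : k + ((m + 1 : ℕ) : ℤ) * N = (k + m * N) + N := by push_cast; ring
      rw [e, hper, ih]
      push_cast
      ring
  refine kn_theta_int N t hN ht p hp hper ?_ hcov
  intro k l hkl hlk
  set m := k.natAbs with hm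
  have hm1 : -k ≤ m := by omega
  have hm2 : (m : ℤ) ≤ m * N := by nlinarith
  obtain ⟨k', hk'⟩ := Int.eq_ofNat_of_zero_le (show 0 ≤ k + m * N by omega)
  obtain ⟨l', hl'⟩ := Int.eq_ofNat_of_zero_le (show 0 ≤ l + m * N by omega)
  have hh := h1 k' l' (by omega) (by omega)
  have e1 : p k' = p k + m * t := by rw [← hperm, hk']
  have e2 : p l' = p l + m * t := by rw [← hperm, hl']
  have e3 : p ((k' : ℤ) + N) = p (k + N) + m * t := by
    rw [← hperm]
    congr 1
    rw [← hk']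
    ring
  rw [e3, e2, e1] at hh
  rcases hh with hh | hh
  · left; linarith
  · right; linarith
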