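import Mathlib

/-!
# The potential argument
-/

theorem kn_exists_E (η : ℤ → ℤ) : ∃ E : ℤ → ℤ, ∀ i, E i = E (i - 1) + η i := by
  refine ⟨fun i => ∑ j ∈ Finset.Ioc 0 i, η j - ∑ j ∈ Finset.Ioc i 0, η j, fun i => ?_⟩
  show (∑ j ∈ Finset.Ioc 0 i, η j - ∑ j ∈ Finset.Ioc i 0, η j) =
    (∑ j ∈ Finset.Ioc 0 (i - 1), η j - ∑ j ∈ Finset.Ioc (i - 1) 0, η j) + η i
  rcases le_or_gt i 0 with h | h
  · have h1 : Finset.Ioc 0 i = (∅ : Finset ℤ) := Finset.Ioc_eq_empty (by omega)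
    have h2 : Finset.Ioc 0 (i - 1) = (∅ : Finset ℤ) := Finset.Ioc_eq_empty (by omega)
    have h3 : Finset.Ioc (i - 1) 0 = insert i (Finset.Ioc i 0) := by
      ext x; simp only [Finset.mem_Ioc, Finset.mem_insert]; omega
    rw [h1, h2, h3, Finset.sum_insert (by simp)]
    simp
  · have h1 : Finset.Ioc i 0 = (∅ : Finset ℤ) := Finset.Ioc_eq_empty (by omega)
    have h2 : Finset.Ioc (i - 1) 0 = (∅ : Finset ℤ) := Finset.Ioc_eq_empty (by omega)
    have h3 : Finset.Ioc 0 i = insert i (Finset.Ioc 0 (i - 1)) := by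
      ext x; simp only [Finset.mem_Ioc, Finset.mem_insert]; omega
    rw [h1, h2, h3, Finset.sum_insert (by simp)]
    simp
    ring

theorem kn_potential (N t : ℕ) (hN : 3 ≤ N) (ht : 2 * N ≤ t + 3) (η : ℤ → ℤ) (θ : ℤ → ℕ)
    (hη : ∀ k, η (k + N) = η k + N - t)
    (hθp : ∀ i, θ (i + N) = θ i)
    (hI : ∀ i, (θ i : ℤ) - (θ i : ℤ) ^ 2 ≤
      ∑ j ∈ Finset.range (θ i), (η (i + 1 + j) - η (i - j)))
    (hpl : ∀ i, θ (i + θ i) ≤ 2 * θ i ∧ θ (i + θ i) + 2 * θ i ≤ N)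
    (hmi : ∀ i, θ (i - θ i) ≤ 2 * θ i ∧ θ (i - θ i) + 2 * θ i ≤ N)
    (h0 : ∀ i, θ i = 0 → t + 3 = 2 * N ∧ η (i + 1) = η i + 1 ∧
        θ (i + 1) ≤ 1 ∧ θ (i - 1) ≤ 1) :
    t + 3 = 2 * N ∧ 3 ∣ N := by
  obtain ⟨E, hE⟩ := kn_exists_E η
  have hA : ∀ (i : ℤ) (h : ℕ), E (i + h) + E (i - h) - 2 * E i =
      ∑ j ∈ Finset.range h, (η (i + 1 + j) - η (i - j)) := by
    intro i h
    induction h with
    | zero => simp; ring
    | succ h ih =>
      rw [Finset.sum_range_succ, ← ih]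
      have e1 := hE (i + h + 1)
      have e2 := hE (i - h)
      rw [show i + (h : ℤ) + 1 - 1 = i + h by ring] at e1
      have e3 : i + ((h + 1 : ℕ) : ℤ) = i + h + 1 := by push_cast; ring
      have e4 : i - ((h + 1 : ℕ) : ℤ) = i - h - 1 := by push_cast; ring
      have e5 : i + 1 + (h : ℤ) = i + h + 1 := by ring
      rw [e3, e4, e5]
      linarith
  set H : ℤ := E N - E 0 with hH
  have hB : ∀ i : ℤ, E (i + N) = E i + H + ((N : ℤ) - t) * i := by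
    intro i
    induction i using Int.induction_on with
    | zero => simp [hH]
    | succ i ih =>
      have e1 := hE ((i : ℤ) + 1 + N)
      have e2 := hE ((i : ℤ) + 1)
      have e3 := hη ((i : ℤ) + 1)
      rw [show (i : ℤ) + 1 + N - 1 = i + N by ring] at e1
      rw [show (i : ℤ) + 1 - 1 = i by ring] at e2
      rw [e1, e2, e3, ih]
      ring
    | pred i ih =>
      have e1 := hE (-(i : ℤ) + N)
      have e2 := hE (-(i : ℤ))
      have e3 := hη (-(i : ℤ))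
      rw [show -(i : ℤ) + N - 1 = -(i : ℤ) - 1 + N by ring] at e1
      nlinarith [ih, e1, e2, e3]
  set Ψ : ℤ → ℤ := fun i => 2 * N * E i + ((t : ℤ) - N) * i ^ 2 - (2 * H + ((t : ℤ) - N) * N) * i
    + ((θ i : ℤ) ^ 2 - N * θ i) with hΨ
  have hper : ∀ i, Ψ (i + N) = Ψ i := by
    intro i
    simp only [hΨ]
    rw [hB, hθp]
    ring
  have hNpos : (0 : ℤ) < N := by exact_mod_cast (by omega : 0 < N)
  have hperk : ∀ (k : ℤ) i, Ψ (i + k * N) = Ψ i := by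
    intro k
    induction k using Int.induction_on with
    | zero => intro i; simp
    | succ k ih =>
      intro i
      rw [show i + ((k : ℤ) + 1) * N = (i + N) + k * N by ring, ih, hper]
    | pred k ih =>
      intro i
      have := ih (i - N)
      rw [show i + (-(k : ℤ) - 1) * N = (i - N) + -(k : ℤ) * N by ring, this]
      have h2 := hper (i - N)
      rw [show i - (N : ℤ) + N = i by ring] at h2
      exact h2.symm
  -- a maximum point
  obtain ⟨i0, hi0⟩ : ∃ i0, ∀ k, Ψ k ≤ Ψ i0 := by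
    have hne : (Finset.Ico (0 : ℤ) N).Nonempty := ⟨0, by simp; omega⟩
    obtain ⟨i0, _, h2⟩ := Finset.exists_max_image (Finset.Ico (0 : ℤ) N) Ψ hne
    refine ⟨i0, fun k => ?_⟩
    have e1 : Ψ k = Ψ (k % N) := by
      have := hperk (k / N) (k % N)
      rw [← this]
      congr 1
      have := Int.emod_add_mul_ediv k N
      linarith [mul_comm (N : ℤ) (k / N)]
    rw [e1]
    apply h2
    rw [Finset.mem_Ico]
    exact ⟨Int.emod_nonneg _ hNpos.ne', Int.emod_lt_of_pos _ hNpos⟩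
  -- (a)
  have ha : ∀ i, (∀ k, Ψ k ≤ Ψ i) → θ i ≠ 0 := by
    intro i hmax hz
    obtain ⟨h1, h2, h3, h4⟩ := h0 i hz
    have m1 := hmax (i + 1)
    have m2 := hmax (i - 1)
    have e1 := hE (i + 1)
    have e2 := hE i
    rw [show i + 1 - 1 = i by ring] at e1
    have h1' : (t : ℤ) = 2 * N - 3 := by omega
    have p1 : (1 : ℤ) - N ≤ (θ (i + 1) : ℤ) ^ 2 - N * θ (i + 1) := by
      rcases Nat.le_one_iff_eq_zero_or_eq_one.mp h3 with h | h <;> rw [h] <;> push_cast <;> linarith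
    have p2 : (1 : ℤ) - N ≤ (θ (i - 1) : ℤ) ^ 2 - N * θ (i - 1) := by
      rcases Nat.le_one_iff_eq_zero_or_eq_one.mp h4 with h | h <;> rw [h] <;> push_cast <;> linarith
    have hN3 : (3 : ℤ) ≤ N := by exact_mod_cast hN
    have key : Ψ (i + 1) + Ψ (i - 1) - 2 * Ψ i = 2 * N * (E (i + 1) + E (i - 1) - 2 * E i)
        + 2 * ((t : ℤ) - N) + ((θ (i + 1) : ℤ) ^ 2 - N * θ (i + 1))
        + ((θ (i - 1) : ℤ) ^ 2 - N * θ (i - 1)) := by
      simp only [hΨ]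
      rw [hz]
      push_cast
      ring
    have hEE : E (i + 1) + E (i - 1) - 2 * E i = 1 := by linarith
    rw [hEE] at key
    linarith
  -- (b)
  have hb : ∀ i, (∀ k, Ψ k ≤ Ψ i) → t + 3 = 2 * N ∧ (∀ k, Ψ k ≤ Ψ (i + θ i)) ∧
      (∀ k, Ψ k ≤ Ψ (i - θ i)) ∧ (θ (i + θ i) = 2 * θ i ∨ θ (i + θ i) + 2 * θ i = N) ∧
      (θ (i - θ i) = 2 * θ i ∨ θ (i - θ i) + 2 * θ i = N) := by
    intro i hmax
    have hz := ha i hmax
    have m1 := hmax (i + θ i)
    have m2 := hmax (i - θ i)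
    obtain ⟨p1, p2⟩ := hpl i
    obtain ⟨q1, q2⟩ := hmi i
    have hIi := hI i
    rw [← hA i (θ i)] at hIi
    have key : Ψ (i + θ i) + Ψ (i - θ i) - 2 * Ψ i =
        2 * N * (E (i + θ i) + E (i - θ i) - 2 * E i - ((θ i : ℤ) - (θ i : ℤ) ^ 2))
        + 2 * ((t : ℤ) + 3 - 2 * N) * (θ i : ℤ) ^ 2
        + ((2 * (θ i : ℤ) - θ (i + θ i)) * (N - (θ (i + θ i) + 2 * (θ i : ℤ))))
        + ((2 * (θ i : ℤ) - θ (i - θ i)) * (N - (θ (i - θ i) + 2 * (θ i : ℤ)))) := by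
      simp only [hΨ]
      ring
    have t1 : 0 ≤ 2 * N * (E (i + θ i) + E (i - θ i) - 2 * E i - ((θ i : ℤ) - (θ i : ℤ) ^ 2)) := by
      apply mul_nonneg (by linarith)
      linarith
    have hx : (1 : ℤ) ≤ (θ i : ℤ) := by exact_mod_cast Nat.one_le_iff_ne_zero.mpr hz
    have t2 : 0 ≤ 2 * ((t : ℤ) + 3 - 2 * N) * (θ i : ℤ) ^ 2 := by
      apply mul_nonneg
      · have : (2 * N : ℤ) ≤ t + 3 := by exact_mod_cast ht
        linarith
      · positivity
    have p1' : (0 : ℤ) ≤ 2 * (θ i : ℤ) - θ (i + θ i) := by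
      have : ((θ (i + θ i) : ℕ) : ℤ) ≤ 2 * (θ i : ℤ) := by exact_mod_cast p1
      linarith
    have p2' : (0 : ℤ) ≤ N - (θ (i + θ i) + 2 * (θ i : ℤ)) := by
      have : ((θ (i + θ i) : ℕ) : ℤ) + 2 * (θ i : ℤ) ≤ N := by exact_mod_cast p2
      linarith
    have q1' : (0 : ℤ) ≤ 2 * (θ i : ℤ) - θ (i - θ i) := by
      have : ((θ (i - θ i) : ℕ) : ℤ) ≤ 2 * (θ i : ℤ) := by exact_mod_cast q1
      linarith
    have q2' : (0 : ℤ) ≤ N - (θ (i - θ i) + 2 * (θ i : ℤ)) := by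
      have : ((θ (i - θ i) : ℕ) : ℤ) + 2 * (θ i : ℤ) ≤ N := by exact_mod_cast q2
      linarith
    have t3 := mul_nonneg p1' p2'
    have t4 := mul_nonneg q1' q2'
    have z2 : 2 * ((t : ℤ) + 3 - 2 * N) * (θ i : ℤ) ^ 2 = 0 := by linarith
    have z3 : (2 * (θ i : ℤ) - θ (i + θ i)) * (N - (θ (i + θ i) + 2 * (θ i : ℤ))) = 0 := by linarith
    have z4 : (2 * (θ i : ℤ) - θ (i - θ i)) * (N - (θ (i - θ i) + 2 * (θ i : ℤ))) = 0 := by linarith
    have w1 : Ψ (i + θ i) = Ψ i := by linarith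
    have w2 : Ψ (i - θ i) = Ψ i := by linarith
    refine ⟨?_, fun k => by rw [w1]; exact hmax k, fun k => by rw [w2]; exact hmax k, ?_, ?_⟩
    · have hne : (θ i : ℤ) ^ 2 ≠ 0 := by positivity
      have := (mul_eq_zero.mp z2).resolve_right hne
      omega
    · rcases mul_eq_zero.mp z3 with h | h
      · left; omega
      · right; omega
    · rcases mul_eq_zero.mp z4 with h | h
      · left; omega
      · right; omega
  obtain ⟨b1, b2, b3, b4, b5⟩ := hb i0 hi0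
  refine ⟨b1, ?_⟩
  have p := hpl i0
  have q := hmi i0
  obtain ⟨c1, c2, c3, c4, c5⟩ := hb (i0 - θ i0) b3
  have d := ha _ b3
  have pp := hpl (i0 - θ i0)
  have qq := hmi (i0 - θ i0)
  -- both neighbours have the same value
  have hsame : θ (i0 + θ i0) = θ (i0 - θ i0) := by omega
  rcases b5 with h | h
  · have e : i0 - (θ i0 : ℤ) + (θ (i0 - θ i0) : ℤ) = i0 + θ i0 := by
      rw [h]; push_cast; ring
    rw [e] at c4
    rw [hsame] at c4
    exact ⟨θ (i0 - θ i0), by omega⟩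
  · have e : i0 - (θ i0 : ℤ) - (θ (i0 - θ i0) : ℤ) + N = i0 + θ i0 := by
      have : ((θ (i0 - θ i0) : ℕ) : ℤ) + 2 * (θ i0 : ℤ) = N := by exact_mod_cast h
      linarith
    have e2 := hθp (i0 - (θ i0 : ℤ) - (θ (i0 - θ i0) : ℤ))
    rw [e] at e2
    rw [← e2, hsame] at c5
    exact ⟨θ (i0 - θ i0), by omega⟩
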