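import Mathlib
import Pool.Agent.H670.Icc.Defs

/-!
# Reducing an integer interval colouring of the cube modulo `b`
-/

namespace ICC670

/-- a property invariant under flips of one coordinate propagates to the whole cube -/
theorem q1_conn (n : ℕ) (P : (Fin n → Bool) → Prop)
    (hP : ∀ v k, P v → P (Function.update v k (!v k))) (v w : Fin n → Bool) (hv : P v) : P w := by
  classical
  have key : ∀ T : Finset (Fin n), P (fun k => if k ∈ T then !v k else v k) := by
    intro T
    induction T using Finset.induction_on with
    | empty => simpa using hv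
    | insert k T hk ih =>
      have h := hP _ k ih
      have heq : (Function.update (fun k => if k ∈ T then !v k else v k) k
          (!(fun k => if k ∈ T then !v k else v k) k)) = (fun j => if j ∈ insert k T then !v j else v j) := by
        funext j
        by_cases hj : j = k
        · subst hj
          simp [hk]
        · rw [Function.update_of_ne hj]
          simp [Finset.mem_insert, hj]
      rw [heq] at h
      exact h
  have h := key (Finset.univ.filter (fun k => v k ≠ w k))
  have heq : (fun k => if k ∈ Finset.univ.filter (fun k => v k ≠ w k) then !v k else v k) = w := by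
    funext k
    by_cases hk : v k = w k
    · simp [hk]
    · simp only [Finset.mem_filter, Finset.mem_univ, true_and, ne_eq, hk, not_false_eq_true, if_true]
      cases hv' : v k <;> cases hw' : w k <;> simp_all
  rw [heq] at h
  exact h

theorem q_reduce (n b : ℕ) (hn : 1 ≤ n) (hb : n ≤ b) (X : (Fin n → Bool) → Fin n → ℤ)
    (S : (Fin n → Bool) → ℤ)
    (hX : ∀ v k, X (Function.update v k (!v k)) k = X v k)
    (hinj : ∀ v k l, X v k = X v l → k = l)
    (hS : ∀ v k, S v ≤ X v k ∧ X v k < S v + n)
    (A B : ℤ) (hA : ∃ v k, X v k = A) (hB : ∃ v k, X v k = B) (hAB : (b : ℤ) ≤ B - A + 1) :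
    QFeas n b := by
  have hbpos : 0 < b := by omega
  haveI : NeZero b := ⟨hbpos.ne'⟩
  have claim : ∀ x : ℤ, A ≤ x → x ≤ B → ∃ v k, X v k = x := by
    intro x hAx hxB
    by_contra hno
    push Not at hno
    have hout : ∀ v, ¬ (S v ≤ x ∧ x < S v + n) := by
      intro v hv
      have hsub : Finset.univ.image (X v) ⊆ Finset.Ico (S v) (S v + n) := by
        intro y hy
        rw [Finset.mem_image] at hy
        obtain ⟨k, _, rfl⟩ := hy
        rw [Finset.mem_Ico]
        exact hS v k
      have hcard : (Finset.Ico (S v) (S v + n)).card ≤ (Finset.univ.image (X v)).card := by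
        rw [Finset.card_image_of_injective _ (fun k l h => hinj v k l h), Finset.card_univ, Fintype.card_fin, Int.card_Ico]
        simp
      have heq := Finset.eq_of_subset_of_card_le hsub hcard
      have hx : x ∈ Finset.univ.image (X v) := by
        rw [heq, Finset.mem_Ico]; exact hv
      rw [Finset.mem_image] at hx
      obtain ⟨k, _, hk⟩ := hx
      exact hno v k hk
    have hflip : ∀ v k, (S v + n ≤ x) → (S (Function.update v k (!v k)) + n ≤ x) := by
      intro v k hv
      have h1 := (hS (Function.update v k (!v k)) k).1
      rw [hX] at h1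
      have h2 := (hS v k).2
      have h3 := hout (Function.update v k (!v k))
      by_contra hcon
      apply h3
      constructor
      · linarith
      · linarith
    obtain ⟨vA, kA, hvA⟩ := hA
    obtain ⟨vB, kB, hvB⟩ := hB
    have hneA : A ≠ x := by rw [← hvA]; exact hno vA kA
    have hltA : A < x := lt_of_le_of_ne hAx hneA
    have hlowA : S vA + n ≤ x := by
      by_contra hcon
      apply hout vA
      have := (hS vA kA).1
      rw [hvA] at this
      exact ⟨by linarith, by linarith⟩
    have hlowB := q1_conn n (fun v => S v + n ≤ x) hflip vA vB hlowA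
    have h4 := (hS vB kB).2
    rw [hvB] at h4
    linarith
  refine ⟨fun v k => ((X v k : ℤ) : ZMod b), fun v => ((S v : ℤ) : ZMod b), ?_, ?_, ?_, ?_⟩
  · intro v k
    simp only [hX]
  · intro v k l h
    apply hinj v k l
    have h1 : (b : ℤ) ∣ X v l - X v k := (ZMod.intCast_eq_intCast_iff_dvd_sub _ _ _).mp h
    have h2 : |X v l - X v k| < (b : ℤ) := by
      have h3 := hS v k
      have h4 := hS v l
      have h5 : (n : ℤ) ≤ b := by exact_mod_cast hb
      rw [abs_lt]
      constructor <;> linarith [h3.1, h3.2, h4.1, h4.2]
    have h6 := Int.eq_zero_of_abs_lt_dvd h1 h2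
    linarith
  · intro v k
    have h3 := hS v k
    refine ⟨(X v k - S v).toNat, ?_, ?_⟩
    · have : ((X v k - S v).toNat : ℤ) < (n : ℤ) := by
        rw [Int.toNat_of_nonneg (by linarith [h3.1])]
        linarith [h3.2]
      exact_mod_cast this
    · have h7 : (((X v k - S v).toNat : ℤ) : ZMod b) = ((X v k - S v : ℤ) : ZMod b) := by
        rw [Int.toNat_of_nonneg (by linarith [h3.1])]
      rw [Int.cast_natCast] at h7
      simp only
      rw [h7]
      push_cast
      ring
  · intro c
    have hbz : (0 : ℤ) < b := by exact_mod_cast hbpos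
    obtain ⟨v, k, hvk⟩ := claim (A + ((c.val : ℤ) - A) % (b : ℤ)) (by
        have := Int.emod_nonneg ((c.val : ℤ) - A) hbz.ne'
        linarith) (by
        have := Int.emod_lt_of_pos ((c.val : ℤ) - A) hbz
        linarith)
    refine ⟨v, k, ?_⟩
    simp only
    rw [hvk]
    have h8 : (((((c.val : ℤ) - A) % (b : ℤ) : ℤ)) : ZMod b) = (((c.val : ℤ) - A : ℤ) : ZMod b) := by
      rw [ZMod.intCast_mod]
    push_cast at h8 ⊢
    rw [h8]
    simp

end ICC670
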