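import Mathlib

/-!
# Functions on the oriented edges of the cube with zero sums around squares are gradients
-/

namespace CubeGradientAux

/-- agree with `v` below `m`, `false` from `m` on -/
def tr {n : ℕ} (v : Fin n → Bool) (m : ℕ) : Fin n → Bool := fun i => if i.val < m then v i else false

/-- partial sums -/
def P {n : ℕ} (δ : (Fin n → Bool) → Fin n → ℤ) (m : ℕ) (v : Fin n → Bool) : ℤ :=
  ∑ j : Fin n, if j.val < m ∧ v j = true then δ (tr v j.val) j else 0

lemma P_zero {n : ℕ} (δ : (Fin n → Bool) → Fin n → ℤ) (v : Fin n → Bool) : P δ 0 v = 0 := by
  simp [P]

lemma P_succ {n : ℕ} (δ : (Fin n → Bool) → Fin n → ℤ) (v : Fin n → Bool) (m : ℕ) (hm : m < n) :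
    P δ (m + 1) v = P δ m v + if v ⟨m, hm⟩ = true then δ (tr v m) ⟨m, hm⟩ else 0 := by
  unfold P
  have h1 : (if v ⟨m, hm⟩ = true then δ (tr v m) ⟨m, hm⟩ else 0)
      = ∑ j : Fin n, if j = ⟨m, hm⟩ then (if v j = true then δ (tr v j.val) j else 0) else 0 := by
    rw [Finset.sum_ite_eq' Finset.univ (⟨m, hm⟩ : Fin n)]
    simp
  rw [h1, ← Finset.sum_add_distrib]
  refine Finset.sum_congr rfl fun j _ => ?_
  rcases lt_trichotomy j.val m with h | h | h
  · have h2 : j ≠ ⟨m, hm⟩ := by
      intro h3; rw [h3] at h; exact lt_irrefl _ h
    have h4 : j.val < m + 1 := by omega
    simp [h, h2, h4]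
  · have h2 : j = ⟨m, hm⟩ := Fin.ext h
    subst h2
    simp
  · have h2 : j ≠ ⟨m, hm⟩ := by
      intro h3; rw [h3] at h; exact lt_irrefl _ h
    have h4 : ¬ j.val < m + 1 := by omega
    have h5 : ¬ j.val < m := by omega
    simp [h2, h4, h5]

end CubeGradientAux

open CubeGradientAux in
theorem cube_gradient (n : ℕ) (δ : (Fin n → Bool) → Fin n → ℤ)
    (hanti : ∀ v k, δ (Function.update v k (!v k)) k = - δ v k)
    (hsq : ∀ v k l, k ≠ l → δ v k + δ (Function.update v k (!v k)) l =
      δ v l + δ (Function.update v l (!v l)) k) :
    ∃ S : (Fin n → Bool) → ℤ, ∀ v k, S (Function.update v k (!v k)) - S v = δ v k := by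
  have key : ∀ (v : Fin n → Bool) (k : Fin n), v k = false → ∀ m, m ≤ n →
      P δ m (Function.update v k true) - P δ m v = if k.val < m then δ (tr v m) k else 0 := by
    intro v k hvk m
    induction m with
    | zero => intro _; simp [P_zero]
    | succ m ih =>
      intro hm
      have hm' : m < n := hm
      have ih' := ih (le_of_lt hm')
      rw [P_succ δ _ m hm', P_succ δ _ m hm']
      rcases lt_trichotomy m k.val with h | h | h
      · have h1 : (⟨m, hm'⟩ : Fin n) ≠ k := by
          intro h3; rw [← h3] at h; exact lt_irrefl _ h
        have h2 : tr (Function.update v k true) m = tr v m := by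
          funext i
          unfold tr
          by_cases hi : i.val < m
          · have : i ≠ k := by rintro rfl; omega
            simp [hi, this]
          · simp [hi]
        have h3 : ¬ k.val < m := by omega
        have h4 : ¬ k.val < m + 1 := by omega
        rw [if_neg h3] at ih'
        rw [if_neg h4, Function.update_of_ne h1, h2]
        linarith
      · have h1 : (⟨m, hm'⟩ : Fin n) = k := Fin.ext h
        have h2 : tr (Function.update v k true) m = tr v m := by
          funext i
          unfold tr
          by_cases hi : i.val < m
          · have : i ≠ k := by rintro rfl; omega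
            simp [hi, this]
          · simp [hi]
        have h3 : ¬ k.val < m := by omega
        have h4 : k.val < m + 1 := by omega
        have h5 : tr v (m + 1) = tr v m := by
          funext i
          unfold tr
          by_cases hi : i.val < m
          · have : i.val < m + 1 := by omega
            simp [hi, this]
          · by_cases hi2 : i.val < m + 1
            · have : i = k := Fin.ext (by omega)
              subst this
              simp [hvk]
            · simp [hi, hi2]
        rw [if_neg h3] at ih'
        rw [if_pos h4, h1, Function.update_self, hvk, h2, h5]
        simp only [if_true, Bool.false_eq_true, if_false]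
        linarith
      · have h1 : (⟨m, hm'⟩ : Fin n) ≠ k := by
          intro h3; rw [← h3] at h; exact lt_irrefl _ h
        have h2 : tr (Function.update v k true) m = Function.update (tr v m) k true := by
          funext i
          by_cases hik : i = k
          · subst hik
            simp [tr, h]
          · simp [tr, hik]
        have h4 : k.val < m + 1 := by omega
        rw [if_pos h] at ih'
        rw [if_pos h4, Function.update_of_ne h1]
        by_cases hvm : v ⟨m, hm'⟩ = true
        · have h5 : tr v (m + 1) = Function.update (tr v m) ⟨m, hm'⟩ true := by
            funext i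
            by_cases him : i = ⟨m, hm'⟩
            · subst him
              simp [tr, hvm]
            · have him' : i.val ≠ m := fun h6 => him (Fin.ext h6)
              rw [Function.update_of_ne him]
              unfold tr
              by_cases hi : i.val < m
              · have : i.val < m + 1 := by omega
                simp [hi, this]
              · have : ¬ i.val < m + 1 := by omega
                simp [hi, this]
          have h6 := hsq (tr v m) k ⟨m, hm'⟩ (Ne.symm h1)
          have h7 : tr v m k = false := by simp [tr, hvk]
          have h8 : tr v m ⟨m, hm'⟩ = false := by simp [tr]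
          rw [h7, h8, Bool.not_false] at h6
          rw [if_pos hvm, if_pos hvm, h2, h5]
          linarith
        · have hvm' : v ⟨m, hm'⟩ = false := by simpa using hvm
          have h5 : tr v (m + 1) = tr v m := by
            funext i
            unfold tr
            by_cases hi : i.val < m
            · have : i.val < m + 1 := by omega
              simp [hi, this]
            · by_cases hi2 : i.val < m + 1
              · have : i = ⟨m, hm'⟩ := Fin.ext (by simp; omega)
                subst this
                simp [hvm']
              · simp [hi, hi2]
          rw [if_neg hvm, if_neg hvm, h5]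
          linarith
  have key2 : ∀ (v : Fin n → Bool) (k : Fin n), v k = false →
      P δ n (Function.update v k true) - P δ n v = δ v k := by
    intro v k hvk
    have h := key v k hvk n le_rfl
    have h2 : tr v n = v := by
      funext i
      simp [tr]
    rw [if_pos k.isLt, h2] at h
    exact h
  refine ⟨P δ n, fun v k => ?_⟩
  cases hvk : v k with
  | false => simpa using key2 v k hvk
  | true =>
    have h1 := key2 (Function.update v k false) k (by simp)
    have h2 : Function.update (Function.update v k false) k true = v := by
      rw [Function.update_idem, ← hvk, Function.update_eq_self]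
    rw [h2] at h1
    have h3 := hanti v k
    rw [hvk, Bool.not_true] at h3
    rw [Bool.not_true]
    linarith
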