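import Mathlib
import Pool.Agent.H670.Icc.Defs
import Pool.Agent.H670.Icc.Q1
import Pool.Agent.H670.Icc.Q2a

/-!
# Lifting interval cyclic colourings of the cube to the integers
-/

namespace ICC670

theorem q2b_flip_flip {n : ℕ} (v : Fin n → Bool) (k : Fin n) :
    Function.update (Function.update v k (!v k)) k (!(Function.update v k (!v k)) k) = v := by
  rw [Function.update_idem, Function.update_self, Bool.not_not, Function.update_eq_self]

theorem q2b_flip_comm {n : ℕ} (v : Fin n → Bool) {k l : Fin n} (h : k ≠ l) :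
    Function.update (Function.update v k (!v k)) l (!(Function.update v k (!v k)) l) =
      Function.update (Function.update v l (!v l)) k (!(Function.update v l (!v l)) k) := by
  rw [Function.update_of_ne h.symm, Function.update_of_ne h, Function.update_comm h]

theorem q2b_conn {n : ℕ} (P : (Fin n → Bool) → Prop) (h0 : P fun _ => false)
    (hs : ∀ v k, P v → P (Function.update v k (!v k))) (v : Fin n → Bool) : P v := by
  have h : ∀ T : Finset (Fin n), P fun i => decide (i ∈ T) := by
    intro T
    induction T using Finset.induction_on with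
    | empty => simpa using h0
    | insert k T hk ih =>
      have h1 := hs _ k ih
      have h2 : (fun i => decide (i ∈ insert k T)) =
          Function.update (fun i => decide (i ∈ T)) k (!(decide (k ∈ T))) := by
        funext i
        by_cases hi : i = k
        · subst hi
          simp [hk]
        · rw [Function.update_of_ne hi]
          simp [hi]
      rw [h2]
      exact h1
  have h3 := h (Finset.univ.filter fun i => v i = true)
  have h4 : (fun i => decide (i ∈ Finset.univ.filter fun i => v i = true)) = v := by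
    funext i
    simp
  rwa [h4] at h3

theorem q_lift (n t : ℕ) (hn : 1 ≤ n) (ht : 4 * (n - 1) < t)
    (χ : (Fin n → Bool) → Fin n → ZMod t) (s : (Fin n → Bool) → ZMod t)
    (h1 : ∀ v k, χ (Function.update v k (!v k)) k = χ v k)
    (h2 : ∀ v k l, χ v k = χ v l → k = l)
    (h3 : ∀ v k, ∃ e : ℕ, e < n ∧ χ v k = s v + (e : ZMod t)) :
    ∃ (X : (Fin n → Bool) → Fin n → ℤ) (S : (Fin n → Bool) → ℤ),
      (∀ v k, X (Function.update v k (!v k)) k = X v k) ∧
      (∀ v k l, X v k = X v l → k = l) ∧
      (∀ v k, S v ≤ X v k ∧ X v k < S v + n) ∧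
      (∀ v k, ((X v k : ℤ) : ZMod t) = χ v k) := by
  have ht0 : 0 < t := by omega
  haveI : NeZero t := ⟨ht0.ne'⟩
  choose e he1 he2 using h3
  -- the gradient
  let δ : (Fin n → Bool) → Fin n → ℤ := fun v k =>
    (e v k : ℤ) - (e (Function.update v k (!v k)) k : ℤ)
  have hanti : ∀ v k, δ (Function.update v k (!v k)) k = - δ v k := by
    intro v k
    simp only [δ]
    rw [q2b_flip_flip]
    ring
  have hsδ : ∀ v k, s (Function.update v k (!v k)) = s v + ((δ v k : ℤ) : ZMod t) := by
    intro v k
    have a1 := he2 v k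
    have a2 := he2 (Function.update v k (!v k)) k
    rw [h1 v k, a1] at a2
    simp only [δ]
    push_cast
    linear_combination -a2
  have hδb : ∀ v k, |δ v k| ≤ (n : ℤ) - 1 := by
    intro v k
    have b1 := he1 v k
    have b2 := he1 (Function.update v k (!v k)) k
    simp only [δ]
    rw [abs_le]
    constructor <;> omega
  have hsq : ∀ v k l, k ≠ l → δ v k + δ (Function.update v k (!v k)) l =
      δ v l + δ (Function.update v l (!v l)) k := by
    intro v k l hkl
    have c1 := hsδ (Function.update v k (!v k)) l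
    have c2 := hsδ (Function.update v l (!v l)) k
    rw [hsδ v k] at c1
    rw [hsδ v l] at c2
    rw [q2b_flip_comm v hkl] at c1
    rw [c1] at c2
    have c3 : (((δ v k + δ (Function.update v k (!v k)) l) -
        (δ v l + δ (Function.update v l (!v l)) k) : ℤ) : ZMod t) = 0 := by
      push_cast
      linear_combination c2
    have c4 := (ZMod.intCast_zmod_eq_zero_iff_dvd _ t).1 c3
    have d1 := abs_le.1 (hδb v k)
    have d2 := abs_le.1 (hδb v l)
    have d3 := abs_le.1 (hδb (Function.update v k (!v k)) l)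
    have d4 := abs_le.1 (hδb (Function.update v l (!v l)) k)
    have c5 := Int.eq_zero_of_abs_lt_dvd c4 (by
      rw [abs_lt]
      constructor <;> omega)
    linarith
  obtain ⟨S0, hS0⟩ := cube_gradient n δ hanti hsq
  let z : Fin n → Bool := fun _ => false
  let S : (Fin n → Bool) → ℤ := fun v => S0 v - S0 z + ((s z).val : ℤ)
  have hSs : ∀ v, ((S v : ℤ) : ZMod t) = s v := by
    apply q2b_conn
    · simp only [S]
      rw [sub_self, zero_add]
      push_cast
      exact ZMod.natCast_zmod_val _
    · intro v k hv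
      rw [hsδ v k, ← hv, ← hS0 v k]
      simp only [S]
      push_cast
      ring
  have hXχ : ∀ v k, (((S v + (e v k : ℤ) : ℤ)) : ZMod t) = χ v k := by
    intro v k
    push_cast
    rw [hSs, he2 v k]
  refine ⟨fun v k => S v + (e v k : ℤ), S, ?_, ?_, ?_, hXχ⟩
  · intro v k
    have f1 := hS0 v k
    simp only [δ] at f1
    simp only [S]
    linarith
  · intro v k l hkl
    apply h2 v k l
    rw [← hXχ v k, ← hXχ v l]
    exact congrArg _ hkl
  · intro v k
    have b1 := he1 v k
    constructor
    · simp
    · have : (e v k : ℤ) < n := by exact_mod_cast b1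
      linarith

theorem q_down (n t b : ℕ) (hn : 1 ≤ n) (ht : 4 * (n - 1) < t) (h : QFeas n t) (hb : n ≤ b)
    (hbt : b ≤ t) : QFeas n b := by
  obtain ⟨χ, s, h1, h2, h3, h4⟩ := h
  obtain ⟨X, S, g1, g2, g3, g4⟩ := q_lift n t hn ht χ s h1 h2 h3
  have ht0 : 0 < t := by omega
  haveI : NeZero t := ⟨ht0.ne'⟩
  haveI : Nonempty (Fin n) := ⟨⟨0, hn⟩⟩
  obtain ⟨a, -, ha⟩ := Finset.exists_min_image (Finset.univ : Finset ((Fin n → Bool) × Fin n))
    (fun p => X p.1 p.2) Finset.univ_nonempty
  obtain ⟨c, -, hc⟩ := Finset.exists_max_image (Finset.univ : Finset ((Fin n → Bool) × Fin n))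
    (fun p => X p.1 p.2) Finset.univ_nonempty
  refine q_reduce n b hn hb X S g1 g2 g3 (X a.1 a.2) (X c.1 c.2) ⟨a.1, a.2, rfl⟩ ⟨c.1, c.2, rfl⟩ ?_
  have hcard : (Finset.univ : Finset (ZMod t)).card ≤
      (Finset.Icc (X a.1 a.2) (X c.1 c.2)).card := by
    refine Finset.card_le_card_of_surjOn (fun x : ℤ => (x : ZMod t)) ?_
    intro y _
    obtain ⟨v, k, hvk⟩ := h4 y
    refine ⟨X v k, ?_, ?_⟩
    · rw [Finset.mem_coe, Finset.mem_Icc]
      exact ⟨ha (v, k) (Finset.mem_univ _), hc (v, k) (Finset.mem_univ _)⟩
    · exact (g4 v k).trans hvk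
  rw [Finset.card_univ, ZMod.card, Int.card_Icc] at hcard
  have hle : X a.1 a.2 ≤ X c.1 c.2 := ha c (Finset.mem_univ _)
  omega

end ICC670
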