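import Mathlib
import Pool.Agent.H670.Icc.Defs
import Pool.Agent.H670.Icc.Q1

/-!
# The explicit interval colouring of the cube with `n (n + 1) / 2` colours
-/

namespace ICC670

/-- the explicit colouring -/
def q3X (n : ℕ) (v : Fin n → Bool) (k : Fin n) : ℤ :=
  ∑ l : Fin n, if l = k then ((k : ℕ) : ℤ) else
    if v l = true then (if l < k then ((l : ℕ) : ℤ) else ((l : ℕ) : ℤ) + 1) else 0

/-- the smallest colour at a vertex -/
def q3S (n : ℕ) (v : Fin n → Bool) : ℤ :=
  ∑ l : Fin n, if v l = true then ((l : ℕ) : ℤ) else 0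

/-- the ones above `k` -/
def q3A (n : ℕ) (v : Fin n → Bool) (k : Fin n) : Finset (Fin n) :=
  Finset.univ.filter (fun l => k < l ∧ v l = true)

theorem q3X_eq (n : ℕ) (v : Fin n → Bool) (k : Fin n) :
    q3X n v k = q3S n v + (if v k = true then 0 else ((k : ℕ) : ℤ)) + ((q3A n v k).card : ℤ) := by
  have h1 : ((q3A n v k).card : ℤ) = ∑ l : Fin n, if (k < l ∧ v l = true) then (1 : ℤ) else 0 := by
    unfold q3A
    rw [Finset.card_filter]
    push_cast
    rfl
  have h2 : (if v k = true then (0 : ℤ) else ((k : ℕ) : ℤ)) =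
      ∑ l : Fin n, if l = k then (if v k = true then (0 : ℤ) else ((k : ℕ) : ℤ)) else 0 := by
    rw [Finset.sum_ite_eq' Finset.univ k
      (fun _ => if v k = true then (0 : ℤ) else ((k : ℕ) : ℤ)), if_pos (Finset.mem_univ k)]
  rw [h1, h2]
  unfold q3X q3S
  rw [← Finset.sum_add_distrib, ← Finset.sum_add_distrib]
  apply Finset.sum_congr rfl
  intro l _
  by_cases hlk : l = k
  · subst hlk
    have hno : ¬ (l < l ∧ v l = true) := fun h => lt_irrefl _ h.1
    rw [if_pos rfl, if_pos rfl, if_neg hno]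
    by_cases hv : v l = true
    · rw [if_pos hv, if_pos hv]; ring
    · rw [if_neg hv, if_neg hv]; ring
  · rw [if_neg hlk, if_neg hlk]
    by_cases hv : v l = true
    · rw [if_pos hv, if_pos hv]
      by_cases hl : l < k
      · rw [if_pos hl, if_neg (fun h => absurd (lt_trans hl h.1) (lt_irrefl _))]
        ring
      · have h3 : k < l := lt_of_le_of_ne (not_lt.mp hl) (fun h => hlk h.symm)
        rw [if_neg hl, if_pos ⟨h3, hv⟩]
        ring
    · rw [if_neg hv, if_neg hv, if_neg (fun h => hv h.2)]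
      ring

theorem q3A_le (n : ℕ) (v : Fin n → Bool) (k : Fin n) :
    (q3A n v k).card + (k : ℕ) + 1 ≤ n := by
  have h1 : q3A n v k ⊆ Finset.Ioi k := by
    intro m hm
    unfold q3A at hm
    rw [Finset.mem_filter] at hm
    exact Finset.mem_Ioi.mpr hm.2.1
  have h2 := Finset.card_le_card h1
  rw [Fin.card_Ioi] at h2
  have := k.isLt
  omega

theorem q3A_true (n : ℕ) (v : Fin n → Bool) (k l : Fin n) (hkl : k < l) (hv : v l = true) :
    (q3A n v l).card + 1 ≤ (q3A n v k).card := by
  have h1 : insert l (q3A n v l) ⊆ q3A n v k := by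
    intro m hm
    rw [Finset.mem_insert] at hm
    unfold q3A at hm ⊢
    rw [Finset.mem_filter] at hm ⊢
    rcases hm with rfl | hm
    · exact ⟨Finset.mem_univ _, hkl, hv⟩
    · exact ⟨Finset.mem_univ _, lt_trans hkl hm.2.1, hm.2.2⟩
  have h2 := Finset.card_le_card h1
  have h3 : l ∉ q3A n v l := by
    unfold q3A
    rw [Finset.mem_filter]
    exact fun h => lt_irrefl _ h.2.1
  rwa [Finset.card_insert_of_notMem h3] at h2

theorem q3A_false (n : ℕ) (v : Fin n → Bool) (k l : Fin n) (hkl : k < l) (hv : ¬ v l = true) :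
    (q3A n v k).card + (k : ℕ) + 1 ≤ (q3A n v l).card + (l : ℕ) := by
  have h1 : q3A n v k ⊆ q3A n v l ∪ Finset.Ioo k l := by
    intro m hm
    rw [Finset.mem_union]
    unfold q3A at hm ⊢
    rw [Finset.mem_filter] at hm ⊢
    by_cases h : l < m
    · left
      exact ⟨Finset.mem_univ _, h, hm.2.2⟩
    · right
      rw [Finset.mem_Ioo]
      refine ⟨hm.2.1, lt_of_le_of_ne (not_lt.mp h) ?_⟩
      rintro rfl
      exact hv hm.2.2
  have h2 := Finset.card_le_card h1
  have h3 := Finset.card_union_le (q3A n v l) (Finset.Ioo k l)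
  rw [Fin.card_Ioo] at h3
  have h4 : (k : ℕ) < (l : ℕ) := hkl
  omega

theorem q3_ne (n : ℕ) (v : Fin n → Bool) (k l : Fin n) (hkl : k < l) :
    q3X n v k ≠ q3X n v l := by
  intro h
  rw [q3X_eq, q3X_eq] at h
  have h4 : (k : ℕ) < (l : ℕ) := hkl
  by_cases hvl : v l = true
  · have h5 := q3A_true n v k l hkl hvl
    rw [if_pos hvl] at h
    by_cases hvk : v k = true
    · rw [if_pos hvk] at h
      omega
    · rw [if_neg hvk] at h
      omega
  · have h5 := q3A_false n v k l hkl hvl
    rw [if_neg hvl] at h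
    by_cases hvk : v k = true
    · rw [if_pos hvk] at h
      omega
    · rw [if_neg hvk] at h
      omega

theorem q_explicit (n b : ℕ) (hn : 1 ≤ n) (hb : n ≤ b) (hb2 : 2 * b ≤ n * (n + 1)) : QFeas n b := by
  have hn0 : 0 < n := hn
  apply q_reduce n b hn hb (q3X n) (q3S n) ?_ ?_ ?_ (q3X n (fun _ => false) ⟨0, hn0⟩)
    (q3X n (fun _ => true) ⟨0, hn0⟩) ⟨_, _, rfl⟩ ⟨_, _, rfl⟩ ?_
  · intro v k
    unfold q3X
    apply Finset.sum_congr rfl
    intro l _
    by_cases hlk : l = k
    · rw [if_pos hlk, if_pos hlk]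
    · rw [if_neg hlk, if_neg hlk, Function.update_of_ne hlk]
  · intro v k l h
    rcases lt_trichotomy k l with h1 | h1 | h1
    · exact absurd h (q3_ne n v k l h1)
    · exact h1
    · exact absurd h.symm (q3_ne n v l k h1)
  · intro v k
    rw [q3X_eq]
    have h1 := q3A_le n v k
    have h2 := k.isLt
    by_cases hv : v k = true
    · rw [if_pos hv]
      constructor <;> omega
    · rw [if_neg hv]
      constructor <;> omega
  · have hA : q3X n (fun _ => false) ⟨0, hn0⟩ = 0 := by
      unfold q3X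
      apply Finset.sum_eq_zero
      intro l _
      by_cases hl : l = ⟨0, hn0⟩
      · rw [if_pos hl]; rfl
      · rw [if_neg hl]; rfl
    have hS : 2 * q3S n (fun _ => true) = (n : ℤ) * (n - 1) := by
      unfold q3S
      have h1 : (∑ l : Fin n, if (fun _ => true : Fin n → Bool) l = true then ((l : ℕ) : ℤ) else 0) =
          ((∑ i ∈ Finset.range n, i : ℕ) : ℤ) := by
        rw [Nat.cast_sum, ← Fin.sum_univ_eq_sum_range (fun i => ((i : ℕ) : ℤ)) n]
        apply Finset.sum_congr rfl
        intro l _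
        rw [if_pos rfl]
      rw [h1]
      have h2 := Finset.sum_range_id_mul_two n
      have h3 : ((∑ i ∈ Finset.range n, i : ℕ) : ℤ) * 2 = (n : ℤ) * ((n - 1 : ℕ) : ℤ) := by
        exact_mod_cast h2
      rw [Nat.cast_sub hn] at h3
      push_cast at h3 ⊢
      linarith
    have hB : q3X n (fun _ => true) ⟨0, hn0⟩ = q3S n (fun _ => true) + ((n : ℤ) - 1) := by
      rw [q3X_eq, if_pos rfl]
      have h1 : q3A n (fun _ => true) ⟨0, hn0⟩ = Finset.Ioi ⟨0, hn0⟩ := by
        ext m
        unfold q3A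
        rw [Finset.mem_filter, Finset.mem_Ioi]
        exact ⟨fun h => h.2.1, fun h => ⟨Finset.mem_univ _, h, rfl⟩⟩
      rw [h1, Fin.card_Ioi]
      have h2 : n - 1 - ((⟨0, hn0⟩ : Fin n) : ℕ) = n - 1 := by simp
      rw [h2, Nat.cast_sub hn]
      push_cast
      ring
    rw [hA, hB]
    have h5 : (2 * b : ℤ) ≤ (n : ℤ) * (n + 1) := by exact_mod_cast hb2
    nlinarith

end ICC670

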