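import Mathlib
import Pool.Agent.H670.Icc.Defs

/-!
# Interval cyclic colourings of `Q_3` with 7 colours and of `Q_4` with 11 colours
-/

namespace ICC670

/-- the number with binary digits `v` -/
def code {n : ℕ} (v : Fin n → Bool) : ℕ := ∑ i : Fin n, if v i then 2 ^ (i : ℕ) else 0

/-- colours of `Q_3` -/
def L3 : List ℕ := [0, 1, 2, 0, 5, 6, 3, 1, 2, 3, 5, 4, 0, 1, 2, 0, 5, 6, 3, 1, 2, 3, 5, 4]

/-- first colours of `Q_3` -/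
def S3 : List ℕ := [0, 5, 1, 3, 0, 5, 1, 3]

/-- colours of `Q_4` -/
def L4 : List ℕ := [0, 1, 2, 3, 0, 9, 10, 8, 0, 1, 2, 3, 0, 9, 10, 8, 0, 1, 2, 3, 0, 1, 10, 2, 0, 1, 2,
  3, 0, 1, 10, 2, 6, 4, 5, 3, 6, 7, 5, 8, 6, 4, 5, 3, 6, 7, 5, 8, 4, 2, 5, 3, 4, 3, 5, 2, 4, 2, 5, 3, 4,
  3, 5, 2]

/-- first colours of `Q_4` -/
def S4 : List ℕ := [0, 8, 0, 8, 0, 10, 0, 10, 3, 5, 3, 5, 2, 2, 2, 2]

theorem q3_7 : QFeas 3 7 := by
  refine ⟨fun v k => ((L3.getD (code v * 3 + k) 0 : ℕ) : ZMod 7), fun v => ((S3.getD (code v) 0 : ℕ) : ZMod 7), ?_, ?_, ?_, ?_⟩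
  · decide
  · decide
  · decide
  · decide

theorem q4_11 : QFeas 4 11 := by
  refine ⟨fun v k => ((L4.getD (code v * 4 + k) 0 : ℕ) : ZMod 11), fun v => ((S4.getD (code v) 0 : ℕ) : ZMod 11), ?_, ?_, ?_, ?_⟩
  · decide +kernel
  · decide +kernel
  · decide +kernel
  · decide +kernel

end ICC670
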