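import Mathlib
import Pool.Agent.H670.Icc.Defs
import Pool.Agent.H670.Icc.K1
import Pool.Agent.H670.Icc.K2
import Pool.Agent.H670.Icc.K3a
import Pool.Agent.H670.Icc.K3b
import Pool.Agent.H670.Icc.G3
import Pool.Agent.H670.Icc.G2
import Pool.Agent.H670.Icc.B1
import Pool.Agent.H670.Icc.B2
import Pool.Agent.H670.Icc.Bcon
import Pool.Agent.H670.Icc.Q2b
import Pool.Agent.H670.Icc.Q3
import Pool.Agent.H670.Icc.Q4

/-!
# Gap-freeness in residue form
-/

namespace ICC670

/-- An interval cyclic `t`-colouring of `K_N`, `N ≥ 3`, has `t ≤ 2 N - 4`, or `t = 2 N - 3` and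
`3 ∣ N`. -/
theorem kn_upper (N t : ℕ) (hN : 3 ≤ N) (ht : 2 * N ≤ t + 3) (h : KFeas N t) :
    t + 3 = 2 * N ∧ 3 ∣ N := by
  obtain ⟨χ, s, hs, hi, ha, hc⟩ := h
  obtain ⟨p, c, hp, hper, h1, h2, h3, h4, hcov⟩ := kn_lift N t hN ht χ s hs hi ha hc
  obtain ⟨r, θ, hr1, hr2, hrp, hθp, hθ1, hθ2, hpl, hmi, h0⟩ :=
    kn_theta N t hN ht p hp hper h1 hcov
  refine kn_potential N t hN ht (fun k => r k - p k) θ ?_ hθp ?_ hpl hmi ?_
  · intro k
    show r (k + N) - p (k + N) = r k - p k + N - t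
    rw [hrp, hper]; ring
  · intro i
    exact kn_count N t hN ht p r c hp hper h1 h2 h3 h4 hr1 hr2 i (θ i) (hθ1 i) (hθ2 i)
  · intro i hi0
    exact h0 i hi0

theorem kfeas_lower (N t : ℕ) (hN : 1 ≤ N) (ht : 1 ≤ t) (h : KFeas N t) : N ≤ t + 1 := by
  haveI : NeZero t := ⟨by omega⟩
  obtain ⟨χ, s, hs, hi, ha, hc⟩ := h
  have := Fintype.card_le_of_injective
    (fun u : {u : Fin N // (⟨0, by omega⟩ : Fin N) ≠ u} => χ ⟨0, by omega⟩ u.1)
    (fun u w huw => Subtype.ext (hi _ _ _ u.2 w.2 huw))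
  rw [ZMod.card] at this
  have h2 : Fintype.card {u : Fin N // (⟨0, by omega⟩ : Fin N) ≠ u} = N - 1 := by
    have := Set.card_ne_eq (⟨0, by omega⟩ : Fin N)
    simp only [Fintype.card_fin] at this
    rw [← this]
    refine Fintype.card_congr (Equiv.subtypeEquivRight fun u => ?_)
    simp [ne_comm]
  omega

theorem kfeas_two (t : ℕ) (ht : 1 ≤ t) (h : KFeas 2 t) : t = 1 := by
  haveI : NeZero t := ⟨by omega⟩
  obtain ⟨χ, s, hs, hi, ha, hc⟩ := h
  have h01 : ∀ u v : Fin 2, u ≠ v → χ u v = χ 0 1 := by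
    intro u v huv
    fin_cases u <;> fin_cases v
    · exact absurd rfl huv
    · rfl
    · exact hs 1 0 (by decide)
    · exact absurd rfl huv
  have : Subsingleton (ZMod t) := ⟨fun a b => by
    obtain ⟨u, v, huv, rfl⟩ := hc a
    obtain ⟨u', v', huv', rfl⟩ := hc b
    rw [h01 u v huv, h01 u' v' huv']⟩
  have h1 : Fintype.card (ZMod t) ≤ 1 := Fintype.card_le_one_iff_subsingleton.mpr this
  rw [ZMod.card] at h1
  omega

theorem split3 (l1 h1 l2 h2 l3 h3 b : ℕ) (a1 : l1 ≤ h1) (a2 : l2 ≤ h2) (a3 : l3 ≤ h3)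
    (hl : l1 + l2 + l3 ≤ b) (hh : b ≤ h1 + h2 + h3) :
    ∃ u v w : ℕ, l1 ≤ u ∧ u ≤ h1 ∧ l2 ≤ v ∧ v ≤ h2 ∧ l3 ≤ w ∧ w ≤ h3 ∧ b = u + v + w := by
  by_cases c1 : b ≤ h1 + l2 + l3
  · exact ⟨b - l2 - l3, l2, l3, by omega, by omega, by omega, by omega, by omega, by omega, by omega⟩
  · by_cases c2 : b ≤ h1 + h2 + l3
    · exact ⟨h1, b - h1 - l3, l3, by omega, by omega, by omega, by omega, by omega, by omega,
        by omega⟩
    · exact ⟨h1, h2, b - h1 - h2, by omega, by omega, by omega, by omega, by omega, by omega,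
        by omega⟩

/-- `K_N`, `N ≥ 6` even, has interval cyclic `b`-colourings for `N ≤ b ≤ 2 N - 5`, and for
`b = 2 N - 4` if `3 ∣ N`. -/
theorem kfeas_con (N b : ℕ) (hN : 6 ≤ N) (he : Even N) (hb1 : N ≤ b)
    (hb2 : b + 5 ≤ 2 * N ∨ (b + 4 = 2 * N ∧ 3 ∣ N)) : KFeas N b := by
  have htwo : 8 ≤ N → b ≤ N + 2 → KFeas N b := by
    intro h8 hb
    obtain ⟨n, hn⟩ := he
    exact two_groups 4 (N - 4) (b - (N - 1)) N b (by decide) ⟨n - 2, by omega⟩ (by omega)
      (by omega) (by omega) (by omega) (by omega)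
  have hmod : N % 6 = 0 ∨ N % 6 = 2 ∨ N % 6 = 4 := by
    obtain ⟨n, hn⟩ := he
    omega
  rcases hmod with h | h | h
  · obtain ⟨k, hk⟩ : ∃ k, N = 6 * k := ⟨N / 6, by omega⟩
    obtain ⟨u, v, w, q1, q2, q3, q4, q5, q6, q7⟩ :=
      split3 (2 * k) (4 * k - 1) (2 * k) (4 * k - 1) (2 * k) (4 * k - 1) b (by omega) (by omega)
        (by omega) (by omega) (by omega)
    exact three_groups (2 * k) (2 * k) (2 * k) u v w N b ⟨k, by ring⟩ ⟨k, by ring⟩ ⟨k, by ring⟩
      (by omega) le_rfl le_rfl (by omega) q7 q1 (by omega) q3 (by omega) q5 (by omega)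
  · obtain ⟨k, hk⟩ : ∃ k, N = 6 * k + 2 := ⟨N / 6, by omega⟩
    by_cases hb : b ≤ N + 2
    · exact htwo (by omega) hb
    · by_cases hk1 : k = 1
      · subst hk1
        have e1 : N = 8 := by omega
        have e2 : b = 11 := by omega
        rw [e1, e2]
        exact k8_11
      · obtain ⟨u, v, w, q1, q2, q3, q4, q5, q6, q7⟩ :=
          split3 (2 * k + 2) (4 * k + 1) (2 * k) (4 * k - 1) (2 * k + 2) (4 * k - 1) b (by omega)
            (by omega) (by omega) (by omega) (by omega)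
        exact three_groups (2 * k) (2 * k) (2 * k + 2) u v w N b ⟨k, by ring⟩ ⟨k, by ring⟩
          ⟨k + 1, by ring⟩ (by omega) (by omega) (by omega) (by omega) q7 q1 (by omega) q3
          (by omega) q5 (by omega)
  · obtain ⟨k, hk⟩ : ∃ k, N = 6 * k + 4 := ⟨N / 6, by omega⟩
    by_cases hb : b ≤ N + 2
    · exact htwo (by omega) hb
    · obtain ⟨u, v, w, q1, q2, q3, q4, q5, q6, q7⟩ :=
        split3 (2 * k + 2) (4 * k + 1) (2 * k + 2) (4 * k + 1) (2 * k + 2) (4 * k + 1) b (by omega)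
          (by omega) (by omega) (by omega) (by omega)
      exact three_groups (2 * k) (2 * k + 2) (2 * k + 2) u v w N b ⟨k, by ring⟩
        ⟨k + 1, by ring⟩ ⟨k + 1, by ring⟩ (by omega) (by omega) (by omega) (by omega) q7 q1
        (by omega) q3 (by omega) q5 (by omega)

theorem kfeas_gap (n a b c : ℕ) (hn : 1 ≤ n) (hab : a < b) (hbc : b < c) (ha1 : 1 ≤ a)
    (ha : KFeas (2 * n) a) (hc : KFeas (2 * n) c) : KFeas (2 * n) b := by
  by_cases h1 : n = 1
  · subst h1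
    have := kfeas_two c (by omega) hc
    omega
  · have hlow := kfeas_lower (2 * n) a (by omega) ha1 ha
    have hup : c + 3 ≤ 2 * (2 * n) ∧ (c + 3 = 2 * (2 * n) → 3 ∣ 2 * n) := by
      by_cases h : 2 * (2 * n) ≤ c + 3
      · obtain ⟨q1, q2⟩ := kn_upper (2 * n) c (by omega) h hc
        exact ⟨by omega, fun _ => q2⟩
      · exact ⟨by omega, fun h' => by omega⟩
    by_cases h2 : n = 2
    · subst h2
      exfalso
      obtain ⟨q1, q2⟩ := hup
      have : c + 3 = 8 := by omega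
      have := q2 this
      omega
    · refine kfeas_con (2 * n) b (by omega) ⟨n, by ring⟩ (by omega) ?_
      by_cases h3 : c + 3 = 2 * (2 * n)
      · have := hup.2 h3
        by_cases h4 : b + 5 ≤ 2 * (2 * n)
        · exact Or.inl h4
        · exact Or.inr ⟨by omega, this⟩
      · exact Or.inl (by omega)

theorem bfeas_upper (m n t : ℕ) (hm : 1 ≤ m) (hn : 1 ≤ n) (h : BFeas m n t) : t ≤ m + n := by
  by_contra hcon
  obtain ⟨χ, a, b, h1, h2, h3, h4, h5⟩ := h
  obtain ⟨p, q, c, hp, hq, hpp, hqp, hex, hr, hil, hik, hcov⟩ :=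
    kmn_lift m n t hm hn (by omega) χ a b h1 h2 h3 h4 h5
  exact kmn_no m n t hm hn (by omega) p q c hp hq hpp hqp hex hr hil hik hcov

theorem qfeas_lower (n t : ℕ) (ht : 1 ≤ t) (h : QFeas n t) : n ≤ t := by
  haveI : NeZero t := ⟨by omega⟩
  obtain ⟨χ, s, h1, h2, h3, h4⟩ := h
  have := Fintype.card_le_of_injective (fun k : Fin n => χ (fun _ => false) k)
    (fun k l hkl => h2 _ k l hkl)
  simpa [ZMod.card] using this

theorem qfeas_gap (n a b c : ℕ) (hn : 1 ≤ n) (hab : a < b) (hbc : b < c) (ha1 : 1 ≤ a)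
    (ha : QFeas n a) (hc : QFeas n c) : QFeas n b := by
  have hlow := qfeas_lower n a ha1 ha
  by_cases h1 : 4 * (n - 1) < c
  · exact q_down n c b hn h1 hc (by omega) (by omega)
  · by_cases h2 : 2 * b ≤ n * (n + 1)
    · exact q_explicit n b hn (by omega) h2
    · by_cases h5 : 5 ≤ n
      · exfalso
        have : 2 * (4 * n) ≤ n * (n + 1) + 10 := by nlinarith
        omega
      · have h4 : n = 1 ∨ n = 2 ∨ n = 3 ∨ n = 4 := by omega
        rcases h4 with rfl | rfl | rfl | rfl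
        · omega
        · omega
        · have : b = 7 := by omega
          rw [this]; exact q3_7
        · have : b = 11 := by omega
          rw [this]; exact q4_11

end ICC670
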