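import Mathlib

/-!
# Interval cyclic edge-colourings: definition and residue form
-/

namespace MP_2596c2_co

/-- `α` is an interval cyclic `t`-colouring of `G`: the edges have colours in `{1, ..., t}`, edges with a
common end have different colours, every colour is used, and for each vertex `v` the colours of the edges
at `v`, read as residues modulo `t`, form a set `{a, a + 1, ..., a + d - 1}`, where
`d = (G.neighborSet v).ncard` is the degree of `v`. (The values of `α` off the edges are irrelevant.) -/
structure IntervalCyclic {V : Type} (G : SimpleGraph V) (t : ℕ) (α : Sym2 V → ℕ) : Prop where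
  range : ∀ e ∈ G.edgeSet, 1 ≤ α e ∧ α e ≤ t
  proper : ∀ v u w, G.Adj v u → G.Adj v w → u ≠ w → α s(v, u) ≠ α s(v, w)
  surj : ∀ c, 1 ≤ c → c ≤ t → ∃ e ∈ G.edgeSet, α e = c
  cyclic : ∀ v, ∃ a : ZMod t, {x : ZMod t | ∃ u, G.Adj v u ∧ x = (α s(v, u) : ZMod t)} =
    {x : ZMod t | ∃ i : ℕ, i < (G.neighborSet v).ncard ∧ x = a + (i : ZMod t)}

/-- the feasible set `F(G)`: all `t ≥ 1` such that `G` has an interval cyclic `t`-colouring -/
def feasible {V : Type} (G : SimpleGraph V) : Set ℕ :=
  {t | 1 ≤ t ∧ ∃ α : Sym2 V → ℕ, IntervalCyclic G t α}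


theorem inj_range {t : ℕ} {a b : ℕ} (ha : 1 ≤ a ∧ a ≤ t) (hb : 1 ≤ b ∧ b ≤ t)
    (h : (a : ZMod t) = (b : ZMod t)) : a = b := by
  rw [ZMod.natCast_eq_natCast_iff] at h
  rcases lt_or_ge a t with h1 | h1 <;> rcases lt_or_ge b t with h2 | h2
  · exact Nat.ModEq.eq_of_lt_of_lt h h1 h2
  · have hb' : b = t := by omega
    subst hb'
    have : a % b = b % b := h
    rw [Nat.mod_eq_of_lt h1, Nat.mod_self] at this
    omega
  · have ha' : a = t := by omega
    subst ha'
    have : a % a = b % a := h
    rw [Nat.mod_eq_of_lt h2, Nat.mod_self] at this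
    omega
  · omega

def rep {t : ℕ} (x : ZMod t) : ℕ := if x.val = 0 then t else x.val

theorem rep_range {t : ℕ} (ht : 1 ≤ t) (x : ZMod t) : 1 ≤ rep x ∧ rep x ≤ t := by
  have : NeZero t := ⟨by omega⟩
  unfold rep
  split_ifs with h
  · omega
  · have := ZMod.val_lt x
    omega

theorem rep_cast {t : ℕ} (ht : 1 ≤ t) (x : ZMod t) : ((rep x : ℕ) : ZMod t) = x := by
  have : NeZero t := ⟨by omega⟩
  unfold rep
  split_ifs with h
  · have : x = 0 := (ZMod.val_eq_zero x).1 h
    simp [this]
  · exact ZMod.natCast_zmod_val x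

theorem feasible_iff {V : Type} [Finite V] (G : SimpleGraph V) (t : ℕ) :
    t ∈ feasible G ↔ 1 ≤ t ∧ ∃ (χ : V → V → ZMod t) (s : V → ZMod t),
      (∀ u v, G.Adj u v → χ u v = χ v u) ∧
      (∀ v u w, G.Adj v u → G.Adj v w → χ v u = χ v w → u = w) ∧
      (∀ v u, G.Adj v u → ∃ i : ℕ, i < (G.neighborSet v).ncard ∧ χ v u = s v + (i : ZMod t)) ∧
      (∀ c : ZMod t, ∃ u v, G.Adj u v ∧ χ u v = c) := by
  classical
  constructor
  · rintro ⟨ht, α, hα⟩
    have : NeZero t := ⟨by omega⟩
    refine ⟨ht, fun u v => (α s(u, v) : ZMod t), fun v => (hα.cyclic v).choose, ?_, ?_, ?_, ?_⟩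
    · intro u v _
      simp only [Sym2.eq_swap]
    · intro v u w hu hw h
      by_contra hne
      exact hα.proper v u w hu hw hne
        (inj_range (hα.range s(v, u) (by simpa using hu)) (hα.range s(v, w) (by simpa using hw)) h)
    · intro v u hu
      have hc := (hα.cyclic v).choose_spec
      have : (α s(v, u) : ZMod t) ∈
          {x : ZMod t | ∃ u, G.Adj v u ∧ x = (α s(v, u) : ZMod t)} := ⟨u, hu, rfl⟩
      rw [hc] at this
      exact this
    · intro c
      obtain ⟨e, he, hec⟩ := hα.surj (rep c) (rep_range ht c).1 (rep_range ht c).2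
      induction e using Sym2.ind with
      | _ u v =>
        refine ⟨u, v, by simpa using he, ?_⟩
        show (α s(u, v) : ZMod t) = c
        rw [hec, rep_cast ht]
  · rintro ⟨ht, χ, s, hsym, hinj, harc, hsurj⟩
    have : NeZero t := ⟨by omega⟩
    let α : Sym2 V → ℕ := Sym2.lift ⟨fun u v => if G.Adj u v then rep (χ u v) else 0, by
      intro u v
      by_cases h : G.Adj u v
      · have h' : G.Adj v u := h.symm
        simp only [h, h', if_true]
        rw [hsym u v h]
      · have h' : ¬ G.Adj v u := fun h' => h h'.symm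
        simp only [h, h', if_false]⟩
    have hα : ∀ u v, G.Adj u v → α s(u, v) = rep (χ u v) := by
      intro u v h
      show (if G.Adj u v then rep (χ u v) else 0) = rep (χ u v)
      rw [if_pos h]
    have hαc : ∀ u v, G.Adj u v → (α s(u, v) : ZMod t) = χ u v := by
      intro u v h
      rw [hα u v h, rep_cast ht]
    refine ⟨ht, α, ?_, ?_, ?_, ?_⟩
    · intro e he
      induction e using Sym2.ind with
      | _ u v =>
        have h : G.Adj u v := by simpa using he
        rw [hα u v h]
        exact rep_range ht _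
    · intro v u w hu hw hne heq
      apply hne
      apply hinj v u w hu hw
      rw [← hαc v u hu, ← hαc v w hw, heq]
    · intro c h1 h2
      obtain ⟨u, v, huv, hc⟩ := hsurj (c : ZMod t)
      refine ⟨s(u, v), by simpa using huv, ?_⟩
      rw [hα u v huv, hc]
      exact inj_range (rep_range ht _) ⟨h1, h2⟩ (rep_cast ht _)
    · intro v
      refine ⟨s v, ?_⟩
      set B : Set (ZMod t) := {x : ZMod t | ∃ i : ℕ, i < (G.neighborSet v).ncard ∧ x = s v + (i : ZMod t)} with hB
      have hA : {x : ZMod t | ∃ u, G.Adj v u ∧ x = (α s(v, u) : ZMod t)} =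
          (fun u => χ v u) '' (G.neighborSet v) := by
        ext x
        constructor
        · rintro ⟨u, hu, rfl⟩
          exact ⟨u, hu, (hαc v u hu).symm⟩
        · rintro ⟨u, hu, rfl⟩
          exact ⟨u, hu, (hαc v u hu).symm⟩
      rw [hA]
      have hBfin : B.Finite := Set.toFinite _
      apply Set.eq_of_subset_of_ncard_le _ _ hBfin
      · rintro x ⟨u, hu, rfl⟩
        exact harc v u hu
      · have hI : Set.InjOn (fun u => χ v u) (G.neighborSet v) :=
          fun u hu w hw h => hinj v u w hu hw h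
        rw [hI.ncard_image]
        have hB2 : B = (fun i : ℕ => s v + (i : ZMod t)) '' (↑(Finset.range (G.neighborSet v).ncard) : Set ℕ) := by
          ext x
          constructor
          · rintro ⟨i, hi, rfl⟩
            exact ⟨i, by simpa using hi, rfl⟩
          · rintro ⟨i, hi, rfl⟩
            exact ⟨i, by simpa using hi, rfl⟩
        rw [hB2]
        refine (Set.ncard_image_le (Finset.finite_toSet _)).trans ?_
        rw [Set.ncard_coe_finset, Finset.card_range]

end MP_2596c2_co
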