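import Mathlib
import Pool.Agent.H670.Icc.Defs
import Pool.Agent.H670.Icc.R0

/-!
# The three families in residue form
-/

namespace ICC670

end ICC670

namespace MP_2596c2_co

/-- the `n`-dimensional cube: two 0-1-vectors are adjacent iff they differ in exactly one coordinate -/
def cube (n : ℕ) : SimpleGraph (Fin n → Bool) where
  Adj u v := (Finset.univ.filter (fun k => u k ≠ v k)).card = 1
  symm := ⟨fun u v h => by simpa only [ne_comm] using h⟩
  loopless := ⟨fun u h => by simp at h⟩

theorem complete_iff (N t : ℕ) :
    t ∈ feasible (⊤ : SimpleGraph (Fin N)) ↔ 1 ≤ t ∧ ICC670.KFeas N t := by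
  have hdeg : ∀ v : Fin N, ((⊤ : SimpleGraph (Fin N)).neighborSet v).ncard = N - 1 := by
    intro v
    have h1 : (⊤ : SimpleGraph (Fin N)).neighborSet v = {v}ᶜ := by
      ext w
      simp [eq_comm]
    rw [h1, Set.ncard_compl, Set.ncard_singleton, Nat.card_eq_fintype_card, Fintype.card_fin]
  rw [feasible_iff]
  simp only [SimpleGraph.top_adj, hdeg]
  exact Iff.rfl

theorem bipartite_iff (m n t : ℕ) :
    t ∈ feasible (completeBipartiteGraph (Fin m) (Fin n)) ↔ 1 ≤ t ∧ ICC670.BFeas m n t := by
  have hdl : ∀ i : Fin m, ((completeBipartiteGraph (Fin m) (Fin n)).neighborSet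
      (Sum.inl i)).ncard = n := by
    intro i
    have h1 : (completeBipartiteGraph (Fin m) (Fin n)).neighborSet (Sum.inl i) =
        Set.range Sum.inr := by
      ext w
      rcases w with w | w <;> simp
    rw [h1, ← Set.image_univ, Set.ncard_image_of_injective _ Sum.inr_injective, Set.ncard_univ,
      Nat.card_eq_fintype_card, Fintype.card_fin]
  have hdr : ∀ j : Fin n, ((completeBipartiteGraph (Fin m) (Fin n)).neighborSet
      (Sum.inr j)).ncard = m := by
    intro j
    have h1 : (completeBipartiteGraph (Fin m) (Fin n)).neighborSet (Sum.inr j) =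
        Set.range Sum.inl := by
      ext w
      rcases w with w | w <;> simp
    rw [h1, ← Set.image_univ, Set.ncard_image_of_injective _ Sum.inl_injective, Set.ncard_univ,
      Nat.card_eq_fintype_card, Fintype.card_fin]
  have hlr : ∀ (i : Fin m) (j : Fin n),
      (completeBipartiteGraph (Fin m) (Fin n)).Adj (Sum.inl i) (Sum.inr j) := by
    intro i j
    simp
  have hrl : ∀ (i : Fin m) (j : Fin n),
      (completeBipartiteGraph (Fin m) (Fin n)).Adj (Sum.inr j) (Sum.inl i) := by
    intro i j
    simp
  have hll : ∀ (i i' : Fin m),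
      ¬ (completeBipartiteGraph (Fin m) (Fin n)).Adj (Sum.inl i) (Sum.inl i') := by
    intro i j
    simp
  have hrr : ∀ (i i' : Fin n),
      ¬ (completeBipartiteGraph (Fin m) (Fin n)).Adj (Sum.inr i) (Sum.inr i') := by
    intro i j
    simp
  rw [feasible_iff]
  refine and_congr_right fun ht => ⟨?_, ?_⟩
  · rintro ⟨χ, s, h1, h2, h3, h4⟩
    refine ⟨fun i j => χ (Sum.inl i) (Sum.inr j), fun i => s (Sum.inl i),
      fun j => s (Sum.inr j), ?_, ?_, ?_, ?_, ?_⟩
    · intro i j j' h
      exact Sum.inr_injective (h2 _ _ _ (hlr i j) (hlr i j') h)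
    · intro i i' j h
      simp only at h
      rw [h1 _ _ (hlr i j), h1 _ _ (hlr i' j)] at h
      exact Sum.inl_injective (h2 _ _ _ (hrl i j) (hrl i' j) h)
    · intro i j
      obtain ⟨e, he, h⟩ := h3 _ _ (hlr i j)
      rw [hdl] at he
      exact ⟨e, he, h⟩
    · intro i j
      obtain ⟨e, he, h⟩ := h3 _ _ (hrl i j)
      rw [hdr] at he
      simp only
      rw [h1 _ _ (hlr i j)]
      exact ⟨e, he, h⟩
    · intro c
      obtain ⟨u, v, hadj, h⟩ := h4 c
      rcases u with i | j
      · rcases v with i' | j'
        · exact absurd hadj (hll i i')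
        · exact ⟨i, j', h⟩
      · rcases v with i' | j'
        · refine ⟨i', j, ?_⟩
          simp only
          rw [h1 _ _ (hlr i' j)]
          exact h
        · exact absurd hadj (hrr j j')
  · rintro ⟨χ, a, b, h1, h2, h3, h4, h5⟩
    refine ⟨fun u v => Sum.elim (fun i => Sum.elim (fun _ => 0) (fun j => χ i j) v)
      (fun j => Sum.elim (fun i => χ i j) (fun _ => 0) v) u, Sum.elim a b, ?_, ?_, ?_, ?_⟩
    · rintro (i | j) (i' | j') hadj
      · exact absurd hadj (hll i i')
      · rfl
      · rfl
      · exact absurd hadj (hrr j j')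
    · rintro (i | j) (i' | j') (i'' | j'') hadj hadj' h
      · exact absurd hadj (hll _ _)
      · exact absurd hadj (hll _ _)
      · exact absurd hadj' (hll _ _)
      · exact congrArg Sum.inr (h1 i j' j'' h)
      · exact congrArg Sum.inl (h2 i' i'' j h)
      · exact absurd hadj' (hrr _ _)
      · exact absurd hadj (hrr _ _)
      · exact absurd hadj (hrr _ _)
    · rintro (i | j) (i' | j') hadj
      · exact absurd hadj (hll _ _)
      · rw [hdl]
        exact h3 i j'
      · rw [hdr]
        exact h4 i' j
      · exact absurd hadj (hrr _ _)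
    · intro c
      obtain ⟨i, j, h⟩ := h5 c
      exact ⟨Sum.inl i, Sum.inr j, hlr i j, h⟩

theorem cube_iff (n t : ℕ) : t ∈ feasible (cube n) ↔ 1 ≤ t ∧ ICC670.QFeas n t := by
  classical
  have hfl : ∀ (v : Fin n → Bool) (k : Fin n), (cube n).Adj v (Function.update v k (!v k)) := by
    intro v k
    change (Finset.univ.filter (fun l => v l ≠ Function.update v k (!v k) l)).card = 1
    rw [Finset.card_eq_one]
    refine ⟨k, ?_⟩
    ext l
    simp only [Finset.mem_filter, Finset.mem_univ, true_and, Finset.mem_singleton]
    constructor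
    · intro h
      by_contra hl
      exact h (Function.update_of_ne hl _ _).symm
    · rintro rfl
      rw [Function.update_self]
      cases v l <;> simp
  have hex : ∀ u v : Fin n → Bool, (cube n).Adj u v → ∃ k, v = Function.update u k (!u k) := by
    intro u v h
    change (Finset.univ.filter (fun l => u l ≠ v l)).card = 1 at h
    rw [Finset.card_eq_one] at h
    obtain ⟨k, hk⟩ := h
    refine ⟨k, ?_⟩
    funext l
    by_cases hl : l = k
    · subst hl
      rw [Function.update_self]
      have h1 : l ∈ Finset.univ.filter (fun l => u l ≠ v l) := by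
        rw [hk]
        exact Finset.mem_singleton_self l
      have h2 := (Finset.mem_filter.mp h1).2
      revert h2
      cases u l <;> cases v l <;> simp
    · rw [Function.update_of_ne hl]
      by_contra h1
      have h2 : l ∈ Finset.univ.filter (fun l => u l ≠ v l) :=
        Finset.mem_filter.mpr ⟨Finset.mem_univ l, fun h => h1 h.symm⟩
      rw [hk] at h2
      exact hl (Finset.mem_singleton.mp h2)
  have hinj : ∀ (v : Fin n → Bool) (k l : Fin n),
      Function.update v k (!v k) = Function.update v l (!v l) → k = l := by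
    intro v k l h
    by_contra hkl
    have h1 := congrFun h k
    rw [Function.update_self, Function.update_of_ne hkl] at h1
    revert h1
    cases v k <;> simp
  have hinv : ∀ (v : Fin n → Bool) (k : Fin n), Function.update (Function.update v k (!v k)) k
      (!(Function.update v k (!v k)) k) = v := by
    intro v k
    rw [Function.update_self, Bool.not_not, Function.update_idem, Function.update_eq_self]
  have hdeg : ∀ v : Fin n → Bool, ((cube n).neighborSet v).ncard = n := by
    intro v
    have h1 : (cube n).neighborSet v = Set.range fun k => Function.update v k (!v k) := by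
      ext w
      rw [SimpleGraph.mem_neighborSet]
      constructor
      · intro h
        obtain ⟨k, hk⟩ := hex v w h
        exact ⟨k, hk.symm⟩
      · rintro ⟨k, rfl⟩
        exact hfl v k
    rw [h1, ← Set.image_univ, Set.ncard_image_of_injective _ (fun k l h => hinj v k l h),
      Set.ncard_univ, Nat.card_eq_fintype_card, Fintype.card_fin]
  rw [feasible_iff]
  refine and_congr_right fun ht => ⟨?_, ?_⟩
  · rintro ⟨χ, s, h1, h2, h3, h4⟩
    refine ⟨fun v k => χ v (Function.update v k (!v k)), s, ?_, ?_, ?_, ?_⟩
    · intro v k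
      simp only
      rw [hinv v k]
      exact (h1 _ _ (hfl v k)).symm
    · intro v k l h
      exact hinj v k l (h2 _ _ _ (hfl v k) (hfl v l) h)
    · intro v k
      obtain ⟨e, he, h⟩ := h3 _ _ (hfl v k)
      rw [hdeg] at he
      exact ⟨e, he, h⟩
    · intro c
      obtain ⟨u, v, hadj, h⟩ := h4 c
      obtain ⟨k, rfl⟩ := hex u v hadj
      exact ⟨u, k, h⟩
  · rintro ⟨χ, s, h1, h2, h3, h4⟩
    set ψ : (Fin n → Bool) → (Fin n → Bool) → ZMod t := fun u v =>
      if h : ∃ k, v = Function.update u k (!u k) then χ u (Classical.choose h) else 0 with hψ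
    have hψk : ∀ u k, ψ u (Function.update u k (!u k)) = χ u k := by
      intro u k
      have h : ∃ l, Function.update u k (!u k) = Function.update u l (!u l) := ⟨k, rfl⟩
      have h5 : Classical.choose h = k := (hinj u _ _ (Classical.choose_spec h)).symm
      simp only [hψ]
      rw [dif_pos h, h5]
    refine ⟨ψ, s, ?_, ?_, ?_, ?_⟩
    · intro u v hadj
      obtain ⟨k, rfl⟩ := hex u v hadj
      rw [hψk]
      have h5 := hψk (Function.update u k (!u k)) k
      rw [hinv u k] at h5
      rw [h5, h1]
    · intro v u w hu hw h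
      obtain ⟨k, rfl⟩ := hex v u hu
      obtain ⟨l, rfl⟩ := hex v w hw
      rw [hψk, hψk] at h
      rw [h2 v k l h]
    · intro v u hu
      obtain ⟨k, rfl⟩ := hex v u hu
      rw [hψk, hdeg]
      exact h3 v k
    · intro c
      obtain ⟨v, k, h⟩ := h4 c
      exact ⟨v, _, hfl v k, by rw [hψk, h]⟩

end MP_2596c2_co
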